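import Pool.Agent.Helper18.Katz8

/-!
Support file for MP_0aa406_nt (helper18): extension to multiples of a prime degree.
-/

set_option autoImplicit false

namespace Pool.Agent.Helper18.Katz

open Finset Filter

theorem ds_rec {p : ℕ} (hp : 2 ≤ p) (x : ℕ) :
    (Nat.digits p x).sum = x % p + (Nat.digits p (x / p)).sum := by
  rcases Nat.eq_zero_or_pos x with rfl | hx
  · simp
  · rw [Nat.digits_def' (by omega) hx, List.sum_cons]

theorem ds_add {p : ℕ} (hp : 2 ≤ p) (k : ℕ) : ∀ (a y : ℕ), a < p ^ k →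
    (Nat.digits p (a + p ^ k * y)).sum = (Nat.digits p a).sum + (Nat.digits p y).sum := by
  induction k with
  | zero =>
    intro a y ha
    have : a = 0 := by simpa using ha
    subst this
    simp
  | succ k ih =>
    intro a y ha
    rw [ds_rec hp (a + p ^ (k + 1) * y), ds_rec hp a]
    have h1 : (a + p ^ (k + 1) * y) % p = a % p := by
      have : a + p ^ (k + 1) * y = a + p * (p ^ k * y) := by ring
      rw [this, Nat.add_mul_mod_self_left]
    have h2 : (a + p ^ (k + 1) * y) / p = a / p + p ^ k * y := by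
      have : a + p ^ (k + 1) * y = a + p * (p ^ k * y) := by ring
      rw [this, Nat.add_mul_div_left _ _ (by omega)]
    rw [h1, h2, ih (a / p) y (by
      rw [Nat.div_lt_iff_lt_mul (by omega)]
      rwa [pow_succ] at ha)]
    ring

theorem ds_rep {p : ℕ} (hp : 2 ≤ p) (l : ℕ) (a : ℕ) (ha : a < p ^ l) (t : ℕ) :
    (Nat.digits p (a * ∑ i ∈ range t, (p ^ l) ^ i)).sum = t * (Nat.digits p a).sum := by
  induction t with
  | zero => simp
  | succ t ih =>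
    have h1 : a * ∑ i ∈ range (t + 1), (p ^ l) ^ i = a + p ^ l * (a * ∑ i ∈ range t, (p ^ l) ^ i) := by
      rw [Finset.sum_range_succ', mul_add, add_comm]
      simp only [pow_zero, mul_one]
      congr 1
      simp_rw [pow_succ]
      rw [← Finset.sum_mul]
      ring
    rw [h1, ds_add hp l _ _ ha, ih]
    ring

/-- from degree `l` to degree `l t` -/
theorem lift_degree {p : ℕ} (hp : 2 ≤ p) (l t : ℕ) (hl : 0 < l) (ht : 0 < t) (d : ℕ) (B : ℤ)
    (h : ∃ a b : ℕ, 0 < a ∧ a < p ^ l - 1 ∧ b < p ^ l - 1 ∧ (p ^ l - 1) ∣ d * a + b ∧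
      (((Nat.digits p a).sum + (Nat.digits p b).sum : ℕ) : ℤ) ≤ B) :
    ∃ a b : ℕ, 0 < a ∧ a < p ^ (l * t) - 1 ∧ b < p ^ (l * t) - 1 ∧ (p ^ (l * t) - 1) ∣ d * a + b ∧
      (((Nat.digits p a).sum + (Nat.digits p b).sum : ℕ) : ℤ) ≤ t * B := by
  obtain ⟨a, b, ha0, ha, hb, hdvd, hsum⟩ := h
  set S := ∑ i ∈ range t, (p ^ l) ^ i with hS
  have hpl : 1 < p ^ l := Nat.one_lt_pow (by omega) (by omega)
  have hSQ : (p ^ l - 1) * S = p ^ (l * t) - 1 := by
    have h1 := Nat.geomSum_eq (m := p ^ l) (by omega) t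
    rw [← hS] at h1
    have h2 : (p ^ l - 1) ∣ (p ^ l) ^ t - 1 := Nat.sub_one_dvd_pow_sub_one _ _
    rw [h1, pow_mul]
    exact Nat.mul_div_cancel' h2
  have hS0 : 0 < S := by
    rw [hS]
    apply Finset.sum_pos (fun i _ => by positivity)
    exact ⟨0, by simpa using ht⟩
  refine ⟨a * S, b * S, Nat.mul_pos ha0 hS0, ?_, ?_, ?_, ?_⟩
  · rw [← hSQ]; exact Nat.mul_lt_mul_of_pos_right ha hS0
  · rw [← hSQ]; exact Nat.mul_lt_mul_of_pos_right hb hS0
  · rw [← hSQ, ← mul_assoc, ← add_mul]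
    exact Nat.mul_dvd_mul_right hdvd S
  · rw [ds_rep hp l a (by omega) t, ds_rep hp l b (by omega) t, ← mul_add]
    push_cast at hsum ⊢
    exact mul_le_mul_of_nonneg_left hsum (by positivity)

/-- general form of the reduction -/
theorem main_of_val (l : ℕ) [NeZero l] (hl : l.Prime) (hl2 : l ≠ 2) (c : ℤ) (hc : 2 * c ≤ l - 1)
    (hval : ∀ m : ZMod l → ℤ, 2 ≤ (univ.filter (fun i => m i ≠ 0)).card → 0 < ∑ i, m i →
      HasVal m univ c) :
    ∃ P : ℕ, ∀ p : ℕ, P ≤ p → ∀ n : ℕ, 0 < n → l ∣ n → ∀ d : ℕ, Nat.Coprime d (p ^ n - 1) →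
      (∀ k : ℕ, ¬ d ≡ p ^ k [MOD p ^ l - 1]) →
      ∃ a b : ℕ, 0 < a ∧ a < p ^ n - 1 ∧ b < p ^ n - 1 ∧ (p ^ n - 1) ∣ d * a + b ∧
        (((Nat.digits p a).sum + (Nat.digits p b).sum : ℕ) : ℤ) * l ≤ n * ((l - c) * ((p : ℤ) - 1)) := by
  obtain ⟨P0, hP0⟩ := Filter.eventually_atTop.mp (core hl hl2 c hc hval)
  refine ⟨max P0 2, fun p hp n hn hln d hd hnd => ?_⟩
  have hp2 : 2 ≤ p := le_trans (le_max_right _ _) hp
  obtain ⟨t, rfl⟩ := hln
  have ht : 0 < t := Nat.pos_of_mul_pos_left hn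
  have hdvd : (p ^ l - 1) ∣ (p ^ (l * t) - 1) := by
    rw [pow_mul]; exact Nat.sub_one_dvd_pow_sub_one _ _
  have hd' : Nat.Coprime d (p ^ l - 1) := Nat.Coprime.coprime_dvd_right hdvd hd
  have hpl : 1 < p ^ l := Nat.one_lt_pow hl.ne_zero (by omega)
  have hQz : (((p ^ l - 1 : ℕ)) : ℤ) = (p : ℤ) ^ l - 1 := by
    rw [Nat.cast_sub hpl.le]; push_cast; rfl
  have hgood := hP0 p (le_trans (le_max_left _ _) hp) (d : ℤ) (by
      rw [← hQz]
      exact (Nat.isCoprime_iff_coprime).mpr hd') (by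
      intro k hk
      apply hnd k
      rw [← hQz] at hk
      have h1 : ((d : ℕ) : ℤ) ≡ ((p ^ k : ℕ) : ℤ) [ZMOD ((p ^ l - 1 : ℕ) : ℤ)] := by
        push_cast at hk ⊢
        exact hk
      exact (Int.natCast_modEq_iff).mp h1)
  have h1 := digits_of_good hp2 d hd' c hgood
  obtain ⟨a, b, h2, h3, h4, h5, h6⟩ := lift_degree hp2 l t hl.pos ht d _ h1
  refine ⟨a, b, h2, h3, h4, h5, ?_⟩
  have h7 := mul_le_mul_of_nonneg_right h6 (show (0 : ℤ) ≤ l by positivity)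
  push_cast at h7 ⊢
  linarith

/-- the asymptotic theorem -/
theorem asymptotic (ε : ℝ) (hε : 0 < ε) : ∃ N : ℕ, ∀ l : ℕ, l.Prime → N ≤ l →
    ∃ P : ℕ, ∀ p : ℕ, P ≤ p → ∀ n : ℕ, 0 < n → l ∣ n → ∀ d : ℕ,
      Nat.Coprime d (p ^ n - 1) → (∀ k : ℕ, ¬ d ≡ p ^ k [MOD p ^ l - 1]) →
      ∃ a b : ℕ, 0 < a ∧ a < p ^ n - 1 ∧ b < p ^ n - 1 ∧ (p ^ n - 1) ∣ d * a + b ∧
        (((Nat.digits p a).sum + (Nat.digits p b).sum : ℕ) : ℝ) ≤
          (1 / 2 + ε) * n * ((p : ℝ) - 1) := by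
  obtain ⟨K0, hK0⟩ := exists_nat_ge (2 / ε)
  set K := K0 + 4 with hK
  have hK4 : 4 ≤ K := by omega
  have hKε : 2 ≤ ε * K := by
    have h1 : 2 / ε ≤ (K : ℝ) := by
      rw [hK]; push_cast; linarith
    rw [div_le_iff₀ hε] at h1
    linarith
  refine ⟨K ^ (K ^ 2) + 1, fun l hl hKl => ?_⟩
  have : NeZero l := ⟨hl.ne_zero⟩
  have hfact : Fact l.Prime := ⟨hl⟩
  have hl' : K ^ (K ^ 2) < l := hKl
  have hKl' : K < l := by
    calc K = K ^ 1 := (pow_one K).symm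
      _ ≤ K ^ (K ^ 2) := Nat.pow_le_pow_right (by omega) (by nlinarith)
      _ < l := hl'
  have hl2 : l ≠ 2 := by omega
  have hKz : (4 : ℤ) ≤ K := by exact_mod_cast hK4
  set D : ℤ := 2 * K with hD
  have hD0 : 0 < D := by rw [hD]; linarith
  set X : ℤ := ((K : ℤ) - 4) * l with hX
  set c : ℤ := (X + D - 1) / D with hc
  have hcle : ∀ v : ℤ, X ≤ D * v → c ≤ v := by
    intro v hv
    have h1 : (X + D - 1) / D < v + 1 := by
      apply Int.ediv_lt_of_lt_mul hD0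
      linarith
    rw [hc]; linarith
  have hcge : X ≤ D * c := by
    have h1 : X + D - 1 < D * c + D := by
      rw [hc]; exact Int.lt_mul_ediv_self_add hD0
    linarith
  obtain ⟨s, hs⟩ : ∃ s, l = 2 * s + 1 := by
    rcases hl.eq_two_or_odd' with h | h
    · exact absurd h hl2
    · obtain ⟨s, hs⟩ := h; exact ⟨s, hs⟩
  have hcs : c ≤ s := by
    apply hcle
    rw [hX, hD]
    have : (l : ℤ) = 2 * s + 1 := by exact_mod_cast hs
    have h2 : (K : ℤ) < l := by exact_mod_cast hKl'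
    rw [this] at h2 ⊢
    nlinarith
  have hc2 : 2 * c ≤ l - 1 := by
    have : (l : ℤ) = 2 * s + 1 := by exact_mod_cast hs
    linarith
  obtain ⟨P, hP⟩ := main_of_val l hl hl2 c hc2 (fun m hm _ => by
    obtain ⟨v, hv, hv2⟩ := hasVal_asymp l m K hK4 hl' hm
    exact hv.mono (hcle v hv2))
  refine ⟨max P 2, fun p hp n hn hln d hd hnd => ?_⟩
  obtain ⟨a, b, h2, h3, h4, h5, h6⟩ := hP p (le_trans (le_max_left _ _) hp) n hn hln d hd hnd
  refine ⟨a, b, h2, h3, h4, h5, ?_⟩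
  have hp2 : 2 ≤ p := le_trans (le_max_right _ _) hp
  have hp1 : (0 : ℝ) < (p : ℝ) - 1 := by
    have : (2 : ℝ) ≤ p := by exact_mod_cast hp2
    linarith
  have hlr : (0 : ℝ) < l := by exact_mod_cast hl.pos
  have hnr : (0 : ℝ) < n := by exact_mod_cast hn
  have h6r : ((((Nat.digits p a).sum + (Nat.digits p b).sum : ℕ) : ℝ)) * l ≤
      n * ((l - c) * ((p : ℝ) - 1)) := by
    generalize (Nat.digits p a).sum + (Nat.digits p b).sum = S at h6 ⊢
    have h7 : (((S : ℤ) * l : ℤ) : ℝ) ≤ ((n * ((l - c) * ((p : ℤ) - 1)) : ℤ) : ℝ) :=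
      Int.cast_le.mpr h6
    push_cast at h7
    exact h7
  have hcr : ((K : ℝ) - 4) * l ≤ 2 * K * c := by
    have : ((X : ℤ) : ℝ) ≤ ((D * c : ℤ) : ℝ) := by exact_mod_cast hcge
    rw [hX, hD] at this
    push_cast at this
    linarith
  have hKr : (0 : ℝ) < K := by
    have : (4 : ℝ) ≤ K := by exact_mod_cast hK4
    linarith
  have hlc : (l : ℝ) - c ≤ (1 / 2 + ε) * l := by
    have h7 : K * ((l : ℝ) - c) ≤ K * ((1 / 2 + ε) * l) := by nlinarith
    exact le_of_mul_le_mul_left h7 hKr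
  have h8 : n * ((l - c) * ((p : ℝ) - 1)) ≤ n * (((1 / 2 + ε) * l) * ((p : ℝ) - 1)) := by
    apply mul_le_mul_of_nonneg_left _ hnr.le
    exact mul_le_mul_of_nonneg_right hlc hp1.le
  have h9 : ((((Nat.digits p a).sum + (Nat.digits p b).sum : ℕ) : ℝ)) * l ≤
      ((1 / 2 + ε) * n * ((p : ℝ) - 1)) * l := by linarith
  exact le_of_mul_le_mul_right h9 hlr

end Pool.Agent.Helper18.Katz
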