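import Mathlib

/-!
Support file for MP_0aa406_nt (helper18): a game on `ZMod n`.

For `m z : ZMod n → ℤ` put `act m z l = ∑ i, m i * z (l + i)`.  We look for integer vectors `z`
with no zero coordinate, such that `act m z` has no zero coordinate and has many more negative
coordinates than `z`.
-/

set_option autoImplicit false

namespace Pool.Agent.Helper18.Katz

open Finset

variable {n : ℕ} [NeZero n]

/-- `(m ⋆ z)_l = ∑ i, m_i z_{l+i}`. -/
def act (m z : ZMod n → ℤ) (l : ZMod n) : ℤ := ∑ i, m i * z (l + i)

/-- `HasVal m U v`: there is a vector `z` with nonzero coordinates, for which `act m z` does not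
vanish on `U`, such that the number of negative coordinates of `act m z` on `U` minus the number of
negative coordinates of `z` is at least `v`. -/
def HasVal (m : ZMod n → ℤ) (U : Finset (ZMod n)) (v : ℤ) : Prop :=
  ∃ z : ZMod n → ℤ, (∀ i, z i ≠ 0) ∧ (∀ l ∈ U, act m z l ≠ 0) ∧
    v ≤ ((U.filter (fun l => act m z l < 0)).card : ℤ) -
      ((univ.filter (fun i => z i < 0)).card : ℤ)

theorem HasVal.mono {m : ZMod n → ℤ} {U : Finset (ZMod n)} {v w : ℤ} (h : HasVal m U v)
    (hw : w ≤ v) : HasVal m U w := by
  obtain ⟨z, h1, h2, h3⟩ := h
  exact ⟨z, h1, h2, hw.trans h3⟩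

theorem hasVal_empty (m : ZMod n → ℤ) : HasVal m ∅ 0 := by
  refine ⟨fun _ => 1, fun _ => one_ne_zero, by simp, ?_⟩
  simp

theorem act_add (m z w : ZMod n → ℤ) (l : ZMod n) :
    act m (fun i => z i + w i) l = act m z l + act m w l := by
  simp only [act, ← Finset.sum_add_distrib, mul_add]

theorem act_single (m : ZMod n → ℤ) (s : ZMod n) (c : ℤ) (l : ZMod n) :
    act m (fun i => if i = s then c else 0) l = c * m (s - l) := by
  unfold act
  rw [Finset.sum_eq_single (s - l)]
  · simp [mul_comm]
  · intro b _ hb
    have : ¬ (l + b = s) := fun h => hb (by rw [← h]; ring)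
    simp [this]
  · intro h; exact absurd (mem_univ _) h

/-- a big number -/
theorem exists_big (m z : ZMod n → ℤ) : ∃ K : ℤ, 0 < K ∧ (∀ l, |act m z l| < K) ∧
    ∀ i, |z i| < K := by
  refine ⟨1 + ∑ l, |act m z l| + ∑ i, |z i|, ?_, ?_, ?_⟩
  · have h1 : 0 ≤ ∑ l, |act m z l| := Finset.sum_nonneg fun _ _ => abs_nonneg _
    have h2 : 0 ≤ ∑ l, |z l| := Finset.sum_nonneg fun _ _ => abs_nonneg _
    linarith
  · intro l
    have h1 : |act m z l| ≤ ∑ l, |act m z l| :=
      Finset.single_le_sum (f := fun l => |act m z l|) (fun _ _ => abs_nonneg _) (mem_univ l)
    have h2 : 0 ≤ ∑ l, |z l| := Finset.sum_nonneg fun _ _ => abs_nonneg _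
    linarith
  · intro l
    have h1 : |z l| ≤ ∑ l, |z l| :=
      Finset.single_le_sum (f := fun l => |z l|) (fun _ _ => abs_nonneg _) (mem_univ l)
    have h2 : 0 ≤ ∑ l, |act m z l| := Finset.sum_nonneg fun _ _ => abs_nonneg _
    linarith

/-- one step of the game: put a huge coordinate at `s` -/
theorem HasVal.step {m : ZMod n → ℤ} {U : Finset (ZMod n)} {v : ℤ} (s : ZMod n)
    (h : HasVal m (U.filter (fun l => m (s - l) = 0)) v) :
    HasVal m U (v + max ((U.filter (fun l => m (s - l) < 0)).card : ℤ)
      (((U.filter (fun l => 0 < m (s - l))).card : ℤ) - 1)) := by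
  obtain ⟨z, h1, h2, h3⟩ := h
  obtain ⟨K, hK0, hK1, hK2⟩ := exists_big m z
  -- general statement for both signs
  have key : ∀ e : ℤ, (e = 1 ∨ e = -1) →
      HasVal m U (v + ((U.filter (fun l => e * m (s - l) < 0)).card : ℤ) -
        (if e = 1 then 0 else 1)) := by
    intro e he
    set z' : ZMod n → ℤ := fun i => z i + (if i = s then e * K else 0) with hz'
    have hact : ∀ l, act m z' l = act m z l + e * K * m (s - l) := by
      intro l
      rw [hz', act_add, act_single]
    have heK : |e * K| = K := by
      rcases he with rfl | rfl <;> simp [abs_of_pos hK0]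
    -- sign of act
    have hsgn : ∀ l, m (s - l) ≠ 0 → act m z' l ≠ 0 ∧ (act m z' l < 0 ↔ e * m (s - l) < 0) := by
      intro l hl
      rw [hact l]
      have hA := abs_lt.mp (hK1 l)
      rcases he with rfl | rfl
      · rcases lt_or_gt_of_ne hl with hneg | hpos
        · have : 1 * K * m (s - l) ≤ -K := by nlinarith
          constructor
          · intro h0; linarith [hA.2]
          · constructor
            · intro _; linarith
            · intro _; linarith [hA.2]
        · have : K ≤ 1 * K * m (s - l) := by nlinarith
          constructor
          · intro h0; linarith [hA.1]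
          · constructor
            · intro hh; linarith [hA.1]
            · intro hh; linarith
      · rcases lt_or_gt_of_ne hl with hneg | hpos
        · have : K ≤ (-1) * K * m (s - l) := by nlinarith
          constructor
          · intro h0; linarith [hA.1]
          · constructor
            · intro hh; linarith [hA.1]
            · intro hh; linarith
        · have : (-1) * K * m (s - l) ≤ -K := by nlinarith
          constructor
          · intro h0; linarith [hA.2]
          · constructor
            · intro _; linarith
            · intro _; linarith [hA.2]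
    have hzero : ∀ l, m (s - l) = 0 → act m z' l = act m z l := by
      intro l hl; rw [hact l, hl]; ring
    refine ⟨z', ?_, ?_, ?_⟩
    · intro i
      by_cases hi : i = s
      · have hA := abs_lt.mp (hK2 i)
        simp only [hz', hi, if_true]
        rw [hi] at hA
        rcases he with rfl | rfl
        · intro h0; linarith [hA.1]
        · intro h0; linarith [hA.2]
      · simp only [hz', hi, if_false, add_zero]; exact h1 i
    · intro l hl
      by_cases hm : m (s - l) = 0
      · rw [hzero l hm]; exact h2 l (by simp [hl, hm])
      · exact (hsgn l hm).1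
    · -- counting
      have hU : (U.filter (fun l => act m z' l < 0)).card =
          ((U.filter (fun l => m (s - l) = 0)).filter (fun l => act m z l < 0)).card +
          (U.filter (fun l => e * m (s - l) < 0)).card := by
        rw [← Finset.card_union_of_disjoint]
        · congr 1
          ext l
          simp only [mem_filter, mem_union]
          constructor
          · rintro ⟨hl, hneg⟩
            by_cases hm : m (s - l) = 0
            · left; rw [hzero l hm] at hneg; exact ⟨⟨hl, hm⟩, hneg⟩
            · right; exact ⟨hl, (hsgn l hm).2.mp hneg⟩
          · rintro (⟨⟨hl, hm⟩, hneg⟩ | ⟨hl, hneg⟩)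
            · refine ⟨hl, ?_⟩; rw [hzero l hm]; exact hneg
            · have hm : m (s - l) ≠ 0 := by
                intro h0; rw [h0] at hneg; simp at hneg
              exact ⟨hl, (hsgn l hm).2.mpr hneg⟩
        · rw [Finset.disjoint_left]
          intro l hl hl'
          simp only [mem_filter] at hl hl'
          rw [hl.1.2] at hl'
          simp at hl'
      have hz : ((univ.filter (fun i => z' i < 0)).card : ℤ) ≤
          ((univ.filter (fun i => z i < 0)).card : ℤ) + (if e = 1 then 0 else 1) := by
        rcases he with rfl | rfl
        · simp only [if_true, add_zero]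
          norm_cast
          apply Finset.card_le_card
          intro i
          simp only [mem_filter, mem_univ, true_and]
          intro hi
          by_cases his : i = s
          · have hA := abs_lt.mp (hK2 i)
            simp only [hz', his, if_true, one_mul] at hi
            rw [his] at hA
            linarith [hA.1]
          · simpa [hz', his] using hi
        · have hsub : (univ.filter (fun i => z' i < 0)) ⊆
              insert s (univ.filter (fun i => z i < 0)) := by
            intro i
            simp only [mem_filter, mem_univ, true_and, mem_insert]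
            intro hi
            by_cases his : i = s
            · left; exact his
            · right; simpa [hz', his] using hi
          have := (Finset.card_le_card hsub).trans (Finset.card_insert_le _ _)
          have h1' : ¬ ((-1 : ℤ) = 1) := by norm_num
          simp only [h1', if_false]
          exact_mod_cast this
      rw [hU]
      push_cast
      linarith
  rcases le_total (((U.filter (fun l => 0 < m (s - l))).card : ℤ) - 1)
      ((U.filter (fun l => m (s - l) < 0)).card : ℤ) with hle | hle
  · rw [max_eq_left hle]
    have := key 1 (Or.inl rfl)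
    simpa using this
  · rw [max_eq_right hle]
    have := key (-1) (Or.inr rfl)
    have h1' : ¬ ((-1 : ℤ) = 1) := by norm_num
    simp only [h1', if_false, neg_mul, one_mul, Left.neg_neg_iff] at this
    refine this.mono (by linarith)

/-- sign-free version of a step -/
theorem HasVal.step_free {m : ZMod n → ℤ} {U : Finset (ZMod n)} {v : ℤ} (s : ZMod n)
    (h : HasVal m (U.filter (fun l => m (s - l) = 0)) v) :
    HasVal m U (v + ((U.filter (fun l => m (s - l) ≠ 0)).card : ℤ) / 2) := by
  refine (h.step s).mono ?_
  have hc : (U.filter (fun l => m (s - l) ≠ 0)).card =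
      (U.filter (fun l => m (s - l) < 0)).card + (U.filter (fun l => 0 < m (s - l))).card := by
    rw [← Finset.card_union_of_disjoint]
    · congr 1
      ext l
      simp only [mem_filter, mem_union]
      constructor
      · rintro ⟨hl, hm⟩
        rcases lt_or_gt_of_ne hm with h | h
        · left; exact ⟨hl, h⟩
        · right; exact ⟨hl, h⟩
      · rintro (⟨hl, hm⟩ | ⟨hl, hm⟩)
        · exact ⟨hl, hm.ne⟩
        · exact ⟨hl, hm.ne'⟩
    · rw [Finset.disjoint_left]
      intro l hl hl'
      simp only [mem_filter] at hl hl'
      exact absurd hl.2 (not_lt.mpr hl'.2.le)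
  rw [hc]
  push_cast
  have := le_max_left ((U.filter (fun l => m (s - l) < 0)).card : ℤ)
      (((U.filter (fun l => 0 < m (s - l))).card : ℤ) - 1)
  have := le_max_right ((U.filter (fun l => m (s - l) < 0)).card : ℤ)
      (((U.filter (fun l => 0 < m (s - l))).card : ℤ) - 1)
  omega

end Pool.Agent.Helper18.Katz
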