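import Pool.Agent.Helper18.Katz9

/-!
Support file for MP_0aa406_nt (helper18): exact value of the game for small prime degrees and a
uniform bound for all prime degrees.
-/

set_option autoImplicit false

namespace Pool.Agent.Helper18.Katz

open Finset

section game

variable {n : ℕ} [NeZero n]

/-- number of uncovered columns met positively by the row `s` -/
def ps (m : ZMod n → ℤ) (U : Finset (ZMod n)) (s : ZMod n) : ℕ :=
  (U.filter (fun l => 0 < m (s - l))).card

/-- number of uncovered columns met negatively by the row `s` -/
def ng (m : ZMod n → ℤ) (U : Finset (ZMod n)) (s : ZMod n) : ℕ :=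
  (U.filter (fun l => m (s - l) < 0)).card

/-- what is left of `U` after the row `s` -/
def rs (m : ZMod n → ℤ) (U : Finset (ZMod n)) (s : ZMod n) : Finset (ZMod n) :=
  U.filter (fun l => m (s - l) = 0)

omit [NeZero n] in
theorem card_split (m : ZMod n → ℤ) (U : Finset (ZMod n)) (s : ZMod n) :
    U.card = ps m U s + ng m U s + (rs m U s).card := by
  unfold ps ng rs
  have h1 := Finset.card_filter_add_card_filter_not (s := U) (fun l => m (s - l) = 0)
  have h2 : (U.filter (fun l => ¬ m (s - l) = 0)).card =
      (U.filter (fun l => 0 < m (s - l))).card + (U.filter (fun l => m (s - l) < 0)).card := by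
    rw [← Finset.card_union_of_disjoint]
    · congr 1
      ext l
      simp only [mem_filter, mem_union]
      constructor
      · rintro ⟨hl, hm⟩
        rcases lt_or_gt_of_ne hm with h | h
        · right; exact ⟨hl, h⟩
        · left; exact ⟨hl, h⟩
      · rintro (⟨hl, hm⟩ | ⟨hl, hm⟩)
        · exact ⟨hl, hm.ne'⟩
        · exact ⟨hl, hm.ne⟩
    · rw [Finset.disjoint_left]
      intro l hl hl'
      simp only [mem_filter] at hl hl'
      exact absurd hl.2 (not_lt.mpr hl'.2.le)
  omega

/-- excess form of the value -/
def HasF (m : ZMod n → ℤ) (U : Finset (ZMod n)) (F : ℤ) : Prop :=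
  ∃ v, HasVal m U v ∧ (U.card : ℤ) + F ≤ 2 * v

theorem HasF.mono {m : ZMod n → ℤ} {U : Finset (ZMod n)} {F F' : ℤ} (h : HasF m U F)
    (h' : F' ≤ F) : HasF m U F' := by
  obtain ⟨v, h1, h2⟩ := h
  exact ⟨v, h1, by linarith⟩

theorem HasF.step {m : ZMod n → ℤ} {U : Finset (ZMod n)} {F : ℤ} (s : ZMod n)
    (h : HasF m (rs m U s) F) :
    HasF m U (F + |(ps m U s : ℤ) - ng m U s - 1| - 1) := by
  obtain ⟨v, h1, h2⟩ := h
  refine ⟨_, h1.step (U := U) s, ?_⟩
  have h3 := card_split m U s
  have h3' : (U.card : ℤ) = ps m U s + ng m U s + (rs m U s).card := by exact_mod_cast h3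
  rw [h3']
  change _ ≤ 2 * (v + max (ng m U s : ℤ) ((ps m U s : ℤ) - 1))
  rcases le_total ((ps m U s : ℤ) - 1) (ng m U s : ℤ) with hle | hle
  · rw [max_eq_left hle, abs_of_nonpos (by linarith)]
    linarith
  · rw [max_eq_right hle, abs_of_nonneg (by linarith)]
    linarith

theorem hasF_empty (m : ZMod n → ℤ) : HasF m ∅ 0 := ⟨0, hasVal_empty m, by simp⟩

/-- all rows meeting `U` have excess one -/
def Stuck (m : ZMod n → ℤ) (U : Finset (ZMod n)) : Prop :=
  ∀ s, ps m U s + ng m U s ≠ 0 → (ps m U s : ℤ) - ng m U s = 1

omit [NeZero n] in
theorem rs_card_lt {m : ZMod n → ℤ} {U : Finset (ZMod n)} {s : ZMod n}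
    (h : ps m U s + ng m U s ≠ 0) : (rs m U s).card < U.card := by
  have := card_split m U s
  omega

omit [NeZero n] in
theorem rs_subset (m : ZMod n → ℤ) (U : Finset (ZMod n)) (s : ZMod n) : rs m U s ⊆ U :=
  Finset.filter_subset _ _

/-- the induction -/
theorem main_induction (m : ZMod n → ℤ) (smin smax : ℕ)
    (hst : ∀ U : Finset (ZMod n), U.Nonempty → U ≠ univ → Stuck m U →
      (Odd U.card → smin ≤ U.card) ∧ U.card ≤ smax ∧ ∃ s, 3 ≤ ps m U s + ng m U s) :
    ∀ U : Finset (ZMod n), U ≠ univ → ∀ k : ℕ,
      (Odd U.card → min U.card smax < smin + 6 * k → HasF m U (1 - 2 * k)) ∧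
      (Even U.card → min U.card smax < smin + 3 + 6 * k → HasF m U (-(2 * k))) := by
  intro U
  induction' hU : U.card using Nat.strong_induction_on with c ih generalizing U
  intro hne k
  rcases Finset.eq_empty_or_nonempty U with rfl | hnonempty
  · rw [Finset.card_empty] at hU
    subst hU
    refine ⟨fun h => absurd h (by decide), fun _ _ => (hasF_empty m).mono (by linarith [Nat.zero_le k])⟩
  · by_cases hstuck : Stuck m U
    · obtain ⟨h1, h2, s, h3⟩ := hst U hnonempty hne hstuck
      have he := hstuck s (by omega)
      have hcs := card_split m U s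
      have hlt : (rs m U s).card < c := by rw [← hU]; exact rs_card_lt (by omega)
      have hne' : rs m U s ≠ univ := by
        intro h
        apply hne
        apply Finset.eq_univ_of_forall
        intro x
        exact rs_subset m U s (by rw [h]; exact mem_univ x)
      have hodd : Odd (ps m U s + ng m U s) := by
        refine ⟨ng m U s, ?_⟩
        omega
      rw [hU] at h1 h2 hcs
      have habs : |(ps m U s : ℤ) - ng m U s - 1| = 0 := by rw [he]; norm_num
      constructor
      · intro hc hmin
        have hmin' : c < smin + 6 * k := by rwa [min_eq_left h2] at hmin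
        have hk : 1 ≤ k := by
          by_contra hcon
          have : k = 0 := by omega
          have := h1 hc
          omega
        obtain ⟨k', rfl⟩ : ∃ k', k = k' + 1 := ⟨k - 1, by omega⟩
        have heven : Even (rs m U s).card := by
          rw [hcs] at hc
          by_contra hcon
          rw [Nat.not_even_iff_odd] at hcon
          have := hodd.add_odd hcon
          exact (Nat.not_even_iff_odd.mpr hc) this
        have h4 := (ih _ hlt _ rfl hne' k').2 heven (by
          have : min (rs m U s).card smax ≤ (rs m U s).card := min_le_left _ _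
          omega)
        have h5 := h4.step (U := U) s
        rw [habs] at h5
        refine h5.mono ?_
        push_cast
        linarith
      · intro hc hmin
        have hmin' : c < smin + 3 + 6 * k := by rwa [min_eq_left h2] at hmin
        have hoddr : Odd (rs m U s).card := by
          rw [hcs] at hc
          by_contra hcon
          rw [Nat.not_odd_iff_even] at hcon
          have := hodd.add_even hcon
          exact (Nat.not_even_iff_odd.mpr this) hc
        have h4 := (ih _ hlt _ rfl hne' k).1 hoddr (by
          have : min (rs m U s).card smax ≤ (rs m U s).card := min_le_left _ _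
          omega)
        have h5 := h4.step (U := U) s
        rw [habs] at h5
        refine h5.mono ?_
        linarith
    · unfold Stuck at hstuck
      push Not at hstuck
      obtain ⟨s, h3, he⟩ := hstuck
      have hcs := card_split m U s
      have hlt : (rs m U s).card < c := by rw [← hU]; exact rs_card_lt h3
      have hne' : rs m U s ≠ univ := by
        intro h
        apply hne
        apply Finset.eq_univ_of_forall
        intro x
        exact rs_subset m U s (by rw [h]; exact mem_univ x)
      rw [hU] at hcs
      have hminle : min (rs m U s).card smax ≤ min c smax :=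
        min_le_min_right _ hlt.le
      rcases Nat.even_or_odd (ps m U s + ng m U s) with hpar | hpar
      · -- even number of new columns
        have habs : 1 ≤ |(ps m U s : ℤ) - ng m U s - 1| := by
          apply Int.one_le_abs
          intro h0
          apply he
          linarith
        constructor
        · intro hc hmin
          have hoddr : Odd (rs m U s).card := by
            rw [hcs] at hc
            by_contra hcon
            rw [Nat.not_odd_iff_even] at hcon
            exact (Nat.not_even_iff_odd.mpr hc) (hpar.add hcon)
          have h4 := (ih _ hlt _ rfl hne' k).1 hoddr (by omega)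
          exact (h4.step (U := U) s).mono (by linarith)
        · intro hc hmin
          have hevenr : Even (rs m U s).card := by
            rw [hcs] at hc
            by_contra hcon
            rw [Nat.not_even_iff_odd] at hcon
            exact (Nat.not_even_iff_odd.mpr (hpar.add_odd hcon)) hc
          have h4 := (ih _ hlt _ rfl hne' k).2 hevenr (by omega)
          exact (h4.step (U := U) s).mono (by linarith)
      · -- odd number
        have habs : 2 ≤ |(ps m U s : ℤ) - ng m U s - 1| := by
          obtain ⟨t, ht⟩ := hpar
          have h6 : (ps m U s : ℤ) - ng m U s - 1 ≠ 0 := fun h0 => he (by linarith)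
          rcases abs_cases ((ps m U s : ℤ) - ng m U s - 1) with ⟨h, _⟩ | ⟨h, _⟩ <;> omega
        constructor
        · intro hc hmin
          have hevenr : Even (rs m U s).card := by
            rw [hcs] at hc
            by_contra hcon
            rw [Nat.not_even_iff_odd] at hcon
            exact (Nat.not_even_iff_odd.mpr hc) (hpar.add_odd hcon)
          have h4 := (ih _ hlt _ rfl hne' k).2 hevenr (by omega)
          exact (h4.step (U := U) s).mono (by linarith)
        · intro hc hmin
          have hoddr : Odd (rs m U s).card := by
            rw [hcs] at hc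
            by_contra hcon
            rw [Nat.not_odd_iff_even] at hcon
            exact (Nat.not_even_iff_odd.mpr (hpar.add_even hcon)) hc
          have h4 := (ih _ hlt _ rfl hne' (k + 1)).1 hoddr (by omega)
          refine (h4.step (U := U) s).mono ?_
          push_cast
          linarith

theorem sum_ps (m : ZMod n → ℤ) (U : Finset (ZMod n)) :
    ∑ s, ps m U s = U.card * (univ.filter (fun i => 0 < m i)).card := by
  have h1 : ∀ s, ps m U s = ∑ l ∈ U, if 0 < m (s - l) then 1 else 0 := by
    intro s; unfold ps; rw [Finset.card_filter]
  simp_rw [h1]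
  rw [Finset.sum_comm]
  have h2 : ∀ l ∈ U, (∑ s, if 0 < m (s - l) then 1 else 0) =
      (univ.filter (fun i => 0 < m i)).card := by
    intro l _
    rw [Finset.card_filter]
    exact Fintype.sum_equiv (Equiv.subRight l) _ _ (fun s => by simp)
  rw [Finset.sum_congr rfl h2, Finset.sum_const, smul_eq_mul]

theorem sum_ng (m : ZMod n → ℤ) (U : Finset (ZMod n)) :
    ∑ s, ng m U s = U.card * (univ.filter (fun i => m i < 0)).card := by
  have h1 : ∀ s, ng m U s = ∑ l ∈ U, if m (s - l) < 0 then 1 else 0 := by
    intro s; unfold ng; rw [Finset.card_filter]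
  simp_rw [h1]
  rw [Finset.sum_comm]
  have h2 : ∀ l ∈ U, (∑ s, if m (s - l) < 0 then 1 else 0) =
      (univ.filter (fun i => m i < 0)).card := by
    intro l _
    rw [Finset.card_filter]
    exact Fintype.sum_equiv (Equiv.subRight l) _ _ (fun s => by simp)
  rw [Finset.sum_congr rfl h2, Finset.sum_const, smul_eq_mul]

theorem ps_univ (m : ZMod n → ℤ) (s : ZMod n) :
    ps m univ s = (univ.filter (fun i => 0 < m i)).card := by
  unfold ps
  rw [Finset.card_filter, Finset.card_filter]
  exact Fintype.sum_equiv (Equiv.subLeft s) _ _ (fun x => by simp)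

theorem ng_univ (m : ZMod n → ℤ) (s : ZMod n) :
    ng m univ s = (univ.filter (fun i => m i < 0)).card := by
  unfold ng
  rw [Finset.card_filter, Finset.card_filter]
  exact Fintype.sum_equiv (Equiv.subLeft s) _ _ (fun x => by simp)

theorem supp_card (m : ZMod n → ℤ) : (univ.filter (fun i => m i ≠ 0)).card =
    (univ.filter (fun i => 0 < m i)).card + (univ.filter (fun i => m i < 0)).card := by
  rw [← Finset.card_union_of_disjoint]
  · congr 1
    ext l
    simp only [mem_filter, mem_union, mem_univ, true_and]
    constructor
    · intro hm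
      rcases lt_or_gt_of_ne hm with h | h
      · right; exact h
      · left; exact h
    · rintro (hm | hm)
      · exact hm.ne'
      · exact hm.ne
  · rw [Finset.disjoint_left]
    intro l hl hl'
    simp only [mem_filter] at hl hl'
    exact absurd hl.2 (not_lt.mpr hl'.2.le)

open scoped Pointwise in
/-- size of the set of rows meeting a stuck set -/
theorem stuck_card {m : ZMod n → ℤ} {U : Finset (ZMod n)} (hst : Stuck m U) :
    ((U + univ.filter (fun i => m i ≠ 0)).card : ℤ) =
      U.card * (((univ.filter (fun i => 0 < m i)).card : ℤ) -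
        (univ.filter (fun i => m i < 0)).card) := by
  have h1 : U + univ.filter (fun i => m i ≠ 0) =
      univ.filter (fun s => ps m U s + ng m U s ≠ 0) := by
    ext s
    simp only [Finset.mem_add, mem_filter, mem_univ, true_and]
    constructor
    · rintro ⟨l, hl, t, ht, rfl⟩
      intro h0
      have h2 : ps m U (l + t) = 0 := by omega
      have h3 : ng m U (l + t) = 0 := by omega
      unfold ps at h2
      unfold ng at h3
      rw [Finset.card_eq_zero, Finset.filter_eq_empty_iff] at h2 h3
      have h4 := h2 hl
      have h5 := h3 hl
      rw [add_sub_cancel_left] at h4 h5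
      exact ht (le_antisymm (not_lt.mp h4) (not_lt.mp h5))
    · intro h0
      have h2 : 0 < ps m U s ∨ 0 < ng m U s := by omega
      rcases h2 with h2 | h2
      · obtain ⟨l, hl⟩ := Finset.card_pos.mp h2
        simp only [mem_filter] at hl
        exact ⟨l, hl.1, s - l, hl.2.ne', by ring⟩
      · obtain ⟨l, hl⟩ := Finset.card_pos.mp h2
        simp only [mem_filter] at hl
        exact ⟨l, hl.1, s - l, hl.2.ne, by ring⟩
  have h2 : ∀ s, (ps m U s : ℤ) - ng m U s = if ps m U s + ng m U s ≠ 0 then 1 else 0 := by
    intro s
    split_ifs with h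
    · exact hst s h
    · have h3 : ps m U s = 0 := by omega
      have h4 : ng m U s = 0 := by omega
      rw [h3, h4]; simp
  rw [h1, Finset.card_filter]
  push_cast
  rw [← Finset.sum_congr rfl (fun s _ => h2 s), Finset.sum_sub_distrib]
  have h3 : (∑ s, (ps m U s : ℤ)) = U.card * (univ.filter (fun i => 0 < m i)).card := by
    exact_mod_cast sum_ps m U
  have h4 : (∑ s, (ng m U s : ℤ)) = U.card * (univ.filter (fun i => m i < 0)).card := by
    exact_mod_cast sum_ng m U
  rw [h3, h4]
  ring

omit [NeZero n] in
/-- rows with three new columns -/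
theorem stuck_three {m : ZMod n → ℤ} {U : Finset (ZMod n)} (hst : Stuck m U) (hU : U.Nonempty)
    (hneg : ∃ i, m i < 0) : ∃ s, 3 ≤ ps m U s + ng m U s := by
  obtain ⟨l, hl⟩ := hU
  obtain ⟨t, ht⟩ := hneg
  refine ⟨l + t, ?_⟩
  have h1 : 0 < ng m U (l + t) := by
    unfold ng
    apply Finset.card_pos.mpr
    refine ⟨l, ?_⟩
    simp only [mem_filter, add_sub_cancel_left]
    exact ⟨hl, ht⟩
  have := hst (l + t) (by omega)
  omega

open scoped Pointwise in
/-- sizes of stuck sets -/
theorem stuck_bounds (hn : n.Prime) {m : ZMod n → ℤ} {U : Finset (ZMod n)} (hst : Stuck m U)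
    (hU : U.Nonempty) (hUne : U ≠ univ) (hneg : ∃ i, m i < 0)
    (hτ : 2 ≤ (univ.filter (fun i => m i ≠ 0)).card) (e : ℤ)
    (he : e = ((univ.filter (fun i => 0 < m i)).card : ℤ) - (univ.filter (fun i => m i < 0)).card) :
    2 ≤ e ∧ e * U.card < n ∧ U.card + (univ.filter (fun i => m i ≠ 0)).card ≤ e * U.card + 1 := by
  have hVcard := stuck_card hst
  rw [← he] at hVcard
  have hUlt : U.card < n := by
    have h1 : U.card < (univ : Finset (ZMod n)).card :=
      Finset.card_lt_card ((Finset.ssubset_univ_iff).mpr hUne)
    rwa [Finset.card_univ, ZMod.card] at h1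
  have hUpos := Finset.card_pos.mpr hU
  have hTne : (univ.filter (fun i => m i ≠ 0)).Nonempty := Finset.card_pos.mp (by omega)
  have hcd := ZMod.cauchy_davenport hn hU hTne
  have hVle : (U + univ.filter (fun i => m i ≠ 0)).card ≤ n := by
    have := Finset.card_le_univ (U + univ.filter (fun i => m i ≠ 0))
    rwa [ZMod.card] at this
  set V := (U + univ.filter (fun i => m i ≠ 0)) with hV
  set τ := (univ.filter (fun i => m i ≠ 0)).card with hτdef
  have hsupp := supp_card m
  rw [← hτdef] at hsupp
  have hnegpos : 0 < (univ.filter (fun i => m i < 0)).card := by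
    apply Finset.card_pos.mpr
    obtain ⟨i, hi⟩ := hneg
    exact ⟨i, by simpa using hi⟩
  have hVgt : U.card < V.card := by
    rcases min_le_iff.mp hcd with h | h
    · omega
    · omega
  have he2 : 2 ≤ e := by
    by_contra hcon
    have he1 : e ≤ 1 := by omega
    have h1 : (V.card : ℤ) ≤ U.card := by
      rw [hVcard]
      have : (0 : ℤ) ≤ U.card := by positivity
      nlinarith
    have h2 : (U.card : ℤ) < V.card := by exact_mod_cast hVgt
    linarith
  have hτn : τ ≤ n := by
    have := Finset.card_le_univ (univ.filter (fun i => m i ≠ 0))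
    rwa [ZMod.card] at this
  have hVn : V.card ≠ n := by
    intro h
    rw [h] at hVcard
    have hen : e.toNat * U.card = n := by
      have h1 : (e.toNat : ℤ) = e := Int.toNat_of_nonneg (by linarith)
      have h2 : ((e.toNat * U.card : ℕ) : ℤ) = n := by
        push_cast
        rw [h1, hVcard]
        ring
      exact_mod_cast h2
    have hdvd : e.toNat ∣ n := ⟨U.card, hen.symm⟩
    rcases (Nat.dvd_prime hn).mp hdvd with h1 | h1
    · have : e.toNat = 1 := h1
      omega
    · have : (e.toNat : ℤ) = e := Int.toNat_of_nonneg (by linarith)
      omega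
  have hVlt : V.card < n := lt_of_le_of_ne hVle hVn
  refine ⟨he2, ?_, ?_⟩
  · rw [mul_comm, ← hVcard]; exact_mod_cast hVlt
  · rw [mul_comm e, ← hVcard]
    rcases min_le_iff.mp hcd with h | h
    · omega
    · have : U.card + τ ≤ V.card + 1 := by omega
      exact_mod_cast this

/-- there is no stuck set with three elements when the excess is two -/
theorem stuck_ne_three (hn : n.Prime) (hn5 : 5 ≤ n) {m : ZMod n → ℤ} {U : Finset (ZMod n)}
    (hst : Stuck m U) (hU : U.Nonempty) (hUne : U ≠ univ) (hneg : ∃ i, m i < 0)
    (hτ : 2 ≤ (univ.filter (fun i => m i ≠ 0)).card)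
    (he : ((univ.filter (fun i => 0 < m i)).card : ℤ) - (univ.filter (fun i => m i < 0)).card = 2) :
    U.card ≠ 3 := by
  intro h3
  have hfact : Fact n.Prime := ⟨hn⟩
  obtain ⟨_, _, hb⟩ := stuck_bounds hn hst hU hUne hneg hτ 2 he.symm
  have hsupp := supp_card m
  set a := (univ.filter (fun i => 0 < m i)).card with ha
  set b := (univ.filter (fun i => m i < 0)).card with hbdef
  have hbpos : 0 < b := by
    apply Finset.card_pos.mpr
    obtain ⟨i, hi⟩ := hneg
    exact ⟨i, by simpa using hi⟩
  rw [h3] at hb
  have hb1 : b = 1 := by omega
  have ha3 : a = 3 := by omega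
  obtain ⟨t, ht⟩ := hneg
  have huniq : ∀ i, m i < 0 → i = t := by
    intro i hi
    by_contra hne
    have h1 : ({i, t} : Finset (ZMod n)) ⊆ univ.filter (fun i => m i < 0) := by
      intro x hx
      simp only [mem_insert, mem_singleton] at hx
      rcases hx with rfl | rfl
      · simpa using hi
      · simpa using ht
    have h2 := Finset.card_le_card h1
    rw [Finset.card_insert_of_notMem (by simpa using hne), Finset.card_singleton] at h2
    omega
  -- all differences of `U`, shifted by `t`, are positive
  have hdiff : ∀ l ∈ U, ∀ l' ∈ U, l ≠ l' → 0 < m (l - l' + t) := by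
    intro l hl l' hl' hne
    have hng : ng m U (l + t) = 1 := by
      unfold ng
      have : U.filter (fun x => m (l + t - x) < 0) = {l} := by
        ext x
        simp only [mem_filter, mem_singleton]
        constructor
        · rintro ⟨_, h⟩
          have := huniq _ h
          have h4 : l + t - x = t := this
          have : l - x = 0 := by linear_combination h4
          exact (sub_eq_zero.mp this).symm
        · rintro rfl
          exact ⟨hl, by simpa using ht⟩
      rw [this, Finset.card_singleton]
    have hps : ps m U (l + t) = 2 := by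
      have := hst (l + t) (by omega)
      omega
    by_contra hcon
    have hsub : U.filter (fun x => 0 < m (l + t - x)) ⊆ (U.erase l).erase l' := by
      intro x hx
      simp only [mem_filter] at hx
      rw [mem_erase, mem_erase]
      refine ⟨?_, ?_, hx.1⟩
      · rintro rfl
        apply hcon
        have : l - x + t = l + t - x := by ring
        rw [this]; exact hx.2
      · rintro rfl
        have h5 := hx.2
        rw [add_sub_cancel_left] at h5
        linarith
    have h6 := Finset.card_le_card hsub
    rw [Finset.card_erase_of_mem (by rw [mem_erase]; exact ⟨hne.symm, hl'⟩),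
      Finset.card_erase_of_mem hl, h3] at h6
    unfold ps at hps
    omega
  obtain ⟨x, y, z, hxy, hxz, hyz, hUeq⟩ := Finset.card_eq_three.mp h3
  have h2ne : (2 : ZMod n) ≠ 0 := by
    intro h0
    have : ((2 : ℕ) : ZMod n) = 0 := by exact_mod_cast h0
    rw [ZMod.natCast_eq_zero_iff] at this
    have := Nat.le_of_dvd (by norm_num) this
    omega
  have h3ne : (3 : ZMod n) ≠ 0 := by
    intro h0
    have : ((3 : ℕ) : ZMod n) = 0 := by exact_mod_cast h0
    rw [ZMod.natCast_eq_zero_iff] at this
    have := Nat.le_of_dvd (by norm_num) this
    omega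
  have key : ∀ x y z : ZMod n, x ∈ U → y ∈ U → z ∈ U → x ≠ y → x ≠ z → y ≠ z →
      y + z ≠ 2 * x → False := by
    intro x y z hx hy hz hxy hxz hyz hmid
    have hsub : ({x - y + t, y - x + t, x - z + t, z - x + t} : Finset (ZMod n)) ⊆
        univ.filter (fun i => 0 < m i) := by
      intro w hw
      simp only [mem_insert, mem_singleton] at hw
      simp only [mem_filter, mem_univ, true_and]
      rcases hw with rfl | rfl | rfl | rfl
      · exact hdiff x hx y hy hxy
      · exact hdiff y hy x hx hxy.symm
      · exact hdiff x hx z hz hxz
      · exact hdiff z hz x hx hxz.symm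
    have hc := Finset.card_le_card hsub
    have c1 : x - y + t ≠ y - x + t := by
      intro h
      have : 2 * (x - y) = 0 := by linear_combination h
      rcases mul_eq_zero.mp this with h' | h'
      · exact h2ne h'
      · exact hxy (sub_eq_zero.mp h')
    have c2 : x - y + t ≠ x - z + t := by
      intro h
      exact hyz (by linear_combination -h)
    have c3 : x - y + t ≠ z - x + t := by
      intro h
      exact hmid (by linear_combination -h)
    have c4 : y - x + t ≠ x - z + t := by
      intro h
      exact hmid (by linear_combination h)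
    have c5 : y - x + t ≠ z - x + t := by
      intro h
      exact hyz (by linear_combination h)
    have c6 : x - z + t ≠ z - x + t := by
      intro h
      have : 2 * (x - z) = 0 := by linear_combination h
      rcases mul_eq_zero.mp this with h' | h'
      · exact h2ne h'
      · exact hxz (sub_eq_zero.mp h')
    rw [Finset.card_insert_of_notMem (by simp [c1, c2, c3]),
      Finset.card_insert_of_notMem (by simp [c4, c5]),
      Finset.card_insert_of_notMem (by simp [c6]), Finset.card_singleton] at hc
    omega
  have hx : x ∈ U := by rw [hUeq]; simp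
  have hy : y ∈ U := by rw [hUeq]; simp
  have hz : z ∈ U := by rw [hUeq]; simp
  by_cases h1 : y + z = 2 * x
  · by_cases h2 : x + z = 2 * y
    · have : 3 * (x - y) = 0 := by linear_combination h2 - h1
      rcases mul_eq_zero.mp this with h' | h'
      · exact h3ne h'
      · exact hxy (sub_eq_zero.mp h')
    · exact key y x z hy hx hz hxy.symm hyz hxz h2
  · exact key x y z hx hy hz hxy hxz hyz h1

/-- a list of rows covering everything, when there are no negative entries -/
theorem hasVal_cover (m : ZMod n → ℤ) (hpos : ∀ i, 0 ≤ m i) (L : List (ZMod n)) :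
    ∀ U : Finset (ZMod n), (∀ l ∈ U, ∃ s ∈ L, m (s - l) ≠ 0) →
      HasVal m U ((U.card : ℤ) - L.length) := by
  induction L with
  | nil =>
    intro U hU
    have : U = ∅ := by
      rw [Finset.eq_empty_iff_forall_notMem]
      intro l hl
      obtain ⟨s, hs, _⟩ := hU l hl
      simp at hs
    subst this
    simpa using hasVal_empty m
  | cons s L ih =>
    intro U hU
    have h1 := ih (rs m U s) (by
      intro l hl
      unfold rs at hl
      rw [mem_filter] at hl
      obtain ⟨s', hs', hm⟩ := hU l hl.1
      rcases List.mem_cons.mp hs' with rfl | h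
      · exact absurd hl.2 hm
      · exact ⟨s', h, hm⟩)
    refine (h1.step (U := U) s).mono ?_
    have h2 := card_split m U s
    have h3 : ng m U s = 0 := by
      unfold ng
      rw [Finset.card_eq_zero, Finset.filter_eq_empty_iff]
      intro l _
      exact not_lt.mpr (hpos _)
    have h4 := le_max_right ((U.filter (fun l => m (s - l) < 0)).card : ℤ)
      (((U.filter (fun l => 0 < m (s - l))).card : ℤ) - 1)
    change (ps m U s : ℤ) - 1 ≤ _ at h4
    have h5 : (U.card : ℤ) = ps m U s + ng m U s + (rs m U s).card := by exact_mod_cast h2
    rw [h3] at h5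
    simp only [List.length_cons]
    push_cast at h5 ⊢
    linarith

/-- nonnegative patterns -/
theorem hasVal_nonneg (hn : n.Prime) (k : ℕ) (hk : n = 2 * k + 1) (m : ZMod n → ℤ)
    (hpos : ∀ i, 0 ≤ m i) (hτ : 2 ≤ (univ.filter (fun i => m i ≠ 0)).card) :
    HasVal m univ k := by
  have hfact : Fact n.Prime := ⟨hn⟩
  obtain ⟨x, hx, y, hy, hxy⟩ := Finset.one_lt_card.mp
    (show 1 < (univ.filter (fun i => m i ≠ 0)).card by omega)
  simp only [mem_filter, mem_univ, true_and] at hx hy
  set d := x - y with hd
  have hd0 : d ≠ 0 := sub_ne_zero.mpr hxy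
  -- rows `s_j = 2 j d`, `j = 0, …, k`
  have h1 := hasVal_cover m hpos ((List.range (k + 1)).map (fun j : ℕ => (2 * (j : ZMod n)) * d))
    univ (by
      intro l _
      -- l = s - x or l = s - y
      set q := ((l + y) / d).val with hq
      have hqn : q < n := ZMod.val_lt _
      have hql : (q : ZMod n) * d = l + y := by
        rw [hq, ZMod.natCast_zmod_val, div_mul_cancel₀ _ hd0]
      rcases Nat.even_or_odd' q with ⟨j, hj | hj⟩
      · refine ⟨2 * (j : ZMod n) * d, ?_, ?_⟩
        · rw [List.mem_map]
          exact ⟨j, List.mem_range.mpr (by omega), rfl⟩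
        · have : 2 * (j : ZMod n) * d - l = y := by
            have h2 : ((2 * j : ℕ) : ZMod n) * d = l + y := by rw [← hj]; exact hql
            push_cast at h2
            linear_combination h2
          rw [this]; exact hy
      · refine ⟨2 * ((j + 1 : ℕ) : ZMod n) * d, ?_, ?_⟩
        · rw [List.mem_map]
          exact ⟨j + 1, List.mem_range.mpr (by omega), rfl⟩
        · have : 2 * ((j + 1 : ℕ) : ZMod n) * d - l = x := by
            have h2 : ((2 * j + 1 : ℕ) : ZMod n) * d = l + y := by rw [← hj]; exact hql
            push_cast at h2 ⊢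
            linear_combination h2 + hd
          rw [this]; exact hx)
  rw [List.length_map, List.length_range, Finset.card_univ, ZMod.card] at h1
  refine h1.mono ?_
  have : (n : ℤ) = 2 * k + 1 := by exact_mod_cast hk
  rw [this]
  push_cast
  linarith

/-- the value of the full game -/
theorem hasVal_main (hn : n.Prime) (hn5 : 5 ≤ n) (k : ℕ) (hk : n = 2 * k + 1) (m : ZMod n → ℤ)
    (hτ : 2 ≤ (univ.filter (fun i => m i ≠ 0)).card) :
    HasVal m univ ((k : ℤ) - ((n - 11) / 12 : ℕ)) := by
  by_cases hpos : ∀ i, 0 ≤ m i
  · exact (hasVal_nonneg hn k hk m hpos hτ).mono (by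
      have : (0 : ℤ) ≤ (((n - 11) / 12 : ℕ) : ℤ) := by positivity
      linarith)
  · push Not at hpos
    set κ := (n - 11) / 12 with hκ
    have hκ1 : n ≤ 12 * κ + 22 := by omega
    set a := (univ.filter (fun i => 0 < m i)).card with ha
    set b := (univ.filter (fun i => m i < 0)).card with hb
    have hsupp : (univ.filter (fun i => m i ≠ 0)).card = a + b := supp_card m
    have hbpos : 0 < b := by
      apply Finset.card_pos.mpr
      obtain ⟨i, hi⟩ := hpos
      exact ⟨i, by simpa using hi⟩
    -- first row
    set U1 := rs m univ (0 : ZMod n) with hU1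
    have hcs := card_split m univ (0 : ZMod n)
    rw [ps_univ, ng_univ, Finset.card_univ, ZMod.card, ← ha, ← hb, ← hU1] at hcs
    have hU1ne : U1 ≠ univ := by
      intro h
      rw [h, Finset.card_univ, ZMod.card] at hcs
      omega
    have hfinal : HasF m U1 (-1 - 2 * κ - (|(a : ℤ) - b - 1| - 1)) → HasVal m univ ((k : ℤ) - κ) := by
      intro h
      have h1 := h.step (U := univ) (0 : ZMod n)
      rw [ps_univ, ng_univ, ← ha, ← hb] at h1
      obtain ⟨v, hv, hv2⟩ := h1
      rw [Finset.card_univ, ZMod.card] at hv2
      refine hv.mono ?_
      have : (n : ℤ) = 2 * k + 1 := by exact_mod_cast hk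
      rw [this] at hv2
      linarith
    apply hfinal
    by_cases he : (a : ℤ) - b ≤ 1
    · -- no stuck sets
      have hind := main_induction m 1 0 (by
        intro U hU hUne hst
        exfalso
        have := (stuck_bounds hn hst hU hUne hpos hτ _ rfl).1
        linarith) U1 hU1ne 0
      rcases Nat.even_or_odd U1.card with hpar | hpar
      · refine (hind.2 hpar (by simp)).mono ?_
        have : -1 ≤ |(a : ℤ) - b - 1| - 1 := by
          have := abs_nonneg ((a : ℤ) - b - 1)
          linarith
        have : (0 : ℤ) ≤ κ := by positivity
        push_cast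
        linarith
      · refine (hind.1 hpar (by simp)).mono ?_
        have : -1 ≤ |(a : ℤ) - b - 1| - 1 := by
          have := abs_nonneg ((a : ℤ) - b - 1)
          linarith
        have : (0 : ℤ) ≤ κ := by positivity
        push_cast
        linarith
    · push Not at he
      obtain ⟨e, heab⟩ : ∃ e : ℕ, a = b + e := ⟨a - b, by omega⟩
      have he2 : 2 ≤ e := by omega
      have hez : (a : ℤ) - b = e := by rw [heab]; push_cast; ring
      set smin : ℕ := if e = 2 then 5 else 3 with hsmin
      have hind := main_induction m smin ((n - 1) / e) (by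
        intro U hU hUne hst
        obtain ⟨h1, h2, h3⟩ := stuck_bounds hn hst hU hUne hpos hτ _ hez.symm
        have h3' := stuck_three hst hU hpos
        refine ⟨?_, ?_, h3'⟩
        · intro hodd
          have hge3 : 3 ≤ U.card := by
            obtain ⟨s, hs⟩ := h3'
            have := card_split m U s
            omega
          rw [hsmin]
          split_ifs with he'
          · have hne3 := stuck_ne_three hn hn5 hst hU hUne hpos hτ (by rw [← ha, ← hb, hez, he']; rfl)
            obtain ⟨r, hr⟩ := hodd
            omega
          · exact hge3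
        · rw [Nat.le_div_iff_mul_le (by omega)]
          have h4 : e * U.card < n := by exact_mod_cast h2
          rw [mul_comm]
          omega) U1 hU1ne (e / 2 + κ)
      have hsmax : (n - 1) / e < smin + 3 * e + 6 * κ := by
        rw [hsmin]
        split_ifs with he'
        · subst he'
          omega
        · have h3 : (n - 1) / e ≤ (n - 1) / 3 := Nat.div_le_div_left (by omega) (by norm_num)
          omega
      have hminle : min U1.card ((n - 1) / e) ≤ (n - 1) / e := min_le_right _ _
      have habs : |(a : ℤ) - b - 1| = e - 1 := by
        rw [hez, abs_of_nonneg (by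
          have : (2 : ℤ) ≤ e := by exact_mod_cast he2
          linarith)]
      rw [habs]
      rcases Nat.even_or_odd' e with ⟨q, hq | hq⟩
      · -- e even, U1 odd
        have hoddU : Odd U1.card := by
          refine ⟨k - b - q, ?_⟩
          omega
        have he2' : e / 2 = q := by omega
        have := hind.1 hoddU (by omega)
        refine this.mono ?_
        rw [he2', hq]
        push_cast
        linarith
      · have hevU : Even U1.card := by
          refine ⟨k - b - q, ?_⟩
          omega
        have he2' : e / 2 = q := by omega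
        have := hind.2 hevU (by omega)
        refine this.mono ?_
        rw [he2', hq]
        push_cast
        linarith

end game

end Pool.Agent.Helper18.Katz
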