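import Pool.Agent.Helper18.Katz1

/-!
Support file for MP_0aa406_nt (helper18): lower bounds for the game value, asymptotic version.
-/

set_option autoImplicit false

namespace Pool.Agent.Helper18.Katz

open Finset

variable {n : ℕ} [NeZero n]

/-- total incidences -/
theorem sum_card_cover (m : ZMod n → ℤ) (U : Finset (ZMod n)) :
    ∑ s, (U.filter (fun l => m (s - l) ≠ 0)).card =
      U.card * (univ.filter (fun i => m i ≠ 0)).card := by
  have h1 : ∀ s, (U.filter (fun l => m (s - l) ≠ 0)).card =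
      ∑ l ∈ U, if m (s - l) ≠ 0 then 1 else 0 := by
    intro s; rw [Finset.card_filter]
  simp_rw [h1]
  rw [Finset.sum_comm]
  have h2 : ∀ l ∈ U, (∑ s, if m (s - l) ≠ 0 then 1 else 0) =
      (univ.filter (fun i => m i ≠ 0)).card := by
    intro l _
    rw [Finset.card_filter]
    exact Fintype.sum_equiv (Equiv.subRight l) _ _ (fun s => by simp)
  rw [Finset.sum_congr rfl h2, Finset.sum_const, smul_eq_mul]

omit [NeZero n] in
theorem filter_zero_card_lt {m : ZMod n → ℤ} {U : Finset (ZMod n)} {s l : ZMod n} (hl : l ∈ U)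
    (hm : m (s - l) ≠ 0) : (U.filter (fun l' => m (s - l') = 0)).card < U.card := by
  apply Finset.card_lt_card
  refine ⟨Finset.filter_subset _ _, fun hsub => ?_⟩
  have := hsub hl
  simp only [mem_filter] at this
  exact hm this.2

/-- the value is never negative -/
theorem hasVal_zero (m : ZMod n → ℤ) (hm : ∃ i, m i ≠ 0) (U : Finset (ZMod n)) :
    HasVal m U 0 := by
  induction' hU : U.card using Nat.strong_induction_on with c ih generalizing U
  rcases Finset.eq_empty_or_nonempty U with rfl | ⟨l, hl⟩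
  · exact hasVal_empty m
  · obtain ⟨i, hi⟩ := hm
    have hmi : m ((l + i) - l) ≠ 0 := by simpa using hi
    have hlt := filter_zero_card_lt (m := m) hl hmi
    have h0 := ih _ (by rw [← hU]; exact hlt) _ rfl
    exact (h0.step_free (U := U) (l + i)).mono (by positivity)

/-- large supports -/
theorem hasVal_large (m : ZMod n → ℤ) (K : ℕ) (hK : 1 ≤ K) (hm : ∃ i, m i ≠ 0)
    (U : Finset (ZMod n)) : ∃ v : ℤ, HasVal m U v ∧
      ((K : ℤ) - 1) * (((univ.filter (fun i => m i ≠ 0)).card : ℤ) * U.card - K * n) ≤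
        2 * K * ((univ.filter (fun i => m i ≠ 0)).card : ℤ) * v := by
  set σ := (univ.filter (fun i => m i ≠ 0)).card with hσ
  have hK1 : (1 : ℤ) ≤ K := by exact_mod_cast hK
  induction' hU : U.card using Nat.strong_induction_on with c ih generalizing U
  by_cases hbig : ∃ s, K ≤ (U.filter (fun l => m (s - l) ≠ 0)).card
  · obtain ⟨s, hs⟩ := hbig
    set b := (U.filter (fun l => m (s - l) ≠ 0)).card with hb
    have hcc : (U.filter (fun l => m (s - l) = 0)).card + b = c := by
      rw [← hU]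
      exact Finset.card_filter_add_card_filter_not (s := U) (fun l' => m (s - l') = 0)
    obtain ⟨v, hv, hv2⟩ := ih (U.filter (fun l => m (s - l) = 0)).card (by omega) _ rfl
    refine ⟨_, hv.step_free (U := U) s, ?_⟩
    rw [← hb]
    have hb2 : (b : ℤ) - 1 ≤ 2 * ((b : ℤ) / 2) := by omega
    have hcc' : (c : ℤ) = (U.filter (fun l => m (s - l) = 0)).card + b := by
      exact_mod_cast hcc.symm
    have hbK : (K : ℤ) ≤ b := by exact_mod_cast hs
    have hkey : ((K : ℤ) - 1) * b ≤ 2 * K * ((b : ℤ) / 2) := by nlinarith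
    have hσ0 : (0 : ℤ) ≤ σ := by positivity
    have hkey2 := mul_le_mul_of_nonneg_left hkey hσ0
    rw [hcc']
    nlinarith
  · push Not at hbig
    refine ⟨0, hasVal_zero m hm U, ?_⟩
    have h1 := sum_card_cover m U
    have h2 : ∑ s, (U.filter (fun l => m (s - l) ≠ 0)).card ≤ ∑ _s : ZMod n, K :=
      Finset.sum_le_sum (fun s _ => (hbig s).le)
    rw [h1, ← hσ, Finset.sum_const, Finset.card_univ, ZMod.card, smul_eq_mul, hU] at h2
    have h3 : (c : ℤ) * σ ≤ n * K := by exact_mod_cast h2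
    nlinarith

/-- a sequence of rows each of which covers two new columns -/
theorem hasVal_of_seq (m : ZMod n → ℤ) (hm : ∃ i, m i ≠ 0) (J : ℕ) (s : ℕ → ZMod n)
    (hs : ∀ j < J, ∃ l l', l ≠ l' ∧ m (s j - l) ≠ 0 ∧ m (s j - l') ≠ 0 ∧
      ∀ i < j, m (s i - l) = 0 ∧ m (s i - l') = 0) : HasVal m univ J := by
  have key : ∀ k j, j + k = J →
      HasVal m (univ.filter (fun l => ∀ i < j, m (s i - l) = 0)) k := by
    intro k
    induction' k with k ih
    · intro j _
      simpa using hasVal_zero m hm _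
    · intro j hj
      have h1 := ih (j + 1) (by omega)
      obtain ⟨l, l', hne, hl, hl', hi⟩ := hs j (by omega)
      set U := (univ.filter (fun l => ∀ i < j, m (s i - l) = 0)) with hU
      have hU' : (univ.filter (fun l => ∀ i < j + 1, m (s i - l) = 0)) =
          U.filter (fun l => m (s j - l) = 0) := by
        ext x
        simp only [hU, mem_filter, mem_univ, true_and]
        constructor
        · intro h
          exact ⟨fun i hi => h i (by omega), h j (by omega)⟩
        · rintro ⟨h, h'⟩ i hi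
          rcases Nat.lt_succ_iff_lt_or_eq.mp hi with h2 | rfl
          · exact h i h2
          · exact h'
      rw [hU'] at h1
      refine (h1.step_free (U := U) (s j)).mono ?_
      have h2 : 2 ≤ (U.filter (fun l => m (s j - l) ≠ 0)).card := by
        have : ({l, l'} : Finset (ZMod n)) ⊆ U.filter (fun l => m (s j - l) ≠ 0) := by
          intro x hx
          simp only [mem_insert, mem_singleton] at hx
          rcases hx with rfl | rfl
          · simp only [hU, mem_filter, mem_univ, true_and]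
            exact ⟨fun i h => (hi i h).1, hl⟩
          · simp only [hU, mem_filter, mem_univ, true_and]
            exact ⟨fun i h => (hi i h).2, hl'⟩
        calc 2 = ({l, l'} : Finset (ZMod n)).card := by
              rw [Finset.card_insert_of_notMem (by simpa using hne), Finset.card_singleton]
          _ ≤ _ := Finset.card_le_card this
      push_cast
      omega
  simpa using key J 0 (by omega)

/-- simultaneous approximation -/
theorem exists_approx (n : ℕ) [Fact n.Prime] (S : Finset (ZMod n)) (k : ℕ)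
    (hk : k ^ S.card < n) (s0 : ZMod n) :
    ∃ (h : ZMod n) (a : ZMod n → ℤ), h ≠ 0 ∧ a s0 = 0 ∧
      ∀ x ∈ S, (a x : ZMod n) = h * (x - s0) ∧ |a x| * k < n := by
  have : NeZero n := ⟨(Fact.out : n.Prime).ne_zero⟩
  have hn0 : 0 < n := Nat.pos_of_ne_zero (NeZero.ne n)
  -- k = 0 case is trivial
  rcases Nat.eq_zero_or_pos k with rfl | hk0
  · refine ⟨1, fun x => ((x - s0).val : ℤ), one_ne_zero, by simp, ?_⟩
    intro x _
    simp [hn0]
  let f : ZMod n → (S → Fin k) := fun h x =>
    ⟨k * (h * (x.1 - s0)).val / n, by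
      rw [Nat.div_lt_iff_lt_mul hn0]
      exact Nat.mul_lt_mul_of_pos_left (ZMod.val_lt _) hk0⟩
  have hcard : Fintype.card (S → Fin k) < Fintype.card (ZMod n) := by
    simp only [Fintype.card_pi, Fintype.card_fin, Finset.prod_const, Finset.card_univ,
      Fintype.card_coe, ZMod.card]
    exact hk
  obtain ⟨h1, h2, hne, hf⟩ := Fintype.exists_ne_map_eq_of_card_lt f hcard
  refine ⟨h1 - h2, fun x => ((h1 * (x - s0)).val : ℤ) - ((h2 * (x - s0)).val : ℤ),
    sub_ne_zero.mpr hne, by simp, ?_⟩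
  intro x hx
  constructor
  · push_cast
    rw [ZMod.natCast_zmod_val, ZMod.natCast_zmod_val]
    ring
  · have h3 := congrFun hf ⟨x, hx⟩
    simp only [f, Fin.mk.injEq] at h3
    set v1 := (h1 * (x - s0)).val
    set v2 := (h2 * (x - s0)).val
    have e1 := Nat.div_add_mod (k * v1) n
    have e2 := Nat.div_add_mod (k * v2) n
    have l1 := Nat.mod_lt (k * v1) hn0
    have l2 := Nat.mod_lt (k * v2) hn0
    rw [h3] at e1
    have e1' : (n : ℤ) * ((k * v2 / n : ℕ) : ℤ) + ((k * v1 % n : ℕ) : ℤ) = k * v1 := by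
      exact_mod_cast e1
    have e2' : (n : ℤ) * ((k * v2 / n : ℕ) : ℤ) + ((k * v2 % n : ℕ) : ℤ) = k * v2 := by
      exact_mod_cast e2
    have l1' : ((k * v1 % n : ℕ) : ℤ) < n := by exact_mod_cast l1
    have l2' : ((k * v2 % n : ℕ) : ℤ) < n := by exact_mod_cast l2
    have p1 : (0 : ℤ) ≤ ((k * v1 % n : ℕ) : ℤ) := by positivity
    have p2 : (0 : ℤ) ≤ ((k * v2 % n : ℕ) : ℤ) := by positivity
    have hkabs : |(v1 : ℤ) - v2| * k = |((v1 : ℤ) - v2) * k| := by
      rw [abs_mul, Nat.abs_cast]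
    rw [hkabs, abs_lt]
    constructor <;> nlinarith

/-- simultaneous approximation with an odd coordinate -/
theorem exists_approx_odd (n : ℕ) [Fact n.Prime] (hn2 : n ≠ 2) (S : Finset (ZMod n)) (k : ℕ)
    (hk : k ^ S.card < n) (s0 : ZMod n) (hS : 2 ≤ S.card) :
    ∃ (h : ZMod n) (a : ZMod n → ℤ), h ≠ 0 ∧ a s0 = 0 ∧
      (∀ x ∈ S, (a x : ZMod n) = h * (x - s0) ∧ |a x| * k < n) ∧ ∃ x ∈ S, ¬ (2 : ℤ) ∣ a x := by
  have : NeZero n := ⟨(Fact.out : n.Prime).ne_zero⟩
  obtain ⟨x1, hx1, hx1ne⟩ : ∃ x ∈ S, x ≠ s0 := by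
    by_contra hcon
    push Not at hcon
    have : S ⊆ {s0} := fun x hx => by simpa using hcon x hx
    have := Finset.card_le_card this
    simp at this
    omega
  have h2 : (2 : ZMod n) ≠ 0 := by
    intro h0
    have : ((2 : ℕ) : ZMod n) = 0 := by exact_mod_cast h0
    rw [ZMod.natCast_eq_zero_iff] at this
    have := (Nat.prime_dvd_prime_iff_eq (Fact.out : n.Prime) Nat.prime_two).mp this
    exact hn2 this
  obtain ⟨h, a, hh, ha0, ha⟩ := exists_approx n S k hk s0
  -- descent
  have key : ∀ (N : ℕ) (h : ZMod n) (a : ZMod n → ℤ), (a x1).natAbs = N → h ≠ 0 → a s0 = 0 →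
      (∀ x ∈ S, (a x : ZMod n) = h * (x - s0) ∧ |a x| * k < n) →
      ∃ (h : ZMod n) (a : ZMod n → ℤ), h ≠ 0 ∧ a s0 = 0 ∧
      (∀ x ∈ S, (a x : ZMod n) = h * (x - s0) ∧ |a x| * k < n) ∧ ∃ x ∈ S, ¬ (2 : ℤ) ∣ a x := by
    intro N
    induction' N using Nat.strong_induction_on with N ih
    intro h a hN hh ha0 ha
    by_cases hodd : ∃ x ∈ S, ¬ (2 : ℤ) ∣ a x
    · exact ⟨h, a, hh, ha0, ha, hodd⟩
    · push Not at hodd
      have hx0 : a x1 ≠ 0 := by
        intro h0
        have h3 := (ha x1 hx1).1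
        rw [h0] at h3
        simp only [Int.cast_zero] at h3
        rcases mul_eq_zero.mp h3.symm with h4 | h4
        · exact hh h4
        · exact hx1ne (sub_eq_zero.mp h4)
      refine ih ((a x1 / 2).natAbs) ?_ (h / 2) (fun x => a x / 2) rfl (div_ne_zero hh h2)
        (by simp [ha0]) ?_
      · obtain ⟨c, hc⟩ := hodd x1 hx1
        rw [hc] at hN hx0 ⊢
        rw [Int.mul_ediv_cancel_left _ (by norm_num)]
        omega
      · intro x hx
        obtain ⟨c, hc⟩ := hodd x hx
        have h3 := ha x hx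
        have hd : a x / 2 = c := by rw [hc]; exact Int.mul_ediv_cancel_left _ (by norm_num)
        rw [hc] at h3
        simp only [hd]
        constructor
        · have h4 := h3.1
          push_cast at h4
          field_simp
          linear_combination h4
        · have h4 := h3.2
          rw [abs_mul] at h4
          have h5 : |(2 : ℤ)| = 2 := by norm_num
          rw [h5] at h4
          have h6 : 0 ≤ |c| * (k : ℤ) := by positivity
          nlinarith
  exact key _ h a rfl hh ha0 ha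

/-- small supports -/
theorem hasVal_small (n : ℕ) [Fact n.Prime] (hn2 : n ≠ 2) (m : ZMod n → ℤ) (k : ℕ)
    (hk : k ^ (univ.filter (fun i => m i ≠ 0)).card < n)
    (hS : 2 ≤ (univ.filter (fun i => m i ≠ 0)).card) (J : ℕ) (hJ : 2 * k * J + 2 * n ≤ n * k) :
    HasVal m univ J := by
  have : NeZero n := ⟨(Fact.out : n.Prime).ne_zero⟩
  have hn0 : 0 < n := Nat.pos_of_ne_zero (NeZero.ne n)
  set S := (univ.filter (fun i => m i ≠ 0)) with hSdef
  have hmemS : ∀ x, x ∈ S ↔ m x ≠ 0 := by intro x; simp [hSdef]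
  have hSne : S.Nonempty := Finset.card_pos.mp (by omega)
  obtain ⟨s0, hs0⟩ := hSne
  obtain ⟨h, a, hh, ha0, ha, xo', hxo', hodd'⟩ := exists_approx_odd n hn2 S k hk s0 hS
  obtain ⟨xe, hxe, hxemin⟩ := Finset.exists_min_image (S.filter (fun x => (2 : ℤ) ∣ a x)) a
    ⟨s0, by simp [hs0, ha0]⟩
  obtain ⟨xo, hxo, hxomin⟩ := Finset.exists_min_image (S.filter (fun x => ¬ (2 : ℤ) ∣ a x)) a
    ⟨xo', by rw [mem_filter]; exact ⟨hxo', hodd'⟩⟩
  simp only [mem_filter] at hxe hxo hxemin hxomin
  have hk0 : 0 < k := by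
    rcases Nat.eq_zero_or_pos k with rfl | h
    · simp at hJ; omega
    · exact h
  -- key argument
  have key : ∀ x0 ∈ S, (∀ x ∈ S, (2 : ℤ) ∣ (a x - a x0) → a x0 ≤ a x) →
      ∀ j < J, ∀ i < j, m (h⁻¹ * (2 * (i : ℕ) : ℕ) - (h⁻¹ * (2 * (j : ℕ) : ℕ) - x0)) = 0 := by
    intro x0 hx0 hmin j hj i hi
    by_contra hcon
    set x := h⁻¹ * ((2 * i : ℕ) : ZMod n) - (h⁻¹ * ((2 * j : ℕ) : ZMod n) - x0) with hx
    have hxS : x ∈ S := (hmemS x).mpr hcon
    have e1 := (ha x hxS).1
    have e2 := (ha x0 hx0).1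
    have e3 : h * (x - s0) = h * (x0 - s0) + ((2 * i : ℕ) : ZMod n) - ((2 * j : ℕ) : ZMod n) := by
      rw [hx]
      field_simp
      ring
    rw [← e1, ← e2] at e3
    have e4 : ((a x - a x0 + 2 * (j - i) : ℤ) : ZMod n) = 0 := by
      push_cast
      rw [e3]
      push_cast
      ring
    rw [ZMod.intCast_zmod_eq_zero_iff_dvd] at e4
    have b1 := (ha x hxS).2
    have b2 := (ha x0 hx0).2
    have hkz : (0 : ℤ) < k := by exact_mod_cast hk0
    have hJz : 2 * (k : ℤ) * J + 2 * n ≤ n * k := by exact_mod_cast hJ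
    have hij : (0 : ℤ) < (j : ℤ) - i := by
      have : (i : ℤ) < j := by exact_mod_cast hi
      linarith
    have hjJ : (j : ℤ) - i ≤ J := by
      have : (j : ℤ) < J := by exact_mod_cast hj
      have : (0 : ℤ) ≤ i := by positivity
      linarith
    have a1 := abs_le.mp (le_refl |a x|)
    have a2 := abs_le.mp (le_refl |a x0|)
    have e5 : a x - a x0 + 2 * ((j : ℤ) - i) = 0 := by
      apply Int.eq_zero_of_abs_lt_dvd e4
      have hn' : (0 : ℤ) < n := by exact_mod_cast hn0
      rw [abs_lt]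
      have m1 := mul_le_mul_of_nonneg_right a1.1 hkz.le
      have m2 := mul_le_mul_of_nonneg_right a1.2 hkz.le
      have m3 := mul_le_mul_of_nonneg_right a2.1 hkz.le
      have m4 := mul_le_mul_of_nonneg_right a2.2 hkz.le
      have m5 := mul_le_mul_of_nonneg_right hjJ hkz.le
      have m6 := mul_pos hij hkz
      constructor
      · by_contra hc
        push Not at hc
        have := mul_le_mul_of_nonneg_right hc hkz.le
        nlinarith
      · by_contra hc
        push Not at hc
        have := mul_le_mul_of_nonneg_right hc hkz.le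
        nlinarith
    have h6 := hmin x hxS ⟨-((j : ℤ) - i), by linarith⟩
    linarith
  have hmin_e : ∀ x ∈ S, (2 : ℤ) ∣ (a x - a xe) → a xe ≤ a x := by
    intro x hx hd
    apply hxemin x ⟨hx, _⟩
    have := dvd_add hd hxe.2
    simpa using this
  have hmin_o : ∀ x ∈ S, (2 : ℤ) ∣ (a x - a xo) → a xo ≤ a x := by
    intro x hx hd
    apply hxomin x ⟨hx, _⟩
    intro hd2
    apply hxo.2
    have := dvd_sub hd2 hd
    simpa using this
  refine hasVal_of_seq m ⟨s0, (hmemS s0).mp hs0⟩ J (fun j => h⁻¹ * ((2 * j : ℕ) : ZMod n)) ?_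
  intro j hj
  refine ⟨h⁻¹ * ((2 * j : ℕ) : ZMod n) - xe, h⁻¹ * ((2 * j : ℕ) : ZMod n) - xo, ?_, ?_, ?_, ?_⟩
  · intro he
    have : xe = xo := by simpa using he
    rw [this] at hxe
    exact hxo.2 hxe.2
  · simp only [sub_sub_cancel]; exact (hmemS _).mp hxe.1
  · simp only [sub_sub_cancel]; exact (hmemS _).mp hxo.1
  · intro i hi
    exact ⟨key xe hxe.1 hmin_e j hj i hi, key xo hxo.1 hmin_o j hj i hi⟩

/-- combined asymptotic bound -/
theorem hasVal_asymp (n : ℕ) [Fact n.Prime] (m : ZMod n → ℤ) (K : ℕ) (hK : 4 ≤ K)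
    (hn : K ^ (K ^ 2) < n) (hS : 2 ≤ (univ.filter (fun i => m i ≠ 0)).card) :
    ∃ v : ℤ, HasVal m univ v ∧ ((K : ℤ) - 4) * n ≤ 2 * K * v := by
  have : NeZero n := ⟨(Fact.out : n.Prime).ne_zero⟩
  set σ := (univ.filter (fun i => m i ≠ 0)).card with hσ
  have hKn : K < n := by
    calc K = K ^ 1 := (pow_one K).symm
      _ ≤ K ^ (K ^ 2) := Nat.pow_le_pow_right (by omega) (by nlinarith)
      _ < n := hn
  have hKz : (4 : ℤ) ≤ K := by exact_mod_cast hK
  have hKnz : (K : ℤ) < n := by exact_mod_cast hKn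
  rcases le_total σ (K ^ 2) with hle | hle
  · have hk : K ^ σ < n := lt_of_le_of_lt (Nat.pow_le_pow_right (by omega) hle) hn
    set J := n * (K - 2) / (2 * K) with hJ
    have hJ2 : 2 * K * J + 2 * n ≤ n * K := by
      have h1 : 2 * K * J ≤ n * (K - 2) := by
        rw [hJ]; exact Nat.mul_div_le _ _
      have h2 : n * (K - 2) + 2 * n = n * K := by
        obtain ⟨t, rfl⟩ := Nat.exists_eq_add_of_le hK
        have : 4 + t - 2 = 2 + t := by omega
        rw [this]; ring
      omega
    refine ⟨J, hasVal_small n (by omega) m K hk hS J hJ2, ?_⟩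
    have h3 : n * (K - 2) < 2 * K * (J + 1) := by
      rw [hJ]
      exact Nat.lt_mul_div_succ _ (by omega)
    have h4 : (n : ℤ) * (K - 2) < 2 * K * (J + 1) := by
      have : ((K - 2 : ℕ) : ℤ) = K - 2 := by
        rw [Nat.cast_sub (by omega)]; norm_num
      rw [← this]
      exact_mod_cast h3
    nlinarith
  · have hm : ∃ i, m i ≠ 0 := by
      have : 0 < (univ.filter (fun i => m i ≠ 0)).card := by omega
      obtain ⟨i, hi⟩ := Finset.card_pos.mp this
      exact ⟨i, by simpa using hi⟩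
    obtain ⟨v, hv, hv2⟩ := hasVal_large m K (by omega) hm univ
    refine ⟨v, hv, ?_⟩
    rw [← hσ, Finset.card_univ, ZMod.card] at hv2
    have hσK : (K : ℤ) ^ 2 ≤ σ := by exact_mod_cast hle
    have hσ0 : (0 : ℤ) < σ := by nlinarith
    have hn' : (0 : ℤ) < n := by linarith
    -- (K-1)(σ - K) n ≤ 2 K σ v, and (K-4) σ ≤ (K-1)(σ-K)
    have h5 : ((K : ℤ) - 4) * σ ≤ (K - 1) * (σ - K) := by nlinarith
    have h6 := mul_le_mul_of_nonneg_right h5 hn'.le
    have h7 : ((K : ℤ) - 4) * n * σ ≤ 2 * K * v * σ := by nlinarith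
    exact le_of_mul_le_mul_right h7 hσ0

end Pool.Agent.Helper18.Katz
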