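import Pool.Agent.Helper18.Katz2

/-!
Support file for MP_0aa406_nt (helper18): residue sums `W`, digit sums, the local computation.
-/

set_option autoImplicit false

namespace Pool.Agent.Helper18.Katz

open Finset

/-- sum of the residues of `x, p x, p² x, …` modulo `p ^ n - 1`. -/
def W (p n : ℕ) [NeZero n] (x : ℤ) : ℤ :=
  ∑ j : ZMod n, ((p : ℤ) ^ j.val * x) % ((p : ℤ) ^ n - 1)

/-- the geometric sum -/
def G (p n : ℕ) [NeZero n] : ℤ := ∑ j : ZMod n, (p : ℤ) ^ j.val

section basic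

variable {p n : ℕ} [NeZero n]

theorem sum_zmod_val (f : ℕ → ℤ) : ∑ j : ZMod n, f j.val = ∑ j ∈ range n, f j := by
  obtain ⟨k, hk⟩ : ∃ k, n = k + 1 := ⟨n - 1, by have := NeZero.pos n; omega⟩
  subst hk
  exact Fin.sum_univ_eq_sum_range f (k + 1)

theorem G_mul : ((p : ℤ) - 1) * G p n = (p : ℤ) ^ n - 1 := by
  unfold G
  rw [sum_zmod_val (fun j => (p : ℤ) ^ j), mul_comm]
  exact geom_sum_mul _ _

omit [NeZero n] in
theorem pow_modEq_mod (s : ℕ) : (p : ℤ) ^ s ≡ (p : ℤ) ^ (s % n) [ZMOD ((p : ℤ) ^ n - 1)] := by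
  conv_lhs => rw [← Nat.div_add_mod s n, pow_add, pow_mul]
  have h1 : (p : ℤ) ^ n ≡ 1 [ZMOD ((p : ℤ) ^ n - 1)] := by
    rw [Int.modEq_comm]
    exact (Int.modEq_iff_dvd).mpr (dvd_refl _)
  have h2 := (h1.pow (s / n)).mul_right ((p : ℤ) ^ (s % n))
  simpa using h2

theorem pow_val_add (a b : ZMod n) :
    (p : ℤ) ^ a.val * (p : ℤ) ^ b.val ≡ (p : ℤ) ^ (a + b).val [ZMOD ((p : ℤ) ^ n - 1)] := by
  rw [← pow_add, ZMod.val_add]
  exact pow_modEq_mod _

theorem W_congr {x y : ℤ} (h : x ≡ y [ZMOD ((p : ℤ) ^ n - 1)]) : W p n x = W p n y := by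
  unfold W
  apply Finset.sum_congr rfl
  intro j _
  exact h.mul_left _

/-- the digit sum identity -/
theorem digitSum_eq (hp : 2 ≤ p) (x : ℕ) (hx : x < p ^ n - 1) :
    ((p : ℤ) ^ n - 1) * ((Nat.digits p x).sum : ℤ) = ((p : ℤ) - 1) * W p n x := by
  have hpn : 1 ≤ p ^ n := Nat.one_le_pow _ _ (by omega)
  have hxp : x < p ^ n := by omega
  set Q : ℤ := (p : ℤ) ^ n - 1 with hQ
  have hQx : (x : ℤ) < Q := by
    have : ((p ^ n - 1 : ℕ) : ℤ) = Q := by rw [Nat.cast_sub hpn]; push_cast; rfl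
    rw [← this]; exact_mod_cast hx
  -- residues
  have hres : ∀ j, j < n → ((p : ℤ) ^ j * x) % Q = (p : ℤ) ^ j * x - Q * ((x / p ^ (n - j) : ℕ) : ℤ) := by
    intro j hj
    have hsplit : (x : ℤ) = (p : ℤ) ^ (n - j) * ((x / p ^ (n - j) : ℕ) : ℤ) +
        ((x % p ^ (n - j) : ℕ) : ℤ) := by
      exact_mod_cast (Nat.div_add_mod x (p ^ (n - j))).symm
    have hpp : (p : ℤ) ^ j * (p : ℤ) ^ (n - j) = (p : ℤ) ^ n := by
      rw [← pow_add]; congr 1; omega
    set t : ℤ := ((x / p ^ (n - j) : ℕ) : ℤ) with ht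
    set r : ℤ := ((x % p ^ (n - j) : ℕ) : ℤ) with hr
    have hr0 : 0 ≤ r := by positivity
    have hr1 : r < (p : ℤ) ^ (n - j) := by
      rw [hr]; exact_mod_cast Nat.mod_lt _ (by positivity)
    have ht0 : 0 ≤ t := by positivity
    have ht1 : t < (p : ℤ) ^ j := by
      rw [ht]
      have : x / p ^ (n - j) < p ^ j := by
        rw [Nat.div_lt_iff_lt_mul (by positivity), ← pow_add]
        have : j + (n - j) = n := by omega
        rw [this]; exact hxp
      exact_mod_cast this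
    have heq : (p : ℤ) ^ j * x - Q * t = (p : ℤ) ^ j * r + t := by
      rw [hsplit, hQ]
      linear_combination t * hpp
    have hpj : (0 : ℤ) < (p : ℤ) ^ j := by positivity
    have hnonneg : 0 ≤ (p : ℤ) ^ j * r + t := by positivity
    have hlt : (p : ℤ) ^ j * r + t < Q := by
      -- ≤ p^j (p^(n-j) - 1) + p^j - 1 = p^n - 1, equality only when x = p^n-1
      have h1 : (p : ℤ) ^ j * r ≤ (p : ℤ) ^ j * ((p : ℤ) ^ (n - j) - 1) :=
        mul_le_mul_of_nonneg_left (by linarith) hpj.le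
      have h2 : (p : ℤ) ^ j * ((p : ℤ) ^ (n - j) - 1) = (p : ℤ) ^ n - (p : ℤ) ^ j := by
        rw [mul_sub, hpp, mul_one]
      have h3 : (p : ℤ) ^ j * r + t ≤ Q := by rw [hQ]; linarith
      rcases h3.lt_or_eq with h4 | h4
      · exact h4
      · exfalso
        have h5 : t = (p : ℤ) ^ j - 1 := by rw [hQ] at h4; linarith
        have h6 : (p : ℤ) ^ j * r = (p : ℤ) ^ j * ((p : ℤ) ^ (n - j) - 1) := by
          rw [hQ] at h4; linarith
        have h7 : r = (p : ℤ) ^ (n - j) - 1 := mul_left_cancel₀ hpj.ne' h6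
        have h8 : (x : ℤ) = Q := by
          rw [hsplit, h5, h7, hQ]
          linear_combination hpp
        linarith
    have hmod : ((p : ℤ) ^ j * x) % Q = ((p : ℤ) ^ j * x - Q * t) % Q := by
      rw [Int.sub_mul_emod_self_left]
    rw [hmod, heq, Int.emod_eq_of_lt hnonneg hlt]
  have hW : W p n x = ∑ j ∈ range n, ((p : ℤ) ^ j * x) % Q := by
    unfold W
    rw [sum_zmod_val (fun j => ((p : ℤ) ^ j * x) % Q)]
  rw [hW, Finset.sum_congr rfl (fun j hj => hres j (Finset.mem_range.mp hj)),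
    Finset.sum_sub_distrib, ← Finset.mul_sum, ← Finset.sum_mul, mul_sub]
  have hg : ((p : ℤ) - 1) * ((∑ i ∈ range n, (p : ℤ) ^ i) * x) = Q * x := by
    rw [← mul_assoc, mul_comm ((p : ℤ) - 1), geom_sum_mul]
  rw [hg]
  -- Legendre
  have hrefl : ∑ j ∈ range n, ((x / p ^ (n - j) : ℕ) : ℤ) =
      ∑ i ∈ range n, ((x / p ^ (i + 1) : ℕ) : ℤ) := by
    rw [← Finset.sum_range_reflect]
    apply Finset.sum_congr rfl
    intro j hj
    rw [Finset.mem_range] at hj
    congr 3
    omega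
  rw [hrefl]
  have hleg := Nat.sub_one_mul_sum_log_div_pow_eq_sub_sum_digits (p := p) x
  have hext : ∑ i ∈ range n, (x / p ^ (i + 1)) = ∑ i ∈ range (Nat.log p x).succ, x / p ^ i.succ := by
    have h0 : ∀ i, Nat.log p x < i + 1 → x / p ^ (i + 1) = 0 := by
      intro i hi
      exact Nat.div_eq_of_lt (Nat.lt_pow_of_log_lt hp hi)
    have h0' : ∀ i, n ≤ i → x / p ^ (i + 1) = 0 := by
      intro i hi
      apply Nat.div_eq_of_lt
      exact hxp.trans_le (Nat.pow_le_pow_right (by omega) (by omega))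
    rcases le_total n (Nat.log p x).succ with hle | hle
    · apply Finset.sum_subset (Finset.range_subset_range.mpr hle)
      intro i _ hi
      exact h0' i (by simpa using hi)
    · symm
      apply Finset.sum_subset (Finset.range_subset_range.mpr hle)
      intro i _ hi
      simp only [Finset.mem_range, not_lt] at hi
      exact h0 i (by omega)
  rw [← hext] at hleg
  have hle : (Nat.digits p x).sum ≤ x := Nat.digit_sum_le p x
  have hleg' : ((p : ℤ) - 1) * ∑ i ∈ range n, ((x / p ^ (i + 1) : ℕ) : ℤ) =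
      x - (Nat.digits p x).sum := by
    rw [← Nat.cast_sub hle, ← hleg]
    push_cast [Nat.cast_sub (show 1 ≤ p by omega)]
    rfl
  linear_combination Q * hleg'

/-- `∑ i, z i * p ^ (j - i).val` -/
def Y (p n : ℕ) [NeZero n] (z : ZMod n → ℤ) (j : ZMod n) : ℤ :=
  ∑ i : ZMod n, z i * (p : ℤ) ^ (j - i).val

theorem sum_Y (z : ZMod n → ℤ) : ∑ j, Y p n z j = (∑ i, z i) * G p n := by
  unfold Y G
  rw [Finset.sum_comm, Finset.sum_mul]
  apply Finset.sum_congr rfl
  intro i _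
  rw [← Finset.mul_sum]
  congr 1
  exact Fintype.sum_equiv (Equiv.subRight i) _ _ (fun s => by simp)

theorem mul_Y (z : ZMod n → ℤ) (k j : ZMod n) :
    (p : ℤ) ^ k.val * Y p n z j ≡ Y p n z (k + j) [ZMOD ((p : ℤ) ^ n - 1)] := by
  unfold Y
  rw [Finset.mul_sum]
  apply Int.ModEq.sum
  intro i _
  have h := (pow_val_add (p := p) k (j - i)).mul_left (z i)
  have h2 : k + (j - i) = k + j - i := by ring
  rw [h2] at h
  refine Int.ModEq.trans ?_ h
  rw [show (p : ℤ) ^ k.val * (z i * (p : ℤ) ^ (j - i).val) =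
    z i * ((p : ℤ) ^ k.val * (p : ℤ) ^ (j - i).val) by ring]

theorem act_Y (m z : ZMod n → ℤ) (j : ZMod n) :
    ∑ k, m k * Y p n z (k + j) = Y p n (act m z) j := by
  unfold Y act
  simp_rw [Finset.mul_sum, Finset.sum_mul]
  conv_rhs => rw [Finset.sum_comm]
  apply Finset.sum_congr rfl
  intro k _
  refine Fintype.sum_equiv (Equiv.subRight k) _ _ (fun i => ?_)
  simp only [Equiv.subRight_apply, sub_add_cancel]
  have : k + j - i = j - (i - k) := by ring
  rw [this]; ring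

theorem val_neg_one' : ((-1 : ZMod n)).val = n - 1 := by
  obtain ⟨k, hk⟩ : ∃ k, n = k + 1 := ⟨n - 1, by have := NeZero.pos n; omega⟩
  subst hk
  exact ZMod.val_neg_one k

theorem Y_bounds (z : ZMod n → ℤ) (B : ℤ) (hB : ∀ i, |z i| ≤ B)
    (j : ZMod n) :
    |Y p n z j| ≤ B * G p n ∧
    |Y p n z j - z (j + 1) * (p : ℤ) ^ (n - 1)| ≤ B * (G p n - (p : ℤ) ^ (n - 1)) := by
  have hG : G p n = ∑ i : ZMod n, (p : ℤ) ^ (j - i).val := by
    unfold G
    exact (Fintype.sum_equiv (Equiv.subLeft j) _ _ (fun s => by simp)).symm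
  have hterm : ∀ i, |z i * (p : ℤ) ^ (j - i).val| ≤ B * (p : ℤ) ^ (j - i).val := by
    intro i
    rw [abs_mul, abs_of_nonneg (show (0 : ℤ) ≤ (p : ℤ) ^ (j - i).val by positivity)]
    exact mul_le_mul_of_nonneg_right (hB i) (by positivity)
  constructor
  · rw [hG, Finset.mul_sum]
    exact (Finset.abs_sum_le_sum_abs _ _).trans (Finset.sum_le_sum fun i _ => hterm i)
  · have hj1 : (j - (j + 1)).val = n - 1 := by
      rw [show j - (j + 1) = -1 by ring]; exact val_neg_one'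
    have e1 : Y p n z j - z (j + 1) * (p : ℤ) ^ (n - 1) =
        ∑ i ∈ univ.erase (j + 1), z i * (p : ℤ) ^ (j - i).val := by
      unfold Y
      rw [← Finset.add_sum_erase univ _ (mem_univ (j + 1)), hj1]
      ring
    have e2 : G p n - (p : ℤ) ^ (n - 1) = ∑ i ∈ univ.erase (j + 1), (p : ℤ) ^ (j - i).val := by
      rw [hG, ← Finset.add_sum_erase univ _ (mem_univ (j + 1)), hj1]
      ring
    rw [e1, e2, Finset.mul_sum]
    exact (Finset.abs_sum_le_sum_abs _ _).trans (Finset.sum_le_sum fun i _ => hterm i)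

/-- the local computation -/
theorem W_local (hp : 2 ≤ p) (z : ZMod n → ℤ) (hz : ∀ i, z i ≠ 0) (B R : ℤ) (hR : 0 < R)
    (hB : ∀ i, |z i| ≤ B) (hpB : R * B < (p : ℤ) - 1) (x : ℤ)
    (hx : x ≡ R * Y p n z 0 [ZMOD ((p : ℤ) ^ n - 1)]) :
    ¬ ((p : ℤ) ^ n - 1) ∣ x ∧
    W p n x = R * ((∑ i, z i) * G p n) +
      ((p : ℤ) ^ n - 1) * ((univ.filter (fun i => z i < 0)).card : ℤ) := by
  have hn := NeZero.pos n
  have hB1 : 1 ≤ B := by
    have h0 := hB 0
    have h1 := Int.one_le_abs (hz 0)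
    linarith
  have hp' : (2 : ℤ) ≤ p := by exact_mod_cast hp
  have hpn1 : (0 : ℤ) < (p : ℤ) ^ (n - 1) := by positivity
  have hpn : (p : ℤ) ^ n = p * (p : ℤ) ^ (n - 1) := by
    rw [← pow_succ']; congr 1; omega
  have hG := G_mul (p := p) (n := n)
  set Q : ℤ := (p : ℤ) ^ n - 1 with hQ
  set g := G p n with hg
  have hQ0 : 0 < Q := by rw [hQ, hpn]; nlinarith
  have hg0 : 0 < g := by
    by_contra hcon
    push Not at hcon
    nlinarith
  have hBp : B < (p : ℤ) - 1 := by nlinarith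
  have hrest : ((p : ℤ) - 1) * (g - (p : ℤ) ^ (n - 1)) = (p : ℤ) ^ (n - 1) - 1 := by
    rw [mul_sub, hG, hQ, hpn]; ring
  have hrest2 : B * (g - (p : ℤ) ^ (n - 1)) < (p : ℤ) ^ (n - 1) := by
    have h1 : 0 ≤ g - (p : ℤ) ^ (n - 1) := by
      by_contra hcon
      push Not at hcon
      nlinarith
    nlinarith
  have hRBg : R * (B * g) < Q := by
    rw [← hG]; nlinarith
  -- signs
  have hsign : ∀ j, (0 < z (j + 1) → 0 < Y p n z j) ∧ (z (j + 1) < 0 → Y p n z j < 0) ∧
      |R * Y p n z j| < Q := by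
    intro j
    obtain ⟨h1, h2⟩ := Y_bounds (p := p) z B hB j
    rw [← hg] at h1 h2
    have h3 := abs_le.mp h2
    refine ⟨fun hpos => ?_, fun hneg => ?_, ?_⟩
    · nlinarith [h3.1]
    · nlinarith [h3.2]
    · rw [abs_mul, abs_of_pos hR]
      calc R * |Y p n z j| ≤ R * (B * g) := mul_le_mul_of_nonneg_left h1 hR.le
        _ < Q := hRBg
  have hmod : ∀ j : ZMod n, ((p : ℤ) ^ j.val * x) % Q =
      R * Y p n z j + Q * (if z (j + 1) < 0 then 1 else 0) := by
    intro j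
    have hc : (p : ℤ) ^ j.val * x ≡ R * Y p n z j [ZMOD Q] := by
      have h1 := hx.mul_left ((p : ℤ) ^ j.val)
      have h2 := (mul_Y (p := p) z j 0).mul_left R
      rw [add_zero] at h2
      refine h1.trans (Int.ModEq.trans ?_ h2)
      rw [show (p : ℤ) ^ j.val * (R * Y p n z 0) = R * ((p : ℤ) ^ j.val * Y p n z 0) by ring]
    obtain ⟨s1, s2, s3⟩ := hsign j
    have s4 := abs_lt.mp s3
    rcases lt_or_gt_of_ne (hz (j + 1)) with hneg | hpos
    · rw [if_pos hneg, mul_one]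
      have h5 : R * Y p n z j < 0 := mul_neg_of_pos_of_neg hR (s2 hneg)
      have h6 : (R * Y p n z j + Q) % Q = R * Y p n z j + Q :=
        Int.emod_eq_of_lt (by linarith) (by linarith)
      rw [← h6, Int.add_emod_right]
      exact hc
    · rw [if_neg (by linarith), mul_zero, add_zero]
      have h5 : 0 < R * Y p n z j := mul_pos hR (s1 hpos)
      rw [← Int.emod_eq_of_lt h5.le s4.2]
      exact hc
  constructor
  · intro hdvd
    have h1 := hmod 0
    have h2 : ((p : ℤ) ^ (0 : ZMod n).val * x) % Q = 0 :=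
      Int.emod_eq_zero_of_dvd (Dvd.dvd.mul_left hdvd _)
    rw [h2] at h1
    obtain ⟨s1, s2, s3⟩ := hsign 0
    have s4 := abs_lt.mp s3
    rcases lt_or_gt_of_ne (hz (0 + 1)) with hneg | hpos
    · rw [if_pos hneg] at h1
      linarith [s4.1]
    · rw [if_neg (by linarith)] at h1
      have h5 : 0 < R * Y p n z 0 := mul_pos hR (s1 hpos)
      linarith
  · unfold W
    rw [Finset.sum_congr rfl (fun j _ => hmod j), Finset.sum_add_distrib, ← Finset.mul_sum,
      sum_Y, ← Finset.mul_sum]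
    congr 2
    rw [Finset.card_filter]
    push_cast
    refine Fintype.sum_equiv (Equiv.addRight 1) _ _ (fun s => ?_)
    by_cases h : z (s + 1) < 0 <;> simp [h]

end basic

end Pool.Agent.Helper18.Katz
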