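import Pool.Agent.Helper18.Katz3

/-!
Support file for MP_0aa406_nt (helper18): the non-generic cases.
-/

set_option autoImplicit false

namespace Pool.Agent.Helper18.Katz

open Finset

/-- there is a residue `a ≠ 0` with `W (d a) - W a ≥ c Q`, `Q = p ^ n - 1`. -/
def Good (p n : ℕ) [NeZero n] (d c : ℤ) : Prop :=
  ∃ a : ℤ, ¬ ((p : ℤ) ^ n - 1) ∣ a ∧ 2 * c * ((p : ℤ) ^ n - 1) ≤ 2 * (W p n (d * a) - W p n a)

section

variable {n : ℕ} [NeZero n]

theorem sum_act (m z : ZMod n → ℤ) : ∑ l, act m z l = (∑ i, m i) * ∑ i, z i := by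
  unfold act
  rw [Finset.sum_comm, Finset.sum_mul]
  apply Finset.sum_congr rfl
  intro i _
  rw [← Finset.mul_sum]
  congr 1
  exact Fintype.sum_equiv (Equiv.addRight i) _ _ (fun s => by simp)

/-- the local computation, for a relation `d R ≡ m(p)`. -/
theorem good_local (m : ZMod n → ℤ) (c : ℤ) (hR : 0 < ∑ i, m i) (hv : HasVal m univ c) :
    ∃ P0 : ℕ, ∀ p : ℕ, P0 ≤ p → ∀ d : ℤ,
      d * (∑ i, m i) ≡ ∑ i, m i * (p : ℤ) ^ i.val [ZMOD ((p : ℤ) ^ n - 1)] → Good p n d c := by
  obtain ⟨z, hz, hact, hcard⟩ := hv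
  obtain ⟨K, hK0, hK1, hK2⟩ := exists_big m z
  set R := ∑ i, m i with hRdef
  refine ⟨(R * K + 2).toNat, fun p hp d hd => ?_⟩
  have hpK : R * K < (p : ℤ) - 1 := by
    have : (R * K + 2 : ℤ) ≤ p := by
      have := Int.toNat_le.mp hp
      exact this
    linarith
  have hp2 : 2 ≤ p := by
    have h1 : (0 : ℤ) < R * K := mul_pos hR hK0
    have : (2 : ℤ) ≤ p := by linarith
    exact_mod_cast this
  obtain ⟨a1, a2⟩ := W_local hp2 z hz K R hR (fun i => (hK2 i).le) hpK (R * Y p n z 0) rfl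
  have hx2 : d * (R * Y p n z 0) ≡ 1 * Y p n (act m z) 0 [ZMOD ((p : ℤ) ^ n - 1)] := by
    have h1 := hd.mul_right (Y p n z 0)
    rw [one_mul, ← act_Y]
    have h2 : d * (R * Y p n z 0) = d * R * Y p n z 0 := by ring
    rw [h2]
    refine h1.trans ?_
    rw [Finset.sum_mul]
    apply Int.ModEq.sum
    intro k _
    rw [mul_assoc]
    exact (mul_Y (p := p) z k 0).mul_left (m k)
  obtain ⟨b1, b2⟩ := W_local hp2 (act m z) (fun i => hact i (mem_univ i)) K 1 one_pos
    (fun i => (hK1 i).le) (by nlinarith) (d * (R * Y p n z 0)) hx2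
  refine ⟨R * Y p n z 0, a1, ?_⟩
  rw [a2, b2, sum_act, ← hRdef]
  have hQ : (0 : ℤ) ≤ (p : ℤ) ^ n - 1 := by
    have : (1 : ℤ) ≤ (p : ℤ) ^ n := one_le_pow₀ (by exact_mod_cast (by omega : 1 ≤ p))
    linarith
  have := mul_le_mul_of_nonneg_right hcard hQ
  nlinarith

omit [NeZero n] in
theorem not_dvd_pow_mul {p : ℕ} {e : ℤ} (he : ¬ ((p : ℤ) ^ n - 1) ∣ e) (s : ℕ) (hs : s ≤ n) :
    ¬ ((p : ℤ) ^ n - 1) ∣ (p : ℤ) ^ s * e := by
  intro h
  apply he
  have h1 : ((p : ℤ) ^ n - 1) ∣ (p : ℤ) ^ (n - s) * ((p : ℤ) ^ s * e) := Dvd.dvd.mul_left h _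
  rw [← mul_assoc, ← pow_add, Nat.sub_add_cancel hs] at h1
  have h2 : ((p : ℤ) ^ n - 1) ∣ ((p : ℤ) ^ n - 1) * e := Dvd.intro _ rfl
  have h3 := dvd_sub h1 h2
  have h4 : (p : ℤ) ^ n * e - ((p : ℤ) ^ n - 1) * e = e := by ring
  rwa [h4] at h3

/-- the torsion case -/
theorem good_mono (R : ℤ) (hR : 0 < R) (k : ZMod n) (c : ℤ) (hc : 2 * c ≤ n) :
    ∃ P0 : ℕ, ∀ p : ℕ, P0 ≤ p → ∀ d : ℤ,
      d * R ≡ R * (p : ℤ) ^ k.val [ZMOD ((p : ℤ) ^ n - 1)] →
      ¬ d ≡ (p : ℤ) ^ k.val [ZMOD ((p : ℤ) ^ n - 1)] → Good p n d c := by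
  have hn := NeZero.pos n
  refine ⟨(R ^ 2 + 2).toNat, fun p hp d hd hnd => ?_⟩
  have hpR : R ^ 2 + 2 ≤ (p : ℤ) := Int.toNat_le.mp hp
  have hpn1 : (1 : ℤ) ≤ (p : ℤ) ^ (n - 1) := one_le_pow₀ (by nlinarith)
  have hpn : (p : ℤ) ^ n = p * (p : ℤ) ^ (n - 1) := by
    rw [← pow_succ']; congr 1; omega
  have hp0 : (0 : ℤ) < p := by nlinarith
  set Q : ℤ := (p : ℤ) ^ n - 1 with hQ
  set e : ℤ := d - (p : ℤ) ^ k.val with he
  have hRe : Q ∣ R * e := by
    have := hd.symm.dvd
    rw [he]
    have h2 : R * (d - (p : ℤ) ^ k.val) = d * R - R * (p : ℤ) ^ k.val := by ring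
    rw [h2]; exact this
  have hne : ¬ Q ∣ e := by
    intro h
    exact hnd ((Int.modEq_iff_dvd).mpr h).symm
  have hR2 : 2 ≤ R := by
    by_contra hcon
    have : R = 1 := by omega
    rw [this, one_mul] at hRe
    exact hne hRe
  have hQbig : R ^ 2 * (p : ℤ) ^ (n - 1) < Q := by
    rw [hQ, hpn]; nlinarith
  have hQ0 : 0 < Q := by nlinarith
  -- the residues E j
  set E : ZMod n → ℤ := fun j => ((p : ℤ) ^ j.val * e) % Q with hE
  have hE0 : ∀ j, 0 < E j := by
    intro j
    have h1 : 0 ≤ E j := Int.emod_nonneg _ hQ0.ne'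
    have h2 : E j ≠ 0 := by
      intro h
      exact not_dvd_pow_mul hne j.val (ZMod.val_lt j).le (Int.dvd_of_emod_eq_zero h)
    omega
  have hE1 : ∀ j, E j < Q := fun j => Int.emod_lt_of_pos _ hQ0
  have hEc : ∀ j, (p : ℤ) ^ j.val * e ≡ E j [ZMOD Q] := fun j => (Int.mod_modEq _ _).symm
  have hRE : ∀ j, Q ∣ R * E j := by
    intro j
    have h1 : R * ((p : ℤ) ^ j.val * e) ≡ R * E j [ZMOD Q] := (hEc j).mul_left R
    have h2 : Q ∣ R * ((p : ℤ) ^ j.val * e) := by
      rw [show R * ((p : ℤ) ^ j.val * e) = (p : ℤ) ^ j.val * (R * e) by ring]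
      exact Dvd.dvd.mul_left hRe _
    exact (Int.ModEq.dvd_iff h1).mp h2
  have hRE1 : ∀ j, Q ≤ R * E j := fun j => Int.le_of_dvd (mul_pos hR (hE0 j)) (hRE j)
  have hRE2 : ∀ j, Q ≤ R * (Q - E j) := by
    intro j
    apply Int.le_of_dvd (mul_pos hR (by linarith [hE1 j]))
    rw [mul_sub]
    exact dvd_sub (Dvd.intro_left _ rfl) (hRE j)
  -- bounds on x j
  have hx : ∀ j : ZMod n, 0 < (p : ℤ) ^ j.val ∧ R ^ 2 * (p : ℤ) ^ j.val < Q := by
    intro j
    have hj := ZMod.val_lt j
    have h1 : (p : ℤ) ^ j.val ≤ (p : ℤ) ^ (n - 1) :=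
      pow_le_pow_right₀ (by nlinarith) (by omega)
    refine ⟨pow_pos hp0 _, ?_⟩
    linarith [mul_le_mul_of_nonneg_left h1 (sq_nonneg R)]
  -- W of small multiples
  have hWs : ∀ a : ℤ, 0 < a → a ≤ R → W p n a = a * G p n := by
    intro a ha haR
    unfold W G
    rw [Finset.mul_sum]
    apply Finset.sum_congr rfl
    intro j _
    obtain ⟨x1, x2⟩ := hx j
    rw [mul_comm]
    apply Int.emod_eq_of_lt (by positivity)
    nlinarith [mul_le_mul_of_nonneg_right haR x1.le]
  have hsumk : ∑ j : ZMod n, (p : ℤ) ^ (j + k).val = G p n := by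
    unfold G
    exact Fintype.sum_equiv (Equiv.addRight k) _ _ (fun s => by simp)
  have hW1 : W p n (d * 1) = G p n + ∑ j, E j := by
    unfold W
    rw [← hsumk, ← Finset.sum_add_distrib]
    apply Finset.sum_congr rfl
    intro j _
    obtain ⟨x1, x2⟩ := hx (j + k)
    have h1 : (p : ℤ) ^ j.val * (d * 1) ≡ (p : ℤ) ^ (j + k).val + E j [ZMOD Q] := by
      have h2 : (p : ℤ) ^ j.val * (d * 1) = (p : ℤ) ^ j.val * (p : ℤ) ^ k.val +
          (p : ℤ) ^ j.val * e := by rw [he]; ring
      rw [h2]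
      exact (pow_val_add j k).add (hEc j)
    rw [h1]
    apply Int.emod_eq_of_lt
    · linarith [hE0 j]
    · nlinarith [hRE2 j]
  have hW2 : W p n (d * (R - 1)) = (R - 1) * G p n + ∑ j, (Q - E j) := by
    unfold W
    rw [← hsumk, Finset.mul_sum, ← Finset.sum_add_distrib]
    apply Finset.sum_congr rfl
    intro j _
    obtain ⟨x1, x2⟩ := hx (j + k)
    have h1 : (p : ℤ) ^ j.val * (d * (R - 1)) ≡
        (R - 1) * (p : ℤ) ^ (j + k).val + (Q - E j) [ZMOD Q] := by
      have h2 : (p : ℤ) ^ j.val * (d * (R - 1)) = (R - 1) * ((p : ℤ) ^ j.val * (p : ℤ) ^ k.val) +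
          (R * e * (p : ℤ) ^ j.val - (p : ℤ) ^ j.val * e) := by rw [he]; ring
      rw [h2]
      refine ((pow_val_add j k).mul_left (R - 1)).add ?_
      refine Int.ModEq.sub ?_ (hEc j)
      have h3 : Q ∣ R * e * (p : ℤ) ^ j.val := Dvd.dvd.mul_right hRe _
      exact ((Int.modEq_zero_iff_dvd).mpr h3).trans ((Int.modEq_zero_iff_dvd).mpr (dvd_refl Q)).symm
    rw [h1]
    apply Int.emod_eq_of_lt
    · have := mul_pos (show (0 : ℤ) < R - 1 by linarith) x1
      linarith [hE1 j]
    · nlinarith [hRE1 j]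
  have hWa := hWs 1 one_pos (by linarith)
  have hWb := hWs (R - 1) (by linarith) (by linarith)
  have hsum : ∑ j : ZMod n, (Q - E j) = n * Q - ∑ j, E j := by
    rw [Finset.sum_sub_distrib, Finset.sum_const, Finset.card_univ, ZMod.card, nsmul_eq_mul]
  have hRQ : R < Q := by nlinarith
  rcases le_total (2 * ∑ j, E j) (n * Q) with hle | hle
  · refine ⟨R - 1, ?_, ?_⟩
    · intro h
      have := Int.le_of_dvd (by linarith) h
      linarith
    · rw [hW2, hWb, hsum]
      nlinarith
  · refine ⟨1, ?_, ?_⟩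
    · intro h
      have := Int.le_of_dvd (by norm_num) h
      linarith
    · rw [hW1, hWa]
      nlinarith

/-- one-dimensional lemma -/
theorem one_dim (n : ℕ) (hn : 1 ≤ n) (M d : ℤ) (hM : 16 * (n : ℤ) ^ 2 + 16 ≤ M) (hd : IsCoprime d M)
    (hd1 : ¬ M ∣ d - 1) : ∃ b : ℤ, ¬ M ∣ b ∧ ((n : ℤ) - 1) * M ≤ 2 * n * ((d * b) % M - b % M) := by
  have hn' : (1 : ℤ) ≤ n := by exact_mod_cast hn
  have hM0 : 0 < M := by nlinarith
  obtain ⟨j, u, hu0, huK, hju⟩ := Real.exists_int_int_abs_mul_sub_le ((d : ℝ) / M) (n := 2 * n)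
    (by omega)
  set m : ℤ := u * d - j * M with hm
  have hmM : (2 * (n : ℤ) + 1) * |m| ≤ M := by
    have hMr : (0 : ℝ) < M := by exact_mod_cast hM0
    have h1 : |(m : ℝ)| ≤ M / (2 * n + 1) := by
      have h2 : (m : ℝ) = (u * ((d : ℝ) / M) - j) * M := by
        rw [hm]; push_cast; field_simp
      rw [h2, abs_mul, abs_of_pos hMr]
      push_cast at hju
      calc |(u : ℝ) * (d / M) - j| * M ≤ 1 / (2 * n + 1) * M :=
            mul_le_mul_of_nonneg_right hju hMr.le
        _ = M / (2 * n + 1) := by ring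
    rw [le_div_iff₀ (by positivity)] at h1
    have h3 : ((|m| * (2 * (n : ℤ) + 1) : ℤ) : ℝ) ≤ ((M : ℤ) : ℝ) := by
      push_cast; exact h1
    have h4 : |m| * (2 * (n : ℤ) + 1) ≤ M := by exact_mod_cast h3
    linarith
  have huK' : u ≤ 2 * n := by exact_mod_cast huK
  have hdu : d * u ≡ m [ZMOD M] := by
    rw [hm, Int.modEq_iff_dvd]
    exact ⟨-j, by ring⟩
  have hmabs1 := le_abs_self m
  have hmabs2 := neg_abs_le m
  rcases lt_trichotomy m 0 with hneg | hzero | hpos
  · -- m < 0
    refine ⟨u, ?_, ?_⟩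
    · intro h
      have := Int.le_of_dvd hu0 h
      nlinarith
    · have e1 : (d * u) % M = m + M := by
        rw [hdu, ← Int.add_emod_right, Int.emod_eq_of_lt]
        · nlinarith
        · linarith
      have e2 : u % M = u := Int.emod_eq_of_lt hu0.le (by nlinarith)
      rw [e1, e2]
      have habs : |m| = -m := abs_of_neg hneg
      rw [habs] at hmM
      nlinarith
  · -- m = 0
    exfalso
    rw [hzero] at hdu
    have h1 : M ∣ d * u := (Int.modEq_zero_iff_dvd).mp hdu
    have h2 : M ∣ u := hd.symm.dvd_of_dvd_mul_left h1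
    have := Int.le_of_dvd hu0 h2
    nlinarith
  · rw [abs_of_pos hpos] at hmM
    by_cases hmu : m = u
    · -- torsion
      have hdvd : M ∣ u * (d - 1) := by
        have h1 := hdu.symm.dvd
        rw [hmu] at h1
        have h2 : u * (d - 1) = d * u - u := by ring
        rw [h2]; exact h1
      set D := (d - 1) % M with hD
      have hDc : d - 1 ≡ D [ZMOD M] := (Int.mod_modEq _ _).symm
      have hD0 : 0 < D := by
        have h1 : 0 ≤ D := Int.emod_nonneg _ hM0.ne'
        have h2 : D ≠ 0 := fun h => hd1 (Int.dvd_of_emod_eq_zero h)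
        omega
      have hD1 : D < M := Int.emod_lt_of_pos _ hM0
      have hdvdD : M ∣ u * D :=
        (Int.ModEq.dvd_iff (hDc.mul_left u)).mp hdvd
      have hb1 : M ≤ u * D := Int.le_of_dvd (mul_pos hu0 hD0) hdvdD
      have hb2 : M ≤ u * (M - D) := by
        apply Int.le_of_dvd (mul_pos hu0 (by linarith))
        rw [mul_sub]
        exact dvd_sub (Dvd.intro_left _ rfl) hdvdD
      have huM : u * u < M := by nlinarith
      have hDu : u < D := by nlinarith
      have hMD : 1 < M - D := by nlinarith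
      have hu2 : 2 ≤ u := by
        by_contra hcon
        have : u = 1 := by omega
        rw [this] at hb1
        linarith
      rcases le_total (2 * D) M with hle | hle
      · refine ⟨u - 1, ?_, ?_⟩
        · intro h
          have := Int.le_of_dvd (by linarith) h
          nlinarith
        · have h1 : d * (u - 1) ≡ (u - 1) + (M - D) [ZMOD M] := by
            have h2 : d * (u - 1) = (u - 1) + (u * (d - 1) - (d - 1)) := by ring
            rw [h2]
            refine Int.ModEq.add rfl (Int.ModEq.sub ?_ hDc)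
            exact ((Int.modEq_zero_iff_dvd).mpr hdvd).trans
              ((Int.modEq_zero_iff_dvd).mpr (dvd_refl M)).symm
          have e1 : (d * (u - 1)) % M = (u - 1) + (M - D) := by
            rw [h1]
            exact Int.emod_eq_of_lt (by linarith) (by linarith)
          have e2 : (u - 1) % M = u - 1 := Int.emod_eq_of_lt (by linarith) (by nlinarith)
          rw [e1, e2]
          nlinarith
      · refine ⟨1, ?_, ?_⟩
        · intro h
          have := Int.le_of_dvd (by norm_num) h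
          nlinarith
        · have h1 : d * 1 ≡ D + 1 [ZMOD M] := by
            have h2 : d * 1 = (d - 1) + 1 := by ring
            rw [h2]
            exact hDc.add rfl
          have e1 : (d * 1) % M = D + 1 := by
            rw [h1]
            exact Int.emod_eq_of_lt (by linarith) (by linarith)
          have e2 : (1 : ℤ) % M = 1 := Int.emod_eq_of_lt (by norm_num) (by nlinarith)
          rw [e1, e2]
          nlinarith
    · -- generic
      set w := m - u with hw
      have hw0 : w ≠ 0 := fun h => hmu (by linarith [sub_eq_zero.mp h])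
      have hwabs : (2 * (n : ℤ) + 1) * |w| ≤ M := by
        rcases abs_cases w with ⟨h, _⟩ | ⟨h, _⟩ <;> rw [h] <;> nlinarith
      have hwpos : 0 < |w| := abs_pos.mpr hw0
      set y := M / (2 * |w|) with hy
      have hy1 : 2 * |w| * y ≤ M := Int.mul_ediv_self_le (by linarith)
      have hy2 : M < 2 * |w| * y + 2 * |w| := Int.lt_mul_ediv_self_add (by linarith)
      have hy0 : 0 < y := by
        by_contra hcon
        push Not at hcon
        have : 2 * |w| * y ≤ 0 := by nlinarith
        nlinarith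
      set t := |w| * y with ht
      have ht1 : 2 * t ≤ M := by rw [ht]; linarith
      have ht2 : M < 2 * t + 2 * |w| := by rw [ht]; linarith
      have ht0 : 0 < t := mul_pos hwpos hy0
      set b := u * y with hb
      set A := (d * b) % M with hA
      set B := b % M with hBdef
      have hA0 : 0 ≤ A := Int.emod_nonneg _ hM0.ne'
      have hA1 : A < M := Int.emod_lt_of_pos _ hM0
      have hB0 : 0 ≤ B := Int.emod_nonneg _ hM0.ne'
      have hB1 : B < M := Int.emod_lt_of_pos _ hM0
      have hAB : A - B ≡ w * y [ZMOD M] := by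
        have h1 : A ≡ d * b [ZMOD M] := Int.mod_modEq _ _
        have h2 : B ≡ b [ZMOD M] := Int.mod_modEq _ _
        have h3 : d * b ≡ m * y [ZMOD M] := by
          have := hdu.mul_right y
          rw [hb]
          have h4 : d * (u * y) = d * u * y := by ring
          rw [h4]; exact this
        have h5 := (h1.trans h3).sub h2
        refine h5.trans ?_
        rw [hb, hw]
        have : m * y - u * y = (m - u) * y := by ring
        rw [this]
      -- |A - B| ≥ t
      have hcases : t ≤ A - B ∨ A - B ≤ -t := by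
        have hwy : w * y = t ∨ w * y = -t := by
          rcases abs_cases w with ⟨h, _⟩ | ⟨h, _⟩
          · left; rw [ht, h]
          · right; rw [ht, h]; ring
        by_contra hcon
        push Not at hcon
        obtain ⟨hc1, hc2⟩ := hcon
        have hq : w * y - (A - B) = 0 := by
          apply Int.eq_zero_of_abs_lt_dvd hAB.dvd
          rw [abs_lt]
          rcases hwy with h | h <;> rw [h] <;> constructor <;> linarith
        rcases hwy with h | h <;> rw [h] at hq <;> linarith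
      have hMb : ¬ M ∣ b := by
        intro h
        have h1 : B = 0 := Int.emod_eq_zero_of_dvd h
        have h2 : A = 0 := Int.emod_eq_zero_of_dvd (Dvd.dvd.mul_left h _)
        rw [h1, h2] at hcases
        rcases hcases with h | h <;> linarith
      have hMdb : ¬ M ∣ d * b := fun h => hMb (hd.symm.dvd_of_dvd_mul_left h)
      have hApos : 0 < A := lt_of_le_of_ne hA0 (fun h => hMdb (Int.dvd_of_emod_eq_zero h.symm))
      have hBpos : 0 < B := lt_of_le_of_ne hB0 (fun h => hMb (Int.dvd_of_emod_eq_zero h.symm))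
      have hn0 : (0 : ℤ) ≤ 2 * n := by linarith
      have hbound : ((n : ℤ) - 1) * M ≤ 2 * n * t := by
        have h1 := mul_le_mul_of_nonneg_left ht2.le (show (0 : ℤ) ≤ n by linarith)
        linarith
      rcases hcases with h | h
      · exact ⟨b, hMb, hbound.trans (mul_le_mul_of_nonneg_left h hn0)⟩
      · refine ⟨-b, fun h' => hMb ((dvd_neg).mp h'), ?_⟩
        have e1 : (d * -b) % M = M - A := by
          have h1 : d * -b ≡ M - A [ZMOD M] := by
            rw [mul_neg]
            have h2 : A ≡ d * b [ZMOD M] := Int.mod_modEq _ _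
            have h3 : M - A ≡ 0 - d * b [ZMOD M] :=
              ((Int.modEq_zero_iff_dvd).mpr (dvd_refl M)).sub h2
            rw [zero_sub] at h3
            exact h3.symm
          rw [h1]
          exact Int.emod_eq_of_lt (by linarith) (by linarith)
        have e2 : (-b) % M = M - B := by
          have h1 : -b ≡ M - B [ZMOD M] := by
            have h2 : B ≡ b [ZMOD M] := Int.mod_modEq _ _
            have h3 : M - B ≡ 0 - b [ZMOD M] :=
              ((Int.modEq_zero_iff_dvd).mpr (dvd_refl M)).sub h2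
            rw [zero_sub] at h3
            exact h3.symm
          rw [h1]
          exact Int.emod_eq_of_lt (by linarith) (by linarith)
        rw [e1, e2]
        refine hbound.trans (mul_le_mul_of_nonneg_left ?_ hn0)
        linarith

/-- exponents which are not `1` modulo `p - 1` -/
theorem good_nonmod (c : ℤ) (hc : 2 * c ≤ n - 1) :
    ∃ P0 : ℕ, ∀ p : ℕ, P0 ≤ p → ∀ d : ℤ, IsCoprime d ((p : ℤ) - 1) → ¬ ((p : ℤ) - 1) ∣ d - 1 →
      Good p n d c := by
  have hn := NeZero.pos n
  have hn' : (1 : ℤ) ≤ n := by exact_mod_cast hn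
  refine ⟨16 * n ^ 2 + 17, fun p hp d hd hd1 => ?_⟩
  have hp' : 16 * (n : ℤ) ^ 2 + 17 ≤ p := by exact_mod_cast hp
  obtain ⟨b, hb, hb2⟩ := one_dim n hn ((p : ℤ) - 1) d (by linarith) hd hd1
  have hG := G_mul (p := p) (n := n)
  have hM0 : (0 : ℤ) < (p : ℤ) - 1 := by nlinarith
  have hQ0 : (0 : ℤ) < (p : ℤ) ^ n - 1 := by
    have : (1 : ℤ) < (p : ℤ) ^ n := one_lt_pow₀ (by linarith) (by omega)
    linarith
  have hG0 : 0 < G p n := by
    by_contra hcon
    push Not at hcon
    nlinarith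
  have hW : ∀ b : ℤ, W p n (b * G p n) = n * (G p n * (b % ((p : ℤ) - 1))) := by
    intro b
    have h1 : ∀ j : ZMod n, ((p : ℤ) ^ j.val * (b * G p n)) % ((p : ℤ) ^ n - 1) =
        G p n * (b % ((p : ℤ) - 1)) := by
      intro j
      have h2 : (p : ℤ) ^ j.val * (b * G p n) ≡ b * G p n [ZMOD ((p : ℤ) ^ n - 1)] := by
        rw [Int.modEq_comm, Int.modEq_iff_dvd]
        have h3 : (p : ℤ) - 1 ∣ (p : ℤ) ^ j.val - 1 := sub_one_dvd_pow_sub_one _ _
        obtain ⟨q, hq⟩ := h3
        refine ⟨q * b, ?_⟩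
        rw [← hG]
        linear_combination (b * G p n) * hq
      rw [h2, ← hG, mul_comm b, mul_comm ((p : ℤ) - 1), Int.mul_emod_mul_of_pos _ _ hG0]
    unfold W
    rw [Finset.sum_congr rfl (fun j _ => h1 j), Finset.sum_const, Finset.card_univ, ZMod.card,
      nsmul_eq_mul]
  refine ⟨b * G p n, ?_, ?_⟩
  · intro h
    rw [← hG] at h
    exact hb ((mul_dvd_mul_iff_right hG0.ne').mp h)
  · rw [← mul_assoc, hW, hW, ← hG]
    have h1 := mul_le_mul_of_nonneg_right hb2 hG0.le
    have h2 := mul_le_mul_of_nonneg_right hc (mul_pos hM0 hG0).le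
    nlinarith

end

end Pool.Agent.Helper18.Katz
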