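import Mathlib

/-!
Support file for MP_0aa406_nt (helper18): a quantitative Kronecker theorem for the cyclic group
`ℤ/Q`, by a kernel argument.
-/

set_option autoImplicit false

namespace Pool.Agent.Helper18.Katz

open Finset

/-- `e(x) = exp(2πix)` -/
noncomputable def ee (x : ℝ) : ℂ := Complex.exp ((2 * Real.pi * x : ℝ) * Complex.I)

theorem ee_add (x y : ℝ) : ee (x + y) = ee x * ee y := by
  unfold ee; rw [← Complex.exp_add]; congr 1; push_cast; ring

theorem ee_zero : ee 0 = 1 := by simp [ee]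

theorem ee_norm (x : ℝ) : ‖ee x‖ = 1 := by
  unfold ee; exact Complex.norm_exp_ofReal_mul_I _

theorem ee_int (k : ℤ) : ee k = 1 := by
  unfold ee
  rw [Complex.exp_eq_one_iff]
  exact ⟨k, by push_cast; ring⟩

theorem ee_sum {ι : Type*} (s : Finset ι) (f : ι → ℝ) : ee (∑ i ∈ s, f i) = ∏ i ∈ s, ee (f i) := by
  classical
  induction s using Finset.induction_on with
  | empty => simp [ee_zero]
  | insert a s ha ih => rw [Finset.sum_insert ha, Finset.prod_insert ha, ee_add, ih]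

theorem ee_nat_mul (k : ℕ) (x : ℝ) : ee (k * x) = ee x ^ k := by
  induction k with
  | zero => simp [ee_zero]
  | succ k ih => rw [pow_succ, ← ih, ← ee_add]; congr 1; push_cast; ring

theorem ee_conj (x : ℝ) : (starRingEnd ℂ) (ee x) = ee (-x) := by
  unfold ee
  rw [← Complex.exp_conj, map_mul, Complex.conj_ofReal, Complex.conj_I]
  congr 1
  push_cast
  ring

theorem norm_one_sub_ee (x : ℝ) : ‖1 - ee x‖ ^ 2 = 2 - 2 * Real.cos (2 * Real.pi * x) := by
  rw [← Complex.normSq_eq_norm_sq, Complex.normSq_apply]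
  unfold ee
  rw [Complex.exp_mul_I, ← Complex.ofReal_cos, ← Complex.ofReal_sin]
  simp only [Complex.sub_re, Complex.one_re, Complex.add_re, Complex.ofReal_re, Complex.mul_re,
    Complex.I_re, mul_zero, Complex.ofReal_im, Complex.I_im, mul_one, sub_self, add_zero,
    Complex.sub_im, Complex.one_im, Complex.add_im, Complex.mul_im, zero_add, zero_sub]
  have := Real.sin_sq_add_cos_sq (2 * Real.pi * x)
  nlinarith

/-- orthogonality -/
theorem sum_ee (Q : ℕ) (hQ : 0 < Q) (x : ℤ) :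
    ∑ a ∈ range Q, ee (a * ((x : ℝ) / Q)) = if (Q : ℤ) ∣ x then (Q : ℂ) else 0 := by
  simp_rw [ee_nat_mul]
  have hQr : (Q : ℝ) ≠ 0 := by positivity
  split_ifs with h
  · obtain ⟨c, rfl⟩ := h
    have : ((((Q : ℤ) * c : ℤ) : ℝ) / Q) = c := by push_cast; field_simp
    rw [this, ee_int]
    simp
  · have h1 : ee ((x : ℝ) / Q) ≠ 1 := by
      intro h1
      unfold ee at h1
      rw [Complex.exp_eq_one_iff] at h1
      obtain ⟨k, hk⟩ := h1
      apply h
      refine ⟨k, ?_⟩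
      have h2 : (2 * Real.pi * ((x : ℝ) / Q) : ℝ) = k * (2 * Real.pi) := by
        have h3 := congrArg Complex.im hk
        simpa using h3
      have hpi := Real.pi_pos
      have h3 : (x : ℝ) = Q * k := by
        field_simp at h2
        linarith
      exact_mod_cast h3
    have h2 := geom_sum_eq h1 Q
    rw [h2]
    have h3 : ee ((x : ℝ) / Q) ^ Q = 1 := by
      rw [← ee_nat_mul]
      have : ((Q : ℝ) * ((x : ℝ) / Q)) = x := by field_simp
      rw [this, ee_int]
    rw [h3]; simp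

section kernel

variable {ι : Type*} [Fintype ι] [DecidableEq ι]

/-- phases -/
noncomputable def th (Q : ℕ) (α : ι → ℤ) (γ : ι → ℝ) (a : ℕ) (j : ι) : ℝ :=
  a * ((α j : ℝ) / Q) - γ j

/-- the kernel -/
noncomputable def DD (Q : ℕ) (α : ι → ℤ) (γ : ι → ℝ) (K : ι → Finset ℕ) (a : ℕ) : ℂ :=
  ∏ j, ∑ k ∈ K j, ee (k * th Q α γ a j)

/-- pairs -/
def PP (Q : ℕ) (α : ι → ℤ) (K : ι → Finset ℕ) : Finset ((ι → ℕ) × (ι → ℕ)) :=
  ((Fintype.piFinset K) ×ˢ (Fintype.piFinset K)).filter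
    (fun q => (Q : ℤ) ∣ ∑ j, ((q.1 j : ℤ) - q.2 j) * α j)

theorem DD_eq (Q : ℕ) (α : ι → ℤ) (γ : ι → ℝ) (K : ι → Finset ℕ) (a : ℕ) :
    DD Q α γ K a = ∑ k ∈ Fintype.piFinset K, ee (∑ j, k j * th Q α γ a j) := by
  unfold DD
  rw [Finset.prod_univ_sum]
  apply Finset.sum_congr rfl
  intro k _
  rw [ee_sum]

theorem sum_DD (Q : ℕ) (hQ : 0 < Q) (α : ι → ℤ) (γ : ι → ℝ) (r : ℕ)
    (hrel : ∀ k : ι → ℤ, (∀ j, |k j| ≤ r) → (Q : ℤ) ∣ ∑ j, k j * α j →
      ∃ t : ℤ, ∑ j, (k j : ℝ) * γ j = t)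
    (K : ι → Finset ℕ) (hK : ∀ j, K j ⊆ range (r + 1)) :
    ∑ a ∈ range Q, ‖DD Q α γ K a‖ ^ 2 = Q * (PP Q α K).card := by
  have hQr : (Q : ℝ) ≠ 0 := by positivity
  have h1 : ∀ a, ((‖DD Q α γ K a‖ ^ 2 : ℝ) : ℂ) =
      ∑ q ∈ (Fintype.piFinset K) ×ˢ (Fintype.piFinset K),
        ee (-∑ j, (((q.1 j : ℤ) - q.2 j : ℤ) : ℝ) * γ j) *
          ee (a * (((∑ j, ((q.1 j : ℤ) - q.2 j) * α j : ℤ) : ℝ) / Q)) := by
    intro a
    rw [← Complex.normSq_eq_norm_sq, Complex.normSq_eq_conj_mul_self, mul_comm, DD_eq, map_sum,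
      Finset.sum_mul_sum, ← Finset.sum_product']
    apply Finset.sum_congr rfl
    intro q _
    rw [ee_conj, ← ee_add, ← ee_add]
    congr 1
    unfold th
    push_cast
    rw [← Finset.sum_neg_distrib, ← Finset.sum_neg_distrib, ← Finset.sum_add_distrib,
      Finset.sum_div, Finset.mul_sum, ← Finset.sum_add_distrib]
    apply Finset.sum_congr rfl
    intro j _
    ring
  have h2 : ((∑ a ∈ range Q, ‖DD Q α γ K a‖ ^ 2 : ℝ) : ℂ) = ((Q * (PP Q α K).card : ℝ) : ℂ) := by
    push_cast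
    have h3 : ∀ a ∈ range Q, ((‖DD Q α γ K a‖ : ℂ)) ^ 2 =
      ∑ q ∈ (Fintype.piFinset K) ×ˢ (Fintype.piFinset K),
        ee (-∑ j, (((q.1 j : ℤ) - q.2 j : ℤ) : ℝ) * γ j) *
          ee (a * (((∑ j, ((q.1 j : ℤ) - q.2 j) * α j : ℤ) : ℝ) / Q)) := by
      intro a _
      rw [← h1 a]; push_cast; rfl
    rw [Finset.sum_congr rfl h3, Finset.sum_comm]
    have h4 : ∀ q ∈ (Fintype.piFinset K) ×ˢ (Fintype.piFinset K),
        (∑ a ∈ range Q, ee (-∑ j, (((q.1 j : ℤ) - q.2 j : ℤ) : ℝ) * γ j) *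
          ee (a * (((∑ j, ((q.1 j : ℤ) - q.2 j) * α j : ℤ) : ℝ) / Q))) =
        if (Q : ℤ) ∣ ∑ j, ((q.1 j : ℤ) - q.2 j) * α j then (Q : ℂ) else 0 := by
      intro q hq
      rw [← Finset.mul_sum, sum_ee Q hQ]
      split_ifs with h
      · obtain ⟨t, ht⟩ := hrel (fun j => (q.1 j : ℤ) - q.2 j) (by
          intro j
          rw [Finset.mem_product, Fintype.mem_piFinset, Fintype.mem_piFinset] at hq
          have a1 := Finset.mem_range.mp (hK j (hq.1 j))
          have a2 := Finset.mem_range.mp (hK j (hq.2 j))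
          rw [abs_le]
          constructor <;> omega) h
        rw [ht]
        have : (-(t : ℝ)) = ((-t : ℤ) : ℝ) := by push_cast; rfl
        rw [this, ee_int, one_mul]
      · rw [mul_zero]
    rw [Finset.sum_congr rfl h4, ← Finset.sum_filter, Finset.sum_const, nsmul_eq_mul, mul_comm]
    rfl
  exact_mod_cast h2

theorem card_PP (Q : ℕ) (α : ι → ℤ) (r : ℕ) (l : ι) :
    (r + 1) * (PP Q α (Function.update (fun _ : ι => range (r + 1)) l {0})).card ≤
      (PP Q α (fun _ => range (r + 1))).card := by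
  classical
  rw [← Finset.card_range (r + 1), ← Finset.card_product, Finset.card_range]
  apply Finset.card_le_card_of_injOn
    (fun x : ℕ × ((ι → ℕ) × (ι → ℕ)) => (Function.update x.2.1 l x.1, Function.update x.2.2 l x.1))
  · intro x hx
    simp only [Finset.coe_product, Set.mem_prod, Finset.mem_coe, PP, Finset.mem_filter,
      Finset.mem_product, Fintype.mem_piFinset] at hx ⊢
    obtain ⟨h1, ⟨h2, h3⟩, h4⟩ := hx
    refine ⟨⟨?_, ?_⟩, ?_⟩
    · intro j
      by_cases hj : j = l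
      · subst hj; simpa using h1
      · have := h2 j
        rw [Function.update_of_ne hj] at this
        rw [Function.update_of_ne hj]
        exact this
    · intro j
      by_cases hj : j = l
      · subst hj; simpa using h1
      · have := h3 j
        rw [Function.update_of_ne hj] at this
        rw [Function.update_of_ne hj]
        exact this
    · convert h4 using 1
      apply Finset.sum_congr rfl
      intro j _
      by_cases hj : j = l
      · subst hj
        have a1 := h2 j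
        have a2 := h3 j
        simp only [Function.update_self, Finset.mem_singleton] at a1 a2
        simp [a1, a2]
      · rw [Function.update_of_ne hj, Function.update_of_ne hj]
  · rintro ⟨t, x, y⟩ hx ⟨t', x', y'⟩ hx' heq
    simp only [Finset.coe_product, Set.mem_prod, Finset.mem_coe, PP, Finset.mem_filter,
      Finset.mem_product, Fintype.mem_piFinset] at hx hx'
    simp only [Prod.mk.injEq] at heq ⊢
    obtain ⟨e1, e2⟩ := heq
    have ht : t = t' := by
      have := congrFun e1 l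
      simpa using this
    refine ⟨ht, ?_, ?_⟩
    · ext j
      by_cases hj : j = l
      · subst hj
        have a1 := hx.2.1.1 j
        have a2 := hx'.2.1.1 j
        simp only [Function.update_self, Finset.mem_singleton] at a1 a2
        rw [a1, a2]
      · have := congrFun e1 j
        rwa [Function.update_of_ne hj, Function.update_of_ne hj] at this
    · ext j
      by_cases hj : j = l
      · subst hj
        have a1 := hx.2.1.2 j
        have a2 := hx'.2.1.2 j
        simp only [Function.update_self, Finset.mem_singleton] at a1 a2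
        rw [a1, a2]
      · have := congrFun e2 j
        rwa [Function.update_of_ne hj, Function.update_of_ne hj] at this

theorem DD_pointwise (Q : ℕ) (α : ι → ℤ) (γ : ι → ℝ) (r : ℕ) (l : ι) (a : ℕ) :
    ‖1 - ee (th Q α γ a l)‖ ^ 2 * ‖DD Q α γ (fun _ => range (r + 1)) a‖ ^ 2 ≤
      4 * ‖DD Q α γ (Function.update (fun _ : ι => range (r + 1)) l {0}) a‖ ^ 2 := by
  have h1 : (1 - ee (th Q α γ a l)) * DD Q α γ (fun _ => range (r + 1)) a =
      (1 - ee (th Q α γ a l) ^ (r + 1)) *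
        DD Q α γ (Function.update (fun _ : ι => range (r + 1)) l {0}) a := by
    unfold DD
    rw [← Finset.mul_prod_erase univ _ (mem_univ l), ← Finset.mul_prod_erase univ
      (fun j => ∑ k ∈ (Function.update (fun _ : ι => range (r + 1)) l {0}) j,
        ee (k * th Q α γ a j)) (mem_univ l)]
    rw [Function.update_self, Finset.sum_singleton]
    have h2 : ∏ j ∈ univ.erase l, ∑ k ∈ (Function.update (fun _ : ι => range (r + 1)) l {0}) j,
        ee (k * th Q α γ a j) = ∏ j ∈ univ.erase l, ∑ k ∈ range (r + 1), ee (k * th Q α γ a j) := by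
      apply Finset.prod_congr rfl
      intro j hj
      rw [Function.update_of_ne (Finset.ne_of_mem_erase hj)]
    rw [h2]
    simp_rw [ee_nat_mul]
    rw [← mul_assoc, mul_neg_geom_sum]
    simp
  rw [← mul_pow, ← norm_mul, h1, norm_mul, mul_pow]
  apply mul_le_mul_of_nonneg_right _ (by positivity)
  have h3 : ‖1 - ee (th Q α γ a l) ^ (r + 1)‖ ≤ 2 := by
    refine (norm_sub_le _ _).trans ?_
    rw [norm_pow, ee_norm]
    norm_num
  calc ‖1 - ee (th Q α γ a l) ^ (r + 1)‖ ^ 2 ≤ 2 ^ 2 := by gcongr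
    _ = 4 := by norm_num

/-- Quantitative Kronecker theorem. -/
theorem kronecker (Q : ℕ) (hQ : 0 < Q) (α : ι → ℤ) (γ : ι → ℝ) (r : ℕ)
    (hrel : ∀ k : ι → ℤ, (∀ j, |k j| ≤ r) → (Q : ℤ) ∣ ∑ j, k j * α j →
      ∃ t : ℤ, ∑ j, (k j : ℝ) * γ j = t) :
    ∃ a : ℕ, a < Q ∧ ∀ l, (r + 1) * (1 - Real.cos (2 * Real.pi * th Q α γ a l)) ≤
      2 * Fintype.card ι := by
  set K : ι → Finset ℕ := fun _ => range (r + 1) with hK
  set S := ∑ a ∈ range Q, ‖DD Q α γ K a‖ ^ 2 with hS
  have hSeq : S = Q * (PP Q α K).card := sum_DD Q hQ α γ r hrel K (fun _ => subset_rfl)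
  have hPP : 0 < (PP Q α K).card := by
    apply Finset.card_pos.mpr
    refine ⟨(fun _ => 0, fun _ => 0), ?_⟩
    simp [PP, K]
  have hSpos : 0 < S := by
    rw [hSeq]; positivity
  have hr : (0 : ℝ) < r + 1 := by positivity
  -- for every l
  have hl : ∀ l, (r + 1) * ∑ a ∈ range Q, ‖1 - ee (th Q α γ a l)‖ ^ 2 * ‖DD Q α γ K a‖ ^ 2 ≤
      4 * S := by
    intro l
    have h1 : ∑ a ∈ range Q, ‖1 - ee (th Q α γ a l)‖ ^ 2 * ‖DD Q α γ K a‖ ^ 2 ≤
        ∑ a ∈ range Q, 4 * ‖DD Q α γ (Function.update K l {0}) a‖ ^ 2 :=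
      Finset.sum_le_sum (fun a _ => DD_pointwise Q α γ r l a)
    rw [← Finset.mul_sum, sum_DD Q hQ α γ r hrel (Function.update K l {0}) (by
      intro j
      by_cases hj : j = l
      · subst hj; simp
      · rw [Function.update_of_ne hj])] at h1
    have h2 : (((r + 1) * (PP Q α (Function.update K l {0})).card : ℕ) : ℝ) ≤
        ((PP Q α K).card : ℝ) := by
      exact_mod_cast card_PP Q α r l
    push_cast at h2
    have h3 := mul_le_mul_of_nonneg_left h1 hr.le
    have hQ' : (0 : ℝ) < Q := by positivity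
    have h4 := mul_le_mul_of_nonneg_left h2 hQ'.le
    rw [hSeq]
    linarith
  by_contra hcon
  push Not at hcon
  have h5 : ∀ a ∈ range Q, 4 * Fintype.card ι * ‖DD Q α γ K a‖ ^ 2 ≤
      (r + 1) * ∑ l, ‖1 - ee (th Q α γ a l)‖ ^ 2 * ‖DD Q α γ K a‖ ^ 2 := by
    intro a ha
    obtain ⟨l0, hl0⟩ := hcon a (Finset.mem_range.mp ha)
    rw [← Finset.sum_mul, ← mul_assoc]
    apply mul_le_mul_of_nonneg_right _ (by positivity)
    have h6 : ‖1 - ee (th Q α γ a l0)‖ ^ 2 ≤ ∑ l, ‖1 - ee (th Q α γ a l)‖ ^ 2 :=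
      Finset.single_le_sum (f := fun l => ‖1 - ee (th Q α γ a l)‖ ^ 2) (fun _ _ => by positivity)
        (mem_univ l0)
    rw [norm_one_sub_ee] at h6
    have h7 := mul_le_mul_of_nonneg_left h6 hr.le
    linarith
  have e1 : ∑ l, (r + 1) * ∑ a ∈ range Q, ‖1 - ee (th Q α γ a l)‖ ^ 2 * ‖DD Q α γ K a‖ ^ 2 =
      ∑ a ∈ range Q, (r + 1) * ∑ l, ‖1 - ee (th Q α γ a l)‖ ^ 2 * ‖DD Q α γ K a‖ ^ 2 := by
    rw [← Finset.mul_sum, Finset.sum_comm, Finset.mul_sum]
  have e2 : 4 * Fintype.card ι * S = ∑ a ∈ range Q, 4 * Fintype.card ι * ‖DD Q α γ K a‖ ^ 2 := by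
    rw [hS, Finset.mul_sum]
  -- strict version: some a with DD ≠ 0
  obtain ⟨a0, ha0, hpos⟩ : ∃ a ∈ range Q, 0 < ‖DD Q α γ K a‖ ^ 2 := by
    by_contra hcon2
    push Not at hcon2
    have : S ≤ 0 := Finset.sum_nonpos hcon2
    linarith
  have h10 : 4 * Fintype.card ι * S <
      ∑ l, (r + 1) * ∑ a ∈ range Q, ‖1 - ee (th Q α γ a l)‖ ^ 2 * ‖DD Q α γ K a‖ ^ 2 := by
    rw [e1, e2]
    refine Finset.sum_lt_sum h5 ⟨a0, ha0, ?_⟩
    obtain ⟨l0, hl0⟩ := hcon a0 (Finset.mem_range.mp ha0)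
    rw [← Finset.sum_mul, ← mul_assoc]
    apply mul_lt_mul_of_pos_right _ hpos
    have h6 : ‖1 - ee (th Q α γ a0 l0)‖ ^ 2 ≤ ∑ l, ‖1 - ee (th Q α γ a0 l)‖ ^ 2 :=
      Finset.single_le_sum (f := fun l => ‖1 - ee (th Q α γ a0 l)‖ ^ 2) (fun _ _ => by positivity)
        (mem_univ l0)
    rw [norm_one_sub_ee] at h6
    have h7 := mul_le_mul_of_nonneg_left h6 hr.le
    linarith
  have h11 : ∑ l, (r + 1) * ∑ a ∈ range Q, ‖1 - ee (th Q α γ a l)‖ ^ 2 * ‖DD Q α γ K a‖ ^ 2 ≤
      ∑ _l : ι, 4 * S := Finset.sum_le_sum (fun l _ => hl l)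
  rw [Finset.sum_const, Finset.card_univ, nsmul_eq_mul] at h11
  linarith

end kernel

end Pool.Agent.Helper18.Katz
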