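import Pool.Agent.Helper18.Katz4
import Pool.Agent.Helper18.Katz5

/-!
Support file for MP_0aa406_nt (helper18): the generic case, by the Kronecker theorem.
-/

set_option autoImplicit false

namespace Pool.Agent.Helper18.Katz

open Finset

theorem near_int {t δ : ℝ} {n : ℕ} {r : ℝ} (hr : 0 < r)
    (h : r * (1 - Real.cos (2 * Real.pi * t)) ≤ 4 * n) (hδ : 0 ≤ δ) (hr2 : (n : ℝ) ≤ 2 * r * δ ^ 2) :
    ∃ k : ℤ, |t - k| ≤ δ := by
  refine ⟨round t, ?_⟩
  have h1 : |t - round t| ≤ 1 / 2 := abs_sub_round t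
  have hpi := Real.pi_pos
  have h2 : Real.cos (2 * Real.pi * t) = Real.cos (2 * Real.pi * (t - round t)) := by
    have : 2 * Real.pi * (t - round t) = 2 * Real.pi * t - round t * (2 * Real.pi) := by ring
    rw [this, Real.cos_sub_int_mul_two_pi]
  have h3 : |2 * Real.pi * (t - round t)| ≤ Real.pi := by
    rw [abs_mul, abs_of_pos (by positivity)]
    nlinarith
  have h4 := Real.cos_le_one_sub_mul_cos_sq h3
  rw [h2] at h
  have h5 : 2 / Real.pi ^ 2 * (2 * Real.pi * (t - round t)) ^ 2 = 8 * (t - round t) ^ 2 := by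
    field_simp; ring
  rw [h5] at h4
  have h6 : r * (8 * (t - round t) ^ 2) ≤ 4 * n := by nlinarith
  have h7 : r * (8 * (t - round t) ^ 2) ≤ r * (8 * δ ^ 2) := by linarith
  have h8 : (t - round t) ^ 2 ≤ δ ^ 2 := by
    have := le_of_mul_le_mul_left h7 hr
    linarith
  exact abs_le_of_sq_le_sq h8 hδ

theorem near_zero {x c δ : ℝ} {k : ℤ} (hx0 : 0 ≤ x) (hx1 : x < 1) (hc0 : δ ≤ c) (hc1 : c < 1 - δ)
    (h : |x - c - k| ≤ δ) : |x - c| ≤ δ := by
  have h1 := abs_le.mp h
  have hk : k = 0 := by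
    have k1 : (k : ℝ) < 1 := by linarith
    have k2 : (-1 : ℝ) < k := by linarith
    have k1' : k < 1 := by exact_mod_cast k1
    have k2' : -1 < k := by exact_mod_cast k2
    omega
  rw [hk] at h
  simpa using h

theorem good_generic (n : ℕ) [NeZero n] (s : ℕ) (hs : n = 2 * s + 1) (hs1 : 1 ≤ s) (c : ℤ)
    (hc : 2 * c ≤ n - 1) (p : ℕ) (hp : 2 ≤ p) (d : ℤ)
    (hrel : ∀ u m : ZMod n → ℤ, (∀ i, |u i| ≤ 32 * (n : ℤ) ^ 3) → (∀ i, |m i| ≤ 32 * (n : ℤ) ^ 3) →
      d * ∑ i, u i * (p : ℤ) ^ i.val ≡ ∑ i, m i * (p : ℤ) ^ i.val [ZMOD ((p : ℤ) ^ n - 1)] →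
      ∃ t, (∀ i, u i = t) ∧ ∀ i, m i = t) : Good p n d c := by
  have hpn : 1 < p ^ n := Nat.one_lt_pow (by omega) (by omega)
  set Q : ℕ := p ^ n - 1 with hQ
  have hQ0 : 0 < Q := by omega
  have hQz : ((Q : ℕ) : ℤ) = (p : ℤ) ^ n - 1 := by
    rw [hQ, Nat.cast_sub hpn.le]; push_cast; rfl
  have hnr : (3 : ℝ) ≤ n := by
    have : 3 ≤ n := by omega
    exact_mod_cast this
  have hn0 : (0 : ℝ) < n := by linarith
  -- centres
  set c0 : ℝ := ((n : ℝ) - 1) / (4 * n) with hc0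
  set c1 : ℝ := (3 * (n : ℝ) + 1) / (4 * n) with hc1
  set δ : ℝ := 1 / (8 * n) with hδ
  have hδ0 : 0 < δ := by positivity
  have hc0δ : δ < c0 := by
    rw [hδ, hc0, div_lt_div_iff₀ (by positivity) (by positivity)]
    nlinarith
  have hc0δ' : c0 < 1 - δ := by
    rw [hδ, hc0, lt_sub_iff_add_lt, div_add_div _ _ (by positivity) (by positivity),
      div_lt_one (by positivity)]
    nlinarith
  have hc1δ : δ < c1 := by
    rw [hδ, hc1, div_lt_div_iff₀ (by positivity) (by positivity)]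
    nlinarith
  have hc1δ' : c1 < 1 - δ := by
    rw [hδ, hc1, lt_sub_iff_add_lt, div_add_div _ _ (by positivity) (by positivity),
      div_lt_one (by positivity)]
    nlinarith
  set α : (ZMod n ⊕ ZMod n) → ℤ := Sum.elim (fun j => (p : ℤ) ^ j.val) (fun j => d * (p : ℤ) ^ j.val)
    with hα
  set γ : (ZMod n ⊕ ZMod n) → ℝ := Sum.elim (fun _ => c0) (fun _ => c1) with hγ
  obtain ⟨a, haQ, ha⟩ := kronecker Q hQ0 α γ (32 * n ^ 3) (by
    intro k hk hdvd
    rw [hQz] at hdvd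
    obtain ⟨t, ht1, ht2⟩ := hrel (fun j => k (Sum.inr j)) (fun j => -k (Sum.inl j))
      (by intro i; have := hk (Sum.inr i); push_cast at this; exact this)
      (by intro i; have := hk (Sum.inl i); push_cast at this; rw [abs_neg]; exact this)
      (by
        rw [Int.modEq_comm, Int.modEq_iff_dvd]
        convert hdvd using 1
        rw [Fintype.sum_sum_type]
        simp only [hα, Sum.elim_inl, Sum.elim_inr, neg_mul, Finset.sum_neg_distrib, sub_neg_eq_add]
        rw [add_comm, Finset.mul_sum]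
        congr 1
        apply Finset.sum_congr rfl
        intro j _
        ring)
    refine ⟨t * (s + 1), ?_⟩
    rw [Fintype.sum_sum_type]
    simp only [hγ, Sum.elim_inl, Sum.elim_inr]
    have e1 : ∀ j : ZMod n, ((k (Sum.inl j) : ℤ) : ℝ) * c0 = -(t : ℝ) * c0 := by
      intro j
      have := ht2 j
      have h2 : k (Sum.inl j) = -t := by linarith
      rw [h2]; push_cast; ring
    have e2 : ∀ j : ZMod n, ((k (Sum.inr j) : ℤ) : ℝ) * c1 = (t : ℝ) * c1 := by
      intro j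
      have := ht1 j
      rw [show k (Sum.inr j) = t from this]
    rw [Finset.sum_congr rfl (fun j _ => e1 j), Finset.sum_congr rfl (fun j _ => e2 j),
      Finset.sum_const, Finset.sum_const, Finset.card_univ, ZMod.card, nsmul_eq_mul, nsmul_eq_mul,
      hc0, hc1]
    have hns : (n : ℝ) = 2 * s + 1 := by rw [hs]; push_cast; ring
    push_cast
    field_simp
    rw [hns]
    ring)
  rw [Fintype.card_sum, ZMod.card] at ha
  push_cast at ha
  -- consequence
  have hnear : ∀ l, ∃ k : ℤ, |th Q α γ a l - k| ≤ δ := by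
    intro l
    apply near_int (n := n) (r := 32 * (n : ℝ) ^ 3 + 1) (by positivity) _ hδ0.le
    · rw [hδ]
      have : 2 * (32 * (n : ℝ) ^ 3 + 1) * (1 / (8 * n)) ^ 2 = n + 1 / (32 * n ^ 2) := by
        field_simp; ring
      rw [this]
      have : 0 < 1 / (32 * (n : ℝ) ^ 2) := by positivity
      linarith
    · have := ha l
      linarith
  -- residues
  have hQr : (0 : ℝ) < Q := by exact_mod_cast hQ0
  have hres : ∀ (x : ℤ) (cc : ℝ), δ ≤ cc → cc < 1 - δ →
      (∃ k : ℤ, |(a : ℝ) * ((x : ℝ) / Q) - cc - k| ≤ δ) →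
      |(((x * a) % (Q : ℤ) : ℤ) : ℝ) / Q - cc| ≤ δ := by
    intro x cc h1 h2 ⟨k, hk⟩
    have hQz0 : (0 : ℤ) < Q := by exact_mod_cast hQ0
    have e1 := Int.emod_add_mul_ediv (x * a) Q
    have e0 := Int.emod_nonneg (x * a) hQz0.ne'
    have e2 := Int.emod_lt_of_pos (x * a) hQz0
    apply near_zero (k := k - (x * a) / Q)
    · apply div_nonneg _ hQr.le
      exact_mod_cast e0
    · rw [div_lt_one hQr]
      exact_mod_cast e2
    · exact h1
    · exact h2
    · convert hk using 2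
      have e3 : (((x * a) % (Q : ℤ) : ℤ) : ℝ) + Q * (((x * a) / (Q : ℤ) : ℤ) : ℝ) = x * a := by
        exact_mod_cast e1
      have e4 : (((x * a) % (Q : ℤ) : ℤ) : ℝ) = x * a - Q * (((x * a) / (Q : ℤ) : ℤ) : ℝ) := by
        linarith
      rw [e4]
      push_cast
      field_simp
      ring
  have hA : ∀ j : ZMod n, |((((p : ℤ) ^ j.val * a) % (Q : ℤ) : ℤ) : ℝ) / Q - c0| ≤ δ := by
    intro j
    apply hres _ _ hc0δ.le hc0δ'
    have := hnear (Sum.inl j)
    unfold th at this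
    simpa only [hα, hγ, Sum.elim_inl] using this
  have hB : ∀ j : ZMod n, |((((d * (p : ℤ) ^ j.val) * a) % (Q : ℤ) : ℤ) : ℝ) / Q - c1| ≤ δ := by
    intro j
    apply hres _ _ hc1δ.le hc1δ'
    have := hnear (Sum.inr j)
    unfold th at this
    simpa only [hα, hγ, Sum.elim_inr] using this
  refine ⟨a, ?_, ?_⟩
  · rw [← hQz]
    intro hdvd
    have h1 := hA 0
    have h2 : ((p : ℤ) ^ (0 : ZMod n).val * a) % (Q : ℤ) = 0 :=
      Int.emod_eq_zero_of_dvd (Dvd.dvd.mul_left hdvd _)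
    rw [h2] at h1
    simp only [Int.cast_zero, zero_div, zero_sub, abs_neg] at h1
    rw [abs_of_pos (by linarith)] at h1
    linarith
  · -- sum up
    have hW1 : ((W p n a : ℤ) : ℝ) ≤ n * (Q * (c0 + δ)) := by
      unfold W
      rw [← hQz]
      push_cast
      have : ∑ j : ZMod n, ((((p : ℤ) ^ j.val * a) % (Q : ℤ) : ℤ) : ℝ) ≤
          ∑ _j : ZMod n, (Q * (c0 + δ) : ℝ) := by
        apply Finset.sum_le_sum
        intro j _
        have h1 := (abs_le.mp (hA j)).2
        have h2 : ((((p : ℤ) ^ j.val * a) % (Q : ℤ) : ℤ) : ℝ) / Q ≤ c0 + δ := by linarith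
        rw [div_le_iff₀ hQr] at h2
        linarith
      rw [Finset.sum_const, Finset.card_univ, ZMod.card, nsmul_eq_mul] at this
      exact this
    have hW2 : n * (Q * (c1 - δ)) ≤ ((W p n (d * a) : ℤ) : ℝ) := by
      unfold W
      rw [← hQz]
      push_cast
      have : ∑ _j : ZMod n, (Q * (c1 - δ) : ℝ) ≤
          ∑ j : ZMod n, ((((p : ℤ) ^ j.val * (d * a)) % (Q : ℤ) : ℤ) : ℝ) := by
        apply Finset.sum_le_sum
        intro j _
        have h0 : (p : ℤ) ^ j.val * (d * a) = (d * (p : ℤ) ^ j.val) * a := by ring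
        rw [h0]
        have h1 := (abs_le.mp (hB j)).1
        have h2 : c1 - δ ≤ ((((d * (p : ℤ) ^ j.val) * a) % (Q : ℤ) : ℤ) : ℝ) / Q := by linarith
        rw [le_div_iff₀ hQr] at h2
        linarith
      rw [Finset.sum_const, Finset.card_univ, ZMod.card, nsmul_eq_mul] at this
      exact this
    have hcc : n * (c1 - c0 - 2 * δ) = (n : ℝ) / 2 + 1 / 4 := by
      rw [hc0, hc1, hδ]; field_simp; ring
    have hcr : 2 * (c : ℝ) ≤ n - 1 := by exact_mod_cast hc
    have hfin : ((2 * c * ((p : ℤ) ^ n - 1) : ℤ) : ℝ) ≤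
        ((2 * (W p n (d * a) - W p n a) : ℤ) : ℝ) := by
      rw [← hQz]
      push_cast
      have h1 : (Q : ℝ) * ((n : ℝ) / 2 + 1 / 4) ≤ (W p n (d * a) : ℝ) - (W p n a : ℝ) := by
        rw [← hcc]
        linarith
      have h2 : 2 * (c : ℝ) * Q ≤ (n - 1) * Q := mul_le_mul_of_nonneg_right hcr hQr.le
      nlinarith
    exact_mod_cast hfin

end Pool.Agent.Helper18.Katz
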