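import Mathlib

/-!
Support file for MP_0aa406_nt (helper18): algebra of relations (`Φ_n` irreducible, `n` prime).
-/

set_option autoImplicit false

namespace Pool.Agent.Helper18.Katz

open Finset Polynomial

variable {n : ℕ}

/-- polynomial attached to a vector -/
noncomputable def toPoly (n : ℕ) [NeZero n] (u : ZMod n → ℤ) : ℤ[X] := ∑ i : ZMod n, C (u i) * X ^ i.val

/-- fold a polynomial modulo `X ^ n - 1` -/
noncomputable def fold (n : ℕ) (F : ℤ[X]) (k : ZMod n) : ℤ :=
  ∑ j ∈ range (F.natDegree + 1), if ((j : ℕ) : ZMod n) = k then F.coeff j else 0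

theorem eval_toPoly [NeZero n] (u : ZMod n → ℤ) (x : ℤ) :
    (toPoly n u).eval x = ∑ i : ZMod n, u i * x ^ i.val := by
  unfold toPoly
  rw [eval_finsetSum]
  simp

theorem coeff_toPoly [NeZero n] (u : ZMod n → ℤ) (j : ZMod n) : (toPoly n u).coeff j.val = u j := by
  unfold toPoly
  rw [finsetSum_coeff]
  simp only [coeff_C_mul, coeff_X_pow]
  rw [Finset.sum_eq_single j]
  · simp
  · intro b _ hb
    have : ¬ j.val = b.val := fun h => hb (ZMod.val_injective n h.symm)
    simp [this]
  · intro h; exact absurd (mem_univ _) h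

theorem natDegree_toPoly_lt [NeZero n] (u : ZMod n → ℤ) : (toPoly n u).natDegree < n := by
  have hn := NeZero.pos n
  have : (toPoly n u).natDegree ≤ n - 1 := by
    unfold toPoly
    apply natDegree_sum_le_of_forall_le
    intro i _
    refine (natDegree_C_mul_X_pow_le _ _).trans ?_
    have := ZMod.val_lt i
    omega
  omega

theorem sum_fold [NeZero n] (F : ℤ[X]) : ∑ k, fold n F k = F.eval 1 := by
  unfold fold
  rw [Finset.sum_comm, eval_eq_sum_range]
  apply Finset.sum_congr rfl
  intro j _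
  simp

theorem fold_eval [NeZero n] (F : ℤ[X]) (p : ℤ) :
    ∑ k, fold n F k * p ^ k.val ≡ F.eval p [ZMOD (p ^ n - 1)] := by
  unfold fold
  simp_rw [Finset.sum_mul]
  rw [Finset.sum_comm, eval_eq_sum_range]
  apply Int.ModEq.sum
  intro j _
  rw [Finset.sum_eq_single (j : ZMod n)]
  · rw [if_pos rfl, ZMod.val_natCast]
    apply Int.ModEq.mul_left
    have h1 : p ^ n ≡ 1 [ZMOD (p ^ n - 1)] := by
      rw [Int.modEq_comm]
      exact (Int.modEq_iff_dvd).mpr (dvd_refl _)
    have h2 := (h1.pow (j / n)).mul_right (p ^ (j % n))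
    rw [one_pow, one_mul, ← pow_mul, ← pow_add, Nat.div_add_mod] at h2
    exact h2.symm
  · intro b _ hb
    rw [if_neg (fun h => hb h.symm), zero_mul]
  · intro h; exact absurd (mem_univ _) h

theorem coprime_rat [NeZero n] (hn : n.Prime) (u : ZMod n → ℤ) (hu : ¬ ∃ c, ∀ i, u i = c)
    (hsum : ∑ i, u i ≠ 0) :
    IsCoprime ((toPoly n u).map (Int.castRingHom ℚ)) (X ^ n - 1 : ℚ[X]) := by
  have hfac : Fact n.Prime := ⟨hn⟩
  set Uq := (toPoly n u).map (Int.castRingHom ℚ) with hUq
  have hcoef : ∀ j : ZMod n, Uq.coeff j.val = (u j : ℚ) := by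
    intro j
    rw [hUq, coeff_map, coeff_toPoly]; simp
  rw [← cyclotomic_prime_mul_X_sub_one ℚ n]
  refine IsCoprime.mul_right ?_ ?_
  · apply IsCoprime.symm
    rw [(cyclotomic.irreducible_rat hn.pos).coprime_iff_not_dvd]
    rintro ⟨w, hw⟩
    apply hu
    have hU0 : Uq ≠ 0 := by
      intro h0
      apply hu
      refine ⟨0, fun i => ?_⟩
      have := hcoef i
      rw [h0, coeff_zero] at this
      exact_mod_cast this.symm
    have hw0 : w ≠ 0 := by
      rintro rfl
      rw [mul_zero] at hw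
      exact hU0 hw
    have hdeg : w.natDegree = 0 := by
      have h1 : Uq.natDegree = (cyclotomic n ℚ).natDegree + w.natDegree := by
        rw [hw, natDegree_mul (cyclotomic_ne_zero n ℚ) hw0]
      rw [natDegree_cyclotomic, Nat.totient_prime hn] at h1
      have h2 : Uq.natDegree < n := by
        refine lt_of_le_of_lt natDegree_map_le (natDegree_toPoly_lt u)
      omega
    obtain ⟨c, hc⟩ : ∃ c : ℚ, w = C c := ⟨w.coeff 0, eq_C_of_natDegree_eq_zero hdeg⟩
    have hval : ∀ i : ZMod n, (u i : ℚ) = c := by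
      intro i
      rw [← hcoef i, hw, hc, coeff_mul_C, cyclotomic_prime, finsetSum_coeff]
      simp only [coeff_X_pow]
      rw [Finset.sum_ite_eq]
      rw [if_pos (Finset.mem_range.mpr (ZMod.val_lt i)), one_mul]
    refine ⟨u 0, fun i => ?_⟩
    have := (hval i).trans (hval 0).symm
    exact_mod_cast this
  · apply IsCoprime.symm
    have hirr : Irreducible (X - 1 : ℚ[X]) := by
      have := irreducible_X_sub_C (1 : ℚ)
      simpa using this
    rw [hirr.coprime_iff_not_dvd]
    intro hdvd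
    apply hsum
    have h1 : (X - C 1 : ℚ[X]) ∣ Uq := by simpa using hdvd
    rw [dvd_iff_isRoot, IsRoot.def] at h1
    rw [hUq] at h1
    have h2 : eval (1 : ℚ) ((toPoly n u).map (Int.castRingHom ℚ)) = (((toPoly n u).eval 1 : ℤ) : ℚ) := by
      have := eval_intCast_map (Int.castRingHom ℚ) (toPoly n u) 1
      simpa using this
    rw [h2, eval_toPoly] at h1
    have h3 : (∑ i : ZMod n, u i * (1 : ℤ) ^ i.val) = 0 := by exact_mod_cast h1
    simpa using h3

theorem bezout_int [NeZero n] (hn : n.Prime) (u : ZMod n → ℤ) (hu : ¬ ∃ c, ∀ i, u i = c)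
    (hsum : ∑ i, u i ≠ 0) :
    ∃ (A B : ℤ[X]) (R : ℤ), 0 < R ∧ A * toPoly n u + B * (X ^ n - 1) = C R := by
  obtain ⟨A', B', hAB⟩ := coprime_rat hn u hu hsum
  obtain ⟨b1, hb1⟩ := IsLocalization.integerNormalization_map_to_map (nonZeroDivisors ℤ) A'
  obtain ⟨b2, hb2⟩ := IsLocalization.integerNormalization_map_to_map (nonZeroDivisors ℤ) B'
  set A1 := IsLocalization.integerNormalization (nonZeroDivisors ℤ) A'
  set B1 := IsLocalization.integerNormalization (nonZeroDivisors ℤ) B'
  set r1 : ℤ := (b1 : ℤ) with hr1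
  set r2 : ℤ := (b2 : ℤ) with hr2
  have hr10 : r1 ≠ 0 := nonZeroDivisors.ne_zero b1.2
  have hr20 : r2 ≠ 0 := nonZeroDivisors.ne_zero b2.2
  refine ⟨C (r1 * r2 * r2) * A1, C (r1 * r2 * r1) * B1, (r1 * r2) ^ 2, by positivity, ?_⟩
  have hinj : Function.Injective (Polynomial.map (Int.castRingHom ℚ)) :=
    map_injective _ (RingHom.injective_int (Int.castRingHom ℚ))
  apply hinj
  have e1 : A1.map (Int.castRingHom ℚ) = C (r1 : ℚ) * A' := by
    have := hb1
    rw [show (algebraMap ℤ ℚ) = Int.castRingHom ℚ from rfl] at this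
    rw [this]
    ext k
    simp [hr1, Submonoid.smul_def]
  have e2 : B1.map (Int.castRingHom ℚ) = C (r2 : ℚ) * B' := by
    have := hb2
    rw [show (algebraMap ℤ ℚ) = Int.castRingHom ℚ from rfl] at this
    rw [this]
    ext k
    simp [hr2, Submonoid.smul_def]
  simp only [Polynomial.map_add, Polynomial.map_mul, map_C, e1, e2, Polynomial.map_sub,
    Polynomial.map_pow, map_X, Polynomial.map_one, Int.coe_castRingHom]
  push_cast
  simp only [C_mul, C_pow]
  linear_combination (C (r1 : ℚ) * C (r2 : ℚ)) ^ 2 * hAB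

/-- reduction of a relation -/
theorem relation_reduce [NeZero n] (hn : n.Prime) (u m : ZMod n → ℤ) (hu : ¬ ∃ c, ∀ i, u i = c)
    (hsum : ∑ i, u i ≠ 0) (hsum2 : ∑ i, u i = ∑ i, m i) :
    ∃ m' : ZMod n → ℤ, 0 < ∑ i, m' i ∧ ∀ p d : ℤ,
      d * ∑ i, u i * p ^ i.val ≡ ∑ i, m i * p ^ i.val [ZMOD (p ^ n - 1)] →
      d * ∑ i, m' i ≡ ∑ i, m' i * p ^ i.val [ZMOD (p ^ n - 1)] := by
  obtain ⟨A, B, R, hR, hAB⟩ := bezout_int hn u hu hsum
  refine ⟨fold n (A * toPoly n m), ?_, ?_⟩
  · rw [sum_fold, eval_mul, eval_toPoly]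
    have h1 := congrArg (eval 1) hAB
    rw [eval_add, eval_mul, eval_mul, eval_toPoly] at h1
    simp only [one_pow, mul_one, eval_sub, eval_pow, eval_X, eval_one, sub_self, mul_zero,
      add_zero, eval_C] at h1 ⊢
    rw [← hsum2, h1]
    exact hR
  · intro p d hd
    have h1 := congrArg (eval p) hAB
    rw [eval_add, eval_mul, eval_mul, eval_toPoly] at h1
    simp only [eval_sub, eval_pow, eval_X, eval_one, eval_C] at h1
    have hsumR : ∑ i, fold n (A * toPoly n m) i = R := by
      rw [sum_fold, eval_mul, eval_toPoly]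
      have h1 := congrArg (eval 1) hAB
      rw [eval_add, eval_mul, eval_mul, eval_toPoly] at h1
      simp only [one_pow, mul_one, eval_sub, eval_pow, eval_X, eval_one, sub_self, mul_zero,
        add_zero, eval_C] at h1 ⊢
      rw [← hsum2, h1]
    rw [hsumR]
    refine Int.ModEq.trans ?_ (fold_eval _ _).symm
    rw [eval_mul, eval_toPoly, ← h1]
    have h2 := hd.mul_left (eval p A)
    refine Int.ModEq.trans ?_ h2
    rw [Int.modEq_comm, Int.modEq_iff_dvd]
    refine ⟨d * eval p B, ?_⟩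
    ring

end Pool.Agent.Helper18.Katz
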