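import Pool.Agent.Helper18.Katz6
import Pool.Agent.Helper18.Katz7

/-!
Support file for MP_0aa406_nt (helper18): assembly.
-/

set_option autoImplicit false

namespace Pool.Agent.Helper18.Katz

open Finset Filter

variable {n : ℕ} [NeZero n]

/-- a relation with small coefficients summing to zero is trivial -/
theorem small_relation {p : ℕ} (w : ZMod n → ℤ) (B : ℤ) (hB : ∀ i, |w i| ≤ B) (hB0 : 0 ≤ B)
    (hpB : B < (p : ℤ) - 1)
    (hw : ((p : ℤ) ^ n - 1) ∣ ∑ i, w i * (p : ℤ) ^ i.val) : ∀ i, w i = 0 := by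
  have hn := NeZero.pos n
  have hp' : (2 : ℤ) ≤ p := by linarith
  have hpn1 : (0 : ℤ) < (p : ℤ) ^ (n - 1) := by positivity
  have hpn : (p : ℤ) ^ n = p * (p : ℤ) ^ (n - 1) := by
    rw [← pow_succ']; congr 1; omega
  have hG := G_mul (p := p) (n := n)
  set Q : ℤ := (p : ℤ) ^ n - 1 with hQ
  set g := G p n with hg
  have hQ0 : 0 < Q := by rw [hQ, hpn]; nlinarith
  have hg0 : 0 < g := by
    by_contra hcon
    push Not at hcon
    nlinarith
  have hrest : ((p : ℤ) - 1) * (g - (p : ℤ) ^ (n - 1)) = (p : ℤ) ^ (n - 1) - 1 := by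
    rw [mul_sub, hG, hQ, hpn]; ring
  have hrest1 : 0 ≤ g - (p : ℤ) ^ (n - 1) := by
    by_contra hcon
    push Not at hcon
    nlinarith
  have hrest2 : B * (g - (p : ℤ) ^ (n - 1)) < (p : ℤ) ^ (n - 1) := by
    nlinarith
  have hBg : B * g < Q := by
    rw [← hG]; nlinarith
  set z : ZMod n → ℤ := fun i => w (-i) with hz
  have hzB : ∀ i, |z i| ≤ B := fun i => hB (-i)
  have hY0 : Q ∣ Y p n z 0 := by
    have : Y p n z 0 = ∑ i, w i * (p : ℤ) ^ i.val := by
      unfold Y
      exact Fintype.sum_equiv (Equiv.neg _) _ _ (fun s => by simp [hz])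
    rw [this]; exact hw
  have hYj : ∀ j, Y p n z j = 0 := by
    intro j
    have h1 := mul_Y (p := p) z j 0
    rw [add_zero] at h1
    have h2 : Q ∣ Y p n z j := (Int.ModEq.dvd_iff h1).mp (Dvd.dvd.mul_left hY0 _)
    obtain ⟨h3, _⟩ := Y_bounds (p := p) z B hzB j
    exact Int.eq_zero_of_abs_lt_dvd h2 (lt_of_le_of_lt h3 hBg)
  intro i
  have h4 := (Y_bounds (p := p) z B hzB (-i - 1)).2
  rw [hYj] at h4
  have h5 : z (-i - 1 + 1) = w i := by simp [hz]
  rw [h5, zero_sub, abs_neg, abs_mul, abs_of_pos hpn1] at h4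
  by_contra hne
  have h6 := Int.one_le_abs hne
  nlinarith

theorem G_congr {p : ℕ} {d : ℤ} (hd : ((p : ℤ) - 1) ∣ d - 1) :
    d * G p n ≡ G p n [ZMOD ((p : ℤ) ^ n - 1)] := by
  obtain ⟨q, hq⟩ := hd
  rw [Int.modEq_comm, Int.modEq_iff_dvd]
  refine ⟨q, ?_⟩
  rw [← G_mul (p := p) (n := n)]
  linear_combination (G p n) * hq

omit [NeZero n] in
theorem pow_val_modEq_one {p : ℕ} (i : ZMod n) :
    (p : ℤ) ^ i.val ≡ 1 [ZMOD ((p : ℤ) - 1)] := by
  rw [Int.modEq_comm, Int.modEq_iff_dvd]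
  exact sub_one_dvd_pow_sub_one _ _

omit [NeZero n] in
theorem sub_one_dvd_Q (p : ℕ) : ((p : ℤ) - 1) ∣ ((p : ℤ) ^ n - 1) :=
  sub_one_dvd_pow_sub_one _ _

/-- the treatment of one nontrivial relation -/
theorem per_pair (hn : n.Prime) (c : ℤ) (hc : 2 * c ≤ n - 1)
    (hval : ∀ m : ZMod n → ℤ, 2 ≤ (univ.filter (fun i => m i ≠ 0)).card → 0 < ∑ i, m i →
      HasVal m univ c)
    (u m : ZMod n → ℤ) (hnt : ¬ ∃ t, (∀ i, u i = t) ∧ ∀ i, m i = t) :
    ∀ᶠ p : ℕ in atTop, ∀ d : ℤ, ((p : ℤ) - 1) ∣ d - 1 →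
      (∀ k : ℕ, ¬ d ≡ (p : ℤ) ^ k [ZMOD ((p : ℤ) ^ n - 1)]) →
      d * ∑ i, u i * (p : ℤ) ^ i.val ≡ ∑ i, m i * (p : ℤ) ^ i.val [ZMOD ((p : ℤ) ^ n - 1)] →
      Good p n d c := by
  have hnpos := NeZero.pos n
  by_cases hsum : ∑ i, u i = ∑ i, m i
  · by_cases hu : ∃ t, ∀ i, u i = t
    · -- `u` constant
      obtain ⟨t, ht⟩ := hu
      have hm : ¬ ∀ i, m i = t := fun h => hnt ⟨t, ht, h⟩
      set B : ℤ := ∑ i, |m i - t| with hBdef
      filter_upwards [eventually_ge_atTop (B + 2).toNat] with p hp d hd1 hnd hrel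
      exfalso
      apply hm
      have hB : ∀ i, |m i - t| ≤ B := fun i =>
        Finset.single_le_sum (f := fun i => |m i - t|) (fun _ _ => abs_nonneg _) (mem_univ i)
      have hB0 : 0 ≤ B := Finset.sum_nonneg fun _ _ => abs_nonneg _
      have hpB : B + 2 ≤ (p : ℤ) := Int.toNat_le.mp hp
      have hzero := small_relation (p := p) (fun i => m i - t) B hB hB0 (by linarith) (by
        have h1 : ∑ i, u i * (p : ℤ) ^ i.val = t * G p n := by
          unfold G
          rw [Finset.mul_sum]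
          exact Finset.sum_congr rfl (fun i _ => by rw [ht i])
        rw [h1] at hrel
        have h2 := (G_congr (n := n) hd1).mul_left t
        have h3 : d * (t * G p n) = t * (d * G p n) := by ring
        rw [h3] at hrel
        have h4 := (h2.symm.trans hrel).dvd
        have h5 : ∑ i, (m i - t) * (p : ℤ) ^ i.val = ∑ i, m i * (p : ℤ) ^ i.val - t * G p n := by
          unfold G
          rw [Finset.mul_sum, ← Finset.sum_sub_distrib]
          exact Finset.sum_congr rfl (fun i _ => by ring)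
        rw [h5]; exact h4)
      intro i
      have := hzero i
      linarith
    · -- get `m'`
      obtain ⟨m', hm'pos, hm'⟩ : ∃ m' : ZMod n → ℤ, 0 < ∑ i, m' i ∧ ∀ (p : ℕ) (d : ℤ),
          ((p : ℤ) - 1) ∣ d - 1 →
          d * ∑ i, u i * (p : ℤ) ^ i.val ≡ ∑ i, m i * (p : ℤ) ^ i.val [ZMOD ((p : ℤ) ^ n - 1)] →
          d * ∑ i, m' i ≡ ∑ i, m' i * (p : ℤ) ^ i.val [ZMOD ((p : ℤ) ^ n - 1)] := by
        by_cases hs0 : ∑ i, u i = 0
        · obtain ⟨m', h1, h2⟩ := relation_reduce hn (fun i => u i + 1) (fun i => m i + 1)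
            (by
              rintro ⟨t, ht⟩
              exact hu ⟨t - 1, fun i => by linarith [ht i]⟩)
            (by
              rw [Finset.sum_add_distrib, hs0, Finset.sum_const, Finset.card_univ, ZMod.card]
              simp only [nsmul_eq_mul, mul_one, zero_add]
              exact_mod_cast hnpos.ne')
            (by rw [Finset.sum_add_distrib, Finset.sum_add_distrib, hsum])
          refine ⟨m', h1, fun p d hd1 hrel => h2 p d ?_⟩
          have e1 : ∀ w : ZMod n → ℤ, ∑ i, (w i + 1) * (p : ℤ) ^ i.val =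
              ∑ i, w i * (p : ℤ) ^ i.val + G p n := by
            intro w
            unfold G
            rw [← Finset.sum_add_distrib]
            exact Finset.sum_congr rfl (fun i _ => by ring)
          rw [e1, e1, mul_add]
          exact hrel.add (G_congr hd1)
        · obtain ⟨m', h1, h2⟩ := relation_reduce hn u m hu hs0 hsum
          exact ⟨m', h1, fun p d _ hrel => h2 p d hrel⟩
      by_cases hsupp : 2 ≤ (univ.filter (fun i => m' i ≠ 0)).card
      · obtain ⟨P0, hP0⟩ := good_local m' c hm'pos (hval m' hsupp hm'pos)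
        filter_upwards [eventually_ge_atTop P0] with p hp d hd1 hnd hrel
        exact hP0 p hp d (hm' p d hd1 hrel)
      · -- monomial
        have hne : (univ.filter (fun i => m' i ≠ 0)).Nonempty := by
          rw [Finset.nonempty_iff_ne_empty]
          intro h0
          rw [Finset.filter_eq_empty_iff] at h0
          have : ∑ i, m' i = 0 := Finset.sum_eq_zero (fun i _ => by
            have := h0 (mem_univ i)
            push Not at this
            exact this)
          linarith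
        obtain ⟨k, hk⟩ := hne
        have huniq : ∀ i, i ≠ k → m' i = 0 := by
          intro i hi
          by_contra hmi
          apply hsupp
          have h1 : ({i, k} : Finset (ZMod n)) ⊆ univ.filter (fun i => m' i ≠ 0) := by
            intro x hx
            simp only [mem_insert, mem_singleton] at hx
            rcases hx with rfl | rfl
            · simpa using hmi
            · exact hk
          calc 2 = ({i, k} : Finset (ZMod n)).card := by
                rw [Finset.card_insert_of_notMem (by simpa using hi), Finset.card_singleton]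
            _ ≤ _ := Finset.card_le_card h1
        have hR : ∑ i, m' i = m' k := Finset.sum_eq_single k (fun i _ hi => huniq i hi)
          (fun h => absurd (mem_univ _) h)
        rw [hR] at hm'pos
        obtain ⟨P0, hP0⟩ := good_mono (n := n) (m' k) hm'pos k c (by linarith)
        filter_upwards [eventually_ge_atTop P0] with p hp d hd1 hnd hrel
        have h2 := hm' p d hd1 hrel
        rw [hR] at h2
        have h3 : ∑ i, m' i * (p : ℤ) ^ i.val = m' k * (p : ℤ) ^ k.val :=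
          Finset.sum_eq_single k (fun i _ hi => by rw [huniq i hi, zero_mul])
            (fun h => absurd (mem_univ _) h)
        rw [h3] at h2
        exact hP0 p hp d h2 (hnd _)
  · -- sums differ
    set B : ℤ := |∑ i, m i - ∑ i, u i| with hBdef
    filter_upwards [eventually_ge_atTop (B + 2).toNat] with p hp d hd1 hnd hrel
    exfalso
    apply hsum
    have hpB : B + 2 ≤ (p : ℤ) := Int.toNat_le.mp hp
    have h1 := hrel.of_dvd (sub_one_dvd_Q p)
    have h2 : ∀ w : ZMod n → ℤ, ∑ i, w i * (p : ℤ) ^ i.val ≡ ∑ i, w i [ZMOD ((p : ℤ) - 1)] := by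
      intro w
      apply Int.ModEq.sum
      intro i _
      have := (pow_val_modEq_one (p := p) i).mul_left (w i)
      rwa [mul_one] at this
    have h3 : d ≡ 1 [ZMOD ((p : ℤ) - 1)] := ((Int.modEq_iff_dvd).mpr hd1).symm
    have h4 : ∑ i, u i ≡ ∑ i, m i [ZMOD ((p : ℤ) - 1)] := by
      have h5 := (h3.mul (h2 u)).symm.trans (h1.trans (h2 m))
      rwa [one_mul] at h5
    have h6 := Int.eq_zero_of_abs_lt_dvd h4.dvd (by linarith)
    linarith

/-- main reduction -/
theorem core (hn : n.Prime) (hn2 : n ≠ 2) (c : ℤ) (hc : 2 * c ≤ n - 1)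
    (hval : ∀ m : ZMod n → ℤ, 2 ≤ (univ.filter (fun i => m i ≠ 0)).card → 0 < ∑ i, m i →
      HasVal m univ c) :
    ∀ᶠ p : ℕ in atTop, ∀ d : ℤ, IsCoprime d ((p : ℤ) ^ n - 1) →
      (∀ k : ℕ, ¬ d ≡ (p : ℤ) ^ k [ZMOD ((p : ℤ) ^ n - 1)]) → Good p n d c := by
  obtain ⟨s, hs⟩ : ∃ s, n = 2 * s + 1 := by
    rcases hn.eq_two_or_odd' with h | h
    · exact absurd h hn2
    · obtain ⟨s, hs⟩ := h; exact ⟨s, hs⟩
  have hs1 : 1 ≤ s := by
    have := hn.two_le
    omega
  set r : ℤ := 32 * (n : ℤ) ^ 3 with hr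
  set I : Set ((ZMod n → ℤ) × (ZMod n → ℤ)) :=
    {q | (∀ i, |q.1 i| ≤ r) ∧ (∀ i, |q.2 i| ≤ r)} with hI
  have hIfin : I.Finite := by
    have h1 : I ⊆ (Set.Icc (fun _ : ZMod n => -r) (fun _ : ZMod n => r)) ×ˢ
        (Set.Icc (fun _ : ZMod n => -r) (fun _ : ZMod n => r)) := by
      rintro ⟨u, m⟩ ⟨h1, h2⟩
      exact ⟨⟨fun i => (abs_le.mp (h1 i)).1, fun i => (abs_le.mp (h1 i)).2⟩,
        ⟨fun i => (abs_le.mp (h2 i)).1, fun i => (abs_le.mp (h2 i)).2⟩⟩
    exact ((Set.finite_Icc _ _).prod (Set.finite_Icc _ _)).subset h1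
  have hall : ∀ᶠ p : ℕ in atTop, ∀ q ∈ I, (¬ ∃ t, (∀ i, q.1 i = t) ∧ ∀ i, q.2 i = t) →
      ∀ d : ℤ, ((p : ℤ) - 1) ∣ d - 1 →
      (∀ k : ℕ, ¬ d ≡ (p : ℤ) ^ k [ZMOD ((p : ℤ) ^ n - 1)]) →
      d * ∑ i, q.1 i * (p : ℤ) ^ i.val ≡ ∑ i, q.2 i * (p : ℤ) ^ i.val
        [ZMOD ((p : ℤ) ^ n - 1)] → Good p n d c := by
    rw [Filter.eventually_all_finite hIfin]
    intro q _
    by_cases hnt : ∃ t, (∀ i, q.1 i = t) ∧ ∀ i, q.2 i = t
    · exact Filter.Eventually.of_forall (fun p h => absurd hnt h)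
    · filter_upwards [per_pair hn c hc hval q.1 q.2 hnt] with p hp _ d h1 h2 h3
      exact hp d h1 h2 h3
  obtain ⟨P1, hP1⟩ := good_nonmod (n := n) c hc
  filter_upwards [hall, eventually_ge_atTop P1, eventually_ge_atTop 2] with p h1 h2 h3 d hd hnd
  by_cases hmod : ((p : ℤ) - 1) ∣ d - 1
  · by_cases hex : ∃ q ∈ I, (¬ ∃ t, (∀ i, q.1 i = t) ∧ ∀ i, q.2 i = t) ∧
        d * ∑ i, q.1 i * (p : ℤ) ^ i.val ≡ ∑ i, q.2 i * (p : ℤ) ^ i.val [ZMOD ((p : ℤ) ^ n - 1)]
    · obtain ⟨q, hq, hq1, hq2⟩ := hex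
      exact h1 q hq hq1 d hmod hnd hq2
    · apply good_generic n s hs hs1 c hc p h3 d
      intro u m hu hm hrel
      by_contra hcon
      exact hex ⟨(u, m), ⟨hu, hm⟩, hcon, hrel⟩
  · exact hP1 p h2 d (hd.of_isCoprime_of_dvd_right (sub_one_dvd_Q p)) hmod

/-- translation to digit sums -/
theorem digits_of_good {p : ℕ} (hp : 2 ≤ p) (d : ℕ) (hd : Nat.Coprime d (p ^ n - 1)) (c : ℤ)
    (hgood : Good p n d c) :
    ∃ a b : ℕ, 0 < a ∧ a < p ^ n - 1 ∧ b < p ^ n - 1 ∧ (p ^ n - 1) ∣ d * a + b ∧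
      (((Nat.digits p a).sum + (Nat.digits p b).sum : ℕ) : ℤ) ≤ (n - c) * ((p : ℤ) - 1) := by
  obtain ⟨a, ha, hW⟩ := hgood
  have hnpos := NeZero.pos n
  have hpn : 1 < p ^ n := Nat.one_lt_pow (by omega) (by omega)
  have hQz : (((p ^ n - 1 : ℕ)) : ℤ) = (p : ℤ) ^ n - 1 := by
    rw [Nat.cast_sub hpn.le]; push_cast; rfl
  have hQ0 : (0 : ℤ) < (p : ℤ) ^ n - 1 := by rw [← hQz]; exact_mod_cast (by omega : 0 < p ^ n - 1)
  set Q : ℤ := (p : ℤ) ^ n - 1 with hQ
  have a0 := Int.emod_nonneg a hQ0.ne'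
  have a1 := Int.emod_lt_of_pos a hQ0
  have b0 := Int.emod_nonneg (-(d * a)) hQ0.ne'
  have b1 := Int.emod_lt_of_pos (-(d * a)) hQ0
  obtain ⟨x, hx⟩ := Int.eq_ofNat_of_zero_le a0
  obtain ⟨y, hy⟩ := Int.eq_ofNat_of_zero_le b0
  have hx1 : x < p ^ n - 1 := by
    rw [hx] at a1
    rw [← hQz] at a1
    exact_mod_cast a1
  have hy1 : y < p ^ n - 1 := by
    rw [hy] at b1
    rw [← hQz] at b1
    exact_mod_cast b1
  have hxc : (x : ℤ) ≡ a [ZMOD Q] := by
    rw [← hx]; exact Int.mod_modEq _ _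
  have hyc : (y : ℤ) ≡ -(d * a) [ZMOD Q] := by
    rw [← hy]; exact Int.mod_modEq _ _
  have hxpos : 0 < x := by
    rcases Nat.eq_zero_or_pos x with h0 | h0
    · exfalso
      rw [h0] at hx
      exact ha (Int.dvd_of_emod_eq_zero (by simpa using hx))
    · exact h0
  refine ⟨x, y, hxpos, hx1, hy1, ?_, ?_⟩
  · have h1 : Q ∣ (d * x + y : ℤ) := by
      have h2 : (d * x + y : ℤ) ≡ d * a + -(d * a) [ZMOD Q] := (hxc.mul_left _).add hyc
      rw [add_neg_cancel] at h2
      exact (Int.modEq_zero_iff_dvd).mp h2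
    rw [← hQz] at h1
    exact_mod_cast h1
  · have e1 := digitSum_eq (n := n) hp x hx1
    have e2 := digitSum_eq (n := n) hp y hy1
    rw [W_congr hxc] at e1
    rw [W_congr hyc] at e2
    rw [← hQ] at e1 e2
    -- W (-(d a)) = n Q - W (d a)
    have hdz : IsCoprime (d : ℤ) Q := by
      rw [← hQz]
      exact (Nat.isCoprime_iff_coprime).mpr hd
    have hneg : W p n (-(d * a)) = n * Q - W p n (d * a) := by
      unfold W
      have h1 : ∀ j : ZMod n, ((p : ℤ) ^ j.val * (-(d * a))) % Q = Q - ((p : ℤ) ^ j.val * (d * a)) % Q := by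
        intro j
        have hnd : ¬ Q ∣ (p : ℤ) ^ j.val * (d * a) := by
          apply not_dvd_pow_mul _ _ (ZMod.val_lt j).le
          intro h
          exact ha (hdz.symm.dvd_of_dvd_mul_left h)
        set v := (p : ℤ) ^ j.val * (d * a) with hv
        have h2 : (p : ℤ) ^ j.val * (-(d * a)) = -v := by rw [hv]; ring
        rw [h2]
        have v0 := Int.emod_nonneg v hQ0.ne'
        have v1 := Int.emod_lt_of_pos v hQ0
        have v2 : v % Q ≠ 0 := fun h => hnd (Int.dvd_of_emod_eq_zero h)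
        have h3 : -v ≡ Q - v % Q [ZMOD Q] := by
          have h4 : Q - v % Q ≡ 0 - v [ZMOD Q] :=
            ((Int.modEq_zero_iff_dvd).mpr (dvd_refl Q)).sub (Int.mod_modEq _ _)
          rw [zero_sub] at h4
          exact h4.symm
        rw [h3]
        exact Int.emod_eq_of_lt (by linarith) (by omega)
      rw [Finset.sum_congr rfl (fun j _ => h1 j), Finset.sum_sub_distrib, Finset.sum_const,
        Finset.card_univ, ZMod.card, nsmul_eq_mul]
    rw [hneg] at e2
    have hp1 : (0 : ℤ) < (p : ℤ) - 1 := by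
      have : (2 : ℤ) ≤ p := by exact_mod_cast hp
      linarith
    have key : Q * (((Nat.digits p x).sum + (Nat.digits p y).sum : ℕ) : ℤ) ≤
        Q * ((n - c) * ((p : ℤ) - 1)) := by
      rw [Nat.cast_add]
      have h5 : ((p : ℤ) - 1) * (2 * c * Q) ≤ ((p : ℤ) - 1) * (2 * (W p n (d * a) - W p n a)) :=
        mul_le_mul_of_nonneg_left hW hp1.le
      linarith
    exact le_of_mul_le_mul_left key hQ0

end Pool.Agent.Helper18.Katz
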