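import Mathlib

open PowerSeries

namespace Pool.Agent.Helper18.Wan

variable {X R : Type*} [CommRing R]

/-- `∑ c^D` over the effective divisors `D` of degree `d`. -/
noncomputable def divSum (deg : X → ℕ) (c : X → R) (d : ℕ) : R :=
  ∑ᶠ D ∈ {D : X →₀ ℕ | D.sum (fun x m => m * deg x) = d}, D.prod (fun x m => c x ^ m)

/-- `∑_{deg x ∣ k} deg x * c_x^(k / deg x)`. -/
noncomputable def pSum (deg : X → ℕ) (c : X → R) (k : ℕ) : R :=
  ∑ᶠ x ∈ {x : X | deg x ∣ k}, (deg x : R) * c x ^ (k / deg x)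

/-- The number of effective divisors of degree `d` (coefficient of the zeta function). -/
noncomputable def divCount (deg : X → ℕ) (d : ℕ) : ℕ :=
  Nat.card {D : X →₀ ℕ // D.sum (fun x m => m * deg x) = d}

/-- The zeta function. -/
noncomputable def zetaSeries (deg : X → ℕ) : PowerSeries ℤ :=
  PowerSeries.mk (fun d => (divCount deg d : ℤ))

theorem single_le_of_sum (deg : X → ℕ) {D : X →₀ ℕ} {d : ℕ}
    (hD : D.sum (fun x m => m * deg x) = d) (x : X) : D x * deg x ≤ d := by
  classical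
  by_cases hx : x ∈ D.support
  · rw [← hD]
    exact Finset.single_le_sum (f := fun x => D x * deg x) (fun _ _ => Nat.zero_le _) hx
  · rw [Finsupp.notMem_support_iff] at hx
    simp [hx]

theorem divSet_finite (deg : X → ℕ) (hpos : ∀ x, 0 < deg x)
    (hfin : ∀ d, {x : X | deg x ≤ d}.Finite) (d : ℕ) :
    {D : X →₀ ℕ | D.sum (fun x m => m * deg x) = d}.Finite := by
  classical
  refine (Set.finite_Iic (Finsupp.indicator (hfin d).toFinset (fun _ _ => d) : X →₀ ℕ)).subset ?_
  intro D hD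
  rw [Set.mem_Iic, Finsupp.le_def]
  intro x
  have h1 := single_le_of_sum deg hD x
  by_cases hx : deg x ≤ d
  · rw [Finsupp.indicator_of_mem (by simpa using hx)]
    exact le_trans (Nat.le_mul_of_pos_right _ (hpos x)) h1
  · have : D x = 0 := by
      by_contra h0
      have : 1 ≤ D x := Nat.one_le_iff_ne_zero.mpr h0
      have : 1 * deg x ≤ D x * deg x := Nat.mul_le_mul_right _ this
      omega
    rw [this]; exact Nat.zero_le _

theorem divSum_eq (deg : X → ℕ) (hpos : ∀ x, 0 < deg x)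
    (hfin : ∀ d, {x : X | deg x ≤ d}.Finite) (c : X → R) (d : ℕ) :
    divSum deg c d = ∑ D ∈ (divSet_finite deg hpos hfin d).toFinset,
      D.prod (fun x m => c x ^ m) := by
  rw [divSum, finsum_mem_eq_finite_toFinset_sum]

theorem pSet_finite (deg : X → ℕ) (hfin : ∀ d, {x : X | deg x ≤ d}.Finite) (k : ℕ) (hk : 1 ≤ k) :
    {x : X | deg x ∣ k}.Finite :=
  (hfin k).subset fun _ hx => Nat.le_of_dvd hk hx

theorem sum_add_single (deg : X → ℕ) (E : X →₀ ℕ) (x : X) (j : ℕ) :
    (E + Finsupp.single x j).sum (fun x m => m * deg x) = E.sum (fun x m => m * deg x) + j * deg x := by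
  classical
  rw [Finsupp.sum_add_index' (h := fun x m => m * deg x) (fun _ => Nat.zero_mul _)
    (fun _ _ _ => Nat.add_mul _ _ _), Finsupp.sum_single_index (h := fun x m => m * deg x) (Nat.zero_mul _)]

theorem prod_add_single (c : X → R) (E : X →₀ ℕ) (x : X) (j : ℕ) :
    (E + Finsupp.single x j).prod (fun x m => c x ^ m) =
      E.prod (fun x m => c x ^ m) * c x ^ j := by
  classical
  rw [Finsupp.prod_add_index' (h := fun x m => c x ^ m) (fun _ => pow_zero _)
    (fun _ _ _ => pow_add _ _ _), Finsupp.prod_single_index (h := fun x m => c x ^ m) (pow_zero _)]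

/-- Module Z0. -/
theorem divSum_rec (deg : X → ℕ) (hpos : ∀ x, 0 < deg x) (hfin : ∀ d, {x : X | deg x ≤ d}.Finite)
    (c : X → R) (d : ℕ) :
    (d : R) * divSum deg c d = ∑ k ∈ Finset.Icc 1 d, pSum deg c k * divSum deg c (d - k) := by
  classical
  set T : Finset X := (hfin d).toFinset with hT
  have hTmem : ∀ x, x ∈ T ↔ deg x ≤ d := fun x => by simp [hT]
  set DD : ℕ → Finset (X →₀ ℕ) := fun e => (divSet_finite deg hpos hfin e).toFinset with hDD
  have hDDmem : ∀ e D, D ∈ DD e ↔ D.sum (fun x m => m * deg x) = e := fun e D => by simp [hDD]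
  have hps : ∀ k ∈ Finset.Icc 1 d, pSum deg c k =
      ∑ x ∈ T.filter (fun x => deg x ∣ k), (deg x : R) * c x ^ (k / deg x) := by
    intro k hk
    rw [Finset.mem_Icc] at hk
    rw [pSum, finsum_mem_eq_finite_toFinset_sum _ (pSet_finite deg hfin k hk.1)]
    refine Finset.sum_congr ?_ fun _ _ => rfl
    ext x
    simp only [Set.Finite.mem_toFinset, Set.mem_ofPred_eq, Finset.mem_filter, hTmem]
    exact ⟨fun h => ⟨le_trans (Nat.le_of_dvd hk.1 h) hk.2, h⟩, fun h => h.2⟩
  have hR : ∑ k ∈ Finset.Icc 1 d, pSum deg c k * divSum deg c (d - k) =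
      ∑ k ∈ Finset.Icc 1 d, ∑ x ∈ T.filter (fun x => deg x ∣ k), ∑ E ∈ DD (d - k),
        (deg x : R) * c x ^ (k / deg x) * E.prod (fun x m => c x ^ m) := by
    refine Finset.sum_congr rfl fun k hk => ?_
    rw [hps k hk, divSum_eq deg hpos hfin, Finset.sum_mul_sum]
  have hL : (d : R) * divSum deg c d =
      ∑ D ∈ DD d, ∑ x ∈ T, ∑ _j ∈ Finset.Icc 1 (D x),
        (deg x : R) * D.prod (fun x m => c x ^ m) := by
    rw [divSum_eq deg hpos hfin, Finset.mul_sum]
    refine Finset.sum_congr rfl fun D hD => ?_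
    rw [hDDmem] at hD
    have h1 : (d : R) = ∑ x ∈ T, (D x : R) * (deg x : R) := by
      have h2 : d = ∑ x ∈ T, D x * deg x := by
        rw [← hD, Finsupp.sum]
        refine Finset.sum_subset ?_ ?_
        · intro x hx
          rw [hTmem]
          have := single_le_of_sum deg hD x
          have h3 : 1 ≤ D x := Nat.one_le_iff_ne_zero.mpr (Finsupp.mem_support_iff.mp hx)
          have h4 : 1 * deg x ≤ D x * deg x := Nat.mul_le_mul_right _ h3
          omega
        · intro x _ hx
          rw [Finsupp.notMem_support_iff] at hx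
          simp [hx]
      calc (d : R) = ((∑ x ∈ T, D x * deg x : ℕ) : R) := by rw [← h2]
        _ = _ := by push_cast; rfl
    conv_lhs => rw [h1]
    rw [Finset.sum_mul]
    refine Finset.sum_congr rfl fun x _ => ?_
    rw [Finset.sum_const, Nat.card_Icc, Nat.add_sub_cancel, nsmul_eq_mul, mul_assoc]
  rw [hR, hL]
  simp only [Finset.sum_sigma']
  refine Finset.sum_bij'
    (fun a _ => ⟨a.2.2 * deg a.2.1, ⟨a.2.1, a.1 - Finsupp.single a.2.1 a.2.2⟩⟩)
    (fun b _ => ⟨b.2.2 + Finsupp.single b.2.1 (b.1 / deg b.2.1), ⟨b.2.1, b.1 / deg b.2.1⟩⟩)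
    ?_ ?_ ?_ ?_ ?_
  · rintro ⟨D, ⟨x, j⟩⟩ ha
    simp only [Finset.mem_sigma, hDDmem, hTmem, Finset.mem_Icc, Finset.mem_filter] at ha ⊢
    obtain ⟨hD, hx, hj1, hj2⟩ := ha
    have hle : Finsupp.single x j ≤ D := by
      rw [Finsupp.single_le_iff]; exact hj2
    have hsum := sum_add_single deg (D - Finsupp.single x j) x j
    rw [tsub_add_cancel_of_le hle, hD] at hsum
    refine ⟨⟨Nat.one_le_iff_ne_zero.mpr (Nat.mul_ne_zero (by omega) (hpos x).ne'), by omega⟩,
      ⟨hx, Dvd.intro_left _ rfl⟩, by omega⟩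
  · rintro ⟨k, ⟨x, E⟩⟩ hb
    simp only [Finset.mem_sigma, hDDmem, hTmem, Finset.mem_Icc, Finset.mem_filter] at hb ⊢
    obtain ⟨⟨hk1, hk2⟩, ⟨hx, hdvd⟩, hE⟩ := hb
    refine ⟨?_, hx, ?_, ?_⟩
    · rw [sum_add_single, hE, Nat.div_mul_cancel hdvd]; omega
    · exact Nat.div_pos (Nat.le_of_dvd hk1 hdvd) (hpos x)
    · simp
  · rintro ⟨D, ⟨x, j⟩⟩ ha
    simp only [Finset.mem_sigma, hDDmem, hTmem, Finset.mem_Icc] at ha ⊢
    obtain ⟨hD, hx, hj1, hj2⟩ := ha
    have hle : Finsupp.single x j ≤ D := by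
      rw [Finsupp.single_le_iff]; exact hj2
    rw [Nat.mul_div_cancel _ (hpos x), tsub_add_cancel_of_le hle]
  · rintro ⟨k, ⟨x, E⟩⟩ hb
    simp only [Finset.mem_sigma, hDDmem, hTmem, Finset.mem_Icc, Finset.mem_filter] at hb ⊢
    obtain ⟨⟨hk1, hk2⟩, ⟨hx, hdvd⟩, hE⟩ := hb
    rw [Nat.div_mul_cancel hdvd, add_tsub_cancel_right]
  · rintro ⟨D, ⟨x, j⟩⟩ ha
    simp only [Finset.mem_sigma, hDDmem, hTmem, Finset.mem_Icc] at ha ⊢
    obtain ⟨hD, hx, hj1, hj2⟩ := ha
    have hle : Finsupp.single x j ≤ D := by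
      rw [Finsupp.single_le_iff]; exact hj2
    have hprod := prod_add_single c (D - Finsupp.single x j) x j
    rw [tsub_add_cancel_of_le hle] at hprod
    rw [Nat.mul_div_cancel _ (hpos x), hprod]
    ring


theorem divSum_zero (deg : X → ℕ) (hpos : ∀ x, 0 < deg x)
    (hfin : ∀ d, {x : X | deg x ≤ d}.Finite) (c : X → R) : divSum deg c 0 = 1 := by
  classical
  rw [divSum_eq deg hpos hfin]
  have : (divSet_finite deg hpos hfin 0).toFinset = {0} := by
    ext D
    simp only [Set.Finite.mem_toFinset, Set.mem_ofPred_eq, Finset.mem_singleton]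
    constructor
    · intro hD
      ext x
      have := single_le_of_sum deg hD x
      have h2 := hpos x
      rw [Nat.le_zero, Nat.mul_eq_zero] at this
      rcases this with h | h
      · simpa using h
      · omega
    · rintro rfl
      simp
  rw [this]
  simp

theorem divSum_one (deg : X → ℕ) (hpos : ∀ x, 0 < deg x)
    (hfin : ∀ d, {x : X | deg x ≤ d}.Finite) (d : ℕ) :
    divSum deg (fun _ => (1 : R)) d = (divCount deg d : R) := by
  classical
  rw [divSum_eq deg hpos hfin]
  simp only [one_pow, Finsupp.prod, Finset.prod_const_one, Finset.sum_const, nsmul_eq_mul, mul_one]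
  congr 1
  rw [divCount, ← Nat.card_eq_card_finite_toFinset]
  rfl

/-- `X A' = A S` where `S = ∑_{k ≥ 1} s_k X^k`, and `A` has constant coefficient one. -/
def HasLog (A : PowerSeries R) (s : ℕ → R) : Prop :=
  PowerSeries.constantCoeff A = 1 ∧
    PowerSeries.X * PowerSeries.derivative (R := R) A = A * PowerSeries.mk (fun k => if k = 0 then 0 else s k)

theorem coeff_X_mul_deriv (A : PowerSeries R) (d : ℕ) :
    PowerSeries.coeff d (PowerSeries.X * PowerSeries.derivative (R := R) A) =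
      (d : R) * PowerSeries.coeff d A := by
  cases d with
  | zero => simp
  | succ d =>
    rw [PowerSeries.coeff_succ_X_mul, PowerSeries.coeff_derivative]
    push_cast
    ring

theorem coeff_mul_S (A : PowerSeries R) (s : ℕ → R) (d : ℕ) :
    PowerSeries.coeff d (A * PowerSeries.mk (fun k => if k = 0 then 0 else s k)) =
      ∑ k ∈ Finset.Icc 1 d, s k * PowerSeries.coeff (d - k) A := by
  rw [mul_comm, PowerSeries.coeff_mul, Finset.Nat.sum_antidiagonal_eq_sum_range_succ_mk,
    Finset.sum_range_succ']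
  simp only [PowerSeries.coeff_mk, Nat.succ_ne_zero, if_false, if_true, zero_mul, add_zero]
  rw [← Finset.sum_image (s := Finset.range d) (g := fun k => k + 1)
    (f := fun k => s k * PowerSeries.coeff (d - k) A)]
  · refine Finset.sum_congr ?_ fun _ _ => rfl
    ext k
    simp only [Finset.mem_image, Finset.mem_range, Finset.mem_Icc]
    constructor
    · rintro ⟨a, ha, rfl⟩; omega
    · rintro ⟨h1, h2⟩; exact ⟨k - 1, by omega, by omega⟩
  · intro a _ b _ h
    simpa using h

theorem hasLog_iff (A : PowerSeries R) (s : ℕ → R) :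
    HasLog A s ↔ PowerSeries.constantCoeff A = 1 ∧ ∀ d : ℕ, (d : R) * PowerSeries.coeff d A =
      ∑ k ∈ Finset.Icc 1 d, s k * PowerSeries.coeff (d - k) A := by
  rw [HasLog, PowerSeries.ext_iff]
  simp only [coeff_X_mul_deriv, coeff_mul_S]

theorem HasLog.mul {A B : PowerSeries R} {s t : ℕ → R} (hA : HasLog A s) (hB : HasLog B t) :
    HasLog (A * B) (fun k => s k + t k) := by
  refine ⟨by rw [map_mul, hA.1, hB.1, one_mul], ?_⟩
  have h : (PowerSeries.mk (fun k => if k = 0 then 0 else s k + t k) : PowerSeries R) =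
      PowerSeries.mk (fun k => if k = 0 then 0 else s k) +
        PowerSeries.mk (fun k => if k = 0 then 0 else t k) := by
    ext k
    simp only [PowerSeries.coeff_mk, map_add]
    split_ifs <;> simp
  rw [h, Derivation.leibniz, smul_eq_mul, smul_eq_mul]
  have h1 := hA.2
  have h2 := hB.2
  linear_combination A * h2 + B * h1

theorem hasLog_one : HasLog (1 : PowerSeries R) (fun _ => 0) := by
  refine ⟨by simp, ?_⟩
  have : (PowerSeries.mk (fun k => if k = 0 then 0 else 0) : PowerSeries R) = 0 := by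
    ext k; simp
  rw [this]
  simp

theorem HasLog.prod {ι : Type*} (I : Finset ι) {A : ι → PowerSeries R} {s : ι → ℕ → R}
    (h : ∀ i ∈ I, HasLog (A i) (s i)) : HasLog (∏ i ∈ I, A i) (fun k => ∑ i ∈ I, s i k) := by
  classical
  induction I using Finset.induction_on with
  | empty => simpa using hasLog_one
  | insert a I ha ih =>
    simp only [Finset.prod_insert ha, Finset.sum_insert ha]
    exact (h a (Finset.mem_insert_self _ _)).mul (ih fun i hi => h i (Finset.mem_insert_of_mem hi))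

theorem HasLog.congr {A : PowerSeries R} {s t : ℕ → R} (hA : HasLog A s)
    (h : ∀ k, 1 ≤ k → s k = t k) : HasLog A t := by
  rw [hasLog_iff] at hA ⊢
  refine ⟨hA.1, fun d => ?_⟩
  rw [hA.2 d]
  refine Finset.sum_congr rfl fun k hk => ?_
  rw [h k (Finset.mem_Icc.mp hk).1]

theorem HasLog.unique [IsDomain R] [CharZero R] {A B : PowerSeries R} {s : ℕ → R}
    (hA : HasLog A s) (hB : HasLog B s) : A = B := by
  rw [hasLog_iff] at hA hB
  ext d
  induction d using Nat.strong_induction_on with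
  | _ d ih =>
    rcases Nat.eq_zero_or_pos d with rfl | hd
    · rw [PowerSeries.coeff_zero_eq_constantCoeff_apply,
        PowerSeries.coeff_zero_eq_constantCoeff_apply, hA.1, hB.1]
    · have hd' : (d : R) ≠ 0 := by exact_mod_cast hd.ne'
      apply mul_left_cancel₀ hd'
      rw [hA.2, hB.2]
      refine Finset.sum_congr rfl fun k hk => ?_
      rw [Finset.mem_Icc] at hk
      rw [ih (d - k) (by omega)]

theorem hasLog_one_sub_X_pow (m : ℕ) (hm : 0 < m) :
    HasLog (1 - PowerSeries.X ^ m : PowerSeries R) (fun k => if m ∣ k then -(m : R) else 0) := by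
  refine ⟨by simp [hm.ne'], ?_⟩
  ext d
  rw [coeff_X_mul_deriv, sub_mul, one_mul, map_sub, map_sub, PowerSeries.coeff_X_pow_mul',
    PowerSeries.coeff_mk, PowerSeries.coeff_one, PowerSeries.coeff_X_pow]
  rcases lt_trichotomy d m with h | h | h
  · rw [if_neg (show ¬ m ≤ d by omega), if_neg (show ¬ d = m by omega)]
    rcases Nat.eq_zero_or_pos d with rfl | hd
    · simp
    · rw [if_neg hd.ne', if_neg hd.ne']
      have h3 : ¬ m ∣ d := fun hdvd => by
        have := Nat.le_of_dvd hd hdvd; omega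
      simp [h3]
  · subst h
    simp [hm.ne']
  · rw [if_neg (show ¬ d = 0 by omega), if_neg (show ¬ d = m by omega),
      if_neg (show ¬ d = 0 by omega), if_pos h.le, PowerSeries.coeff_mk,
      if_neg (show ¬ d - m = 0 by omega)]
    have : m ∣ d - m ↔ m ∣ d := by
      rw [Nat.dvd_sub_iff_left h.le (dvd_refl m)]
    simp [this]

/-- The `L`-series has logarithmic derivative given by the power sums. -/
theorem hasLog_series (deg : X → ℕ) (hpos : ∀ x, 0 < deg x)
    (hfin : ∀ d, {x : X | deg x ≤ d}.Finite) (c : X → R) :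
    HasLog (PowerSeries.mk (divSum deg c)) (pSum deg c) := by
  rw [hasLog_iff]
  refine ⟨?_, fun d => ?_⟩
  · rw [← PowerSeries.coeff_zero_eq_constantCoeff_apply, PowerSeries.coeff_mk,
      divSum_zero deg hpos hfin]
  · simp only [PowerSeries.coeff_mk]
    exact divSum_rec deg hpos hfin c d

theorem hasLog_zeta (deg : X → ℕ) (hpos : ∀ x, 0 < deg x)
    (hfin : ∀ d, {x : X | deg x ≤ d}.Finite) :
    HasLog (zetaSeries deg) (pSum deg (fun _ => (1 : ℤ))) := by
  have h : zetaSeries deg = PowerSeries.mk (divSum deg (fun _ => (1 : ℤ))) := by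
    ext d
    rw [zetaSeries, PowerSeries.coeff_mk, PowerSeries.coeff_mk, divSum_one deg hpos hfin]
  rw [h]
  exact hasLog_series deg hpos hfin _


/-- Growth: with two places, the number of effective divisors of degree `m d₁ d₂` is at least
`m + 1`. -/
theorem divCount_lower {Y : Type*} (dY : Y → ℕ) (hY : ∀ y, 0 < dY y)
    (fY : ∀ d, {x : Y | dY x ≤ d}.Finite) (y₁ y₂ : Y) (hy : y₁ ≠ y₂) (m : ℕ) :
    m + 1 ≤ divCount dY (m * dY y₁ * dY y₂) := by
  classical
  have : Finite {D : Y →₀ ℕ // D.sum (fun x m => m * dY x) = m * dY y₁ * dY y₂} :=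
    (divSet_finite dY hY fY _).to_subtype
  have h : Nat.card (Fin (m + 1)) ≤ divCount dY (m * dY y₁ * dY y₂) := by
    rw [divCount]
    refine Nat.card_le_card_of_injective (fun i : Fin (m + 1) =>
      (⟨Finsupp.single y₁ ((i : ℕ) * dY y₂) + Finsupp.single y₂ ((m - i) * dY y₁), ?_⟩ :
        {D : Y →₀ ℕ // D.sum (fun x m => m * dY x) = m * dY y₁ * dY y₂})) ?_
    · rw [sum_add_single, Finsupp.sum_single_index (h := fun x m => m * dY x) (Nat.zero_mul _)]
      have h1 : (i : ℕ) ≤ m := Nat.lt_succ_iff.mp i.2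
      obtain ⟨k, hk⟩ := Nat.exists_eq_add_of_le h1
      rw [show m - (i : ℕ) = k by omega]
      calc (i : ℕ) * dY y₂ * dY y₁ + k * dY y₁ * dY y₂ = ((i : ℕ) + k) * dY y₁ * dY y₂ := by ring
        _ = m * dY y₁ * dY y₂ := by rw [← hk]
    · intro i j hij
      have h1 := congrArg (fun D : {D : Y →₀ ℕ // D.sum (fun x m => m * dY x) =
        m * dY y₁ * dY y₂} => D.1 y₁) hij
      simp only [Finsupp.add_apply, Finsupp.single_eq_same,
        Finsupp.single_apply, if_neg hy.symm, add_zero] at h1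
      exact Fin.ext (Nat.eq_of_mul_eq_mul_right (hY y₂) h1)
  simpa using h

/-- If `P = (1 - X)(1 - qX) Z` then `P(1/q) ≠ 0`. -/
theorem eval_ne_zero {Y : Type*} (dY : Y → ℕ) (hY : ∀ y, 0 < dY y)
    (fY : ∀ d, {x : Y | dY x ≤ d}.Finite) (y₁ y₂ : Y) (hy : y₁ ≠ y₂) (q : ℕ) (hq : 2 ≤ q)
    (P : Polynomial ℤ)
    (hP : (P : PowerSeries ℤ) = (1 - PowerSeries.X) * (1 - (q : PowerSeries ℤ) * PowerSeries.X) *
      zetaSeries dY) : Polynomial.aeval (1 / (q : ℚ)) P ≠ 0 := by
  intro h0
  -- `P = (1 - qX) * Q` over `ℚ`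
  have hq0 : (q : ℚ) ≠ 0 := by
    have : (0 : ℚ) < q := by exact_mod_cast (by omega : 0 < q)
    exact this.ne'
  set PQ : Polynomial ℚ := P.map (Int.castRingHom ℚ) with hPQ
  have hroot : PQ.IsRoot (1 / (q : ℚ)) := by
    rw [Polynomial.IsRoot, hPQ, Polynomial.eval_map, ← h0, Polynomial.aeval_def]
    rfl
  obtain ⟨Q, hQ⟩ := Polynomial.dvd_iff_isRoot.mpr hroot
  -- `(1 - qX) * (-(1/q) Q) = (X - 1/q) Q`
  set Z : PowerSeries ℚ := PowerSeries.map (Int.castRingHom ℚ) (zetaSeries dY) with hZ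
  have hPZ : (PQ : PowerSeries ℚ) = (1 - PowerSeries.X) *
      (1 - (q : PowerSeries ℚ) * PowerSeries.X) * Z := by
    have h1 := congrArg (PowerSeries.map (Int.castRingHom ℚ)) hP
    rw [hPQ, Polynomial.polynomial_map_coe, h1, hZ]
    simp only [map_mul, map_sub, map_one, PowerSeries.map_X, map_natCast]
  have h2 : (1 - PowerSeries.X) * Z = ((Polynomial.C (-(1 / (q : ℚ))) * Q : Polynomial ℚ) :
      PowerSeries ℚ) := by
    have h3 : (1 - (q : PowerSeries ℚ) * PowerSeries.X) ≠ 0 := by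
      intro h4
      have := congrArg PowerSeries.constantCoeff h4
      simp at this
    apply mul_left_cancel₀ h3
    have h5 : (1 - (q : PowerSeries ℚ) * PowerSeries.X) =
        ((1 - (q : Polynomial ℚ) * Polynomial.X : Polynomial ℚ) : PowerSeries ℚ) := by
      have h8 : ((q : Polynomial ℚ) : PowerSeries ℚ) = (q : PowerSeries ℚ) :=
        map_natCast Polynomial.coeToPowerSeries.ringHom q
      push_cast
      rw [h8]
    have h6 : (1 - (q : Polynomial ℚ) * Polynomial.X) * (Polynomial.C (-(1 / (q : ℚ))) * Q) =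
        PQ := by
      rw [hQ]
      have h7 : Polynomial.C (1 / (q : ℚ)) * (q : Polynomial ℚ) = 1 := by
        rw [← Polynomial.C_eq_natCast, ← Polynomial.C_mul, one_div_mul_cancel hq0,
          Polynomial.C_1]
      rw [Polynomial.C_neg]
      linear_combination (Polynomial.X * Q) * h7
    calc (1 - (q : PowerSeries ℚ) * PowerSeries.X) * ((1 - PowerSeries.X) * Z)
        = (PQ : PowerSeries ℚ) := by rw [hPZ]; ring
      _ = _ := by rw [← h6, h5, Polynomial.coe_mul]
  -- `divCount` is eventually constant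
  set W : Polynomial ℚ := Polynomial.C (-(1 / (q : ℚ))) * Q with hW
  have h3 : ∀ d, W.natDegree ≤ d → divCount dY (d + 1) = divCount dY d := by
    intro d hd
    have h4 := congrArg (PowerSeries.coeff (d + 1)) h2
    rw [Polynomial.coeff_coe, Polynomial.coeff_eq_zero_of_natDegree_lt (by omega), sub_mul,
      one_mul, map_sub, PowerSeries.coeff_succ_X_mul, hZ, PowerSeries.coeff_map,
      PowerSeries.coeff_map, zetaSeries, PowerSeries.coeff_mk, PowerSeries.coeff_mk] at h4
    have h5 : ((divCount dY (d + 1) : ℕ) : ℚ) = ((divCount dY d : ℕ) : ℚ) := by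
      have := sub_eq_zero.mp h4
      simpa using this
    exact_mod_cast h5
  have h4 : ∀ d, W.natDegree ≤ d → divCount dY d = divCount dY W.natDegree := by
    intro d hd
    induction d, hd using Nat.le_induction with
    | base => rfl
    | succ d hd ih => rw [h3 d hd, ih]
  set M := divCount dY W.natDegree
  have h5 := divCount_lower dY hY fY y₁ y₂ hy (W.natDegree + M)
  rw [h4 _ (by
    have := hY y₁
    have := hY y₂
    calc W.natDegree ≤ W.natDegree + M := Nat.le_add_right _ _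
      _ ≤ (W.natDegree + M) * dY y₁ := Nat.le_mul_of_pos_right _ (hY y₁)
      _ ≤ (W.natDegree + M) * dY y₁ * dY y₂ := Nat.le_mul_of_pos_right _ (hY y₂))] at h5
  omega


theorem coe_trunc_of_zero (A : PowerSeries R) (N : ℕ) (h : ∀ n, N ≤ n → PowerSeries.coeff n A = 0) :
    ((PowerSeries.trunc N A : Polynomial R) : PowerSeries R) = A := by
  ext n
  rw [Polynomial.coeff_coe, PowerSeries.coeff_trunc]
  split_ifs with h1
  · rfl
  · exact (h n (not_lt.mp h1)).symm

theorem aeval_prod_ne_zero {ι : Type*} (I : Finset ι) (m : ι → ℕ) (hm : ∀ i, 0 < m i) (q : ℕ)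
    (hq : 2 ≤ q) :
    Polynomial.aeval (1 / (q : ℚ)) (∏ i ∈ I, (1 - Polynomial.X ^ m i : Polynomial ℤ)) ≠ 0 := by
  rw [map_prod, Finset.prod_ne_zero_iff]
  intro i _
  simp only [map_sub, map_one, map_pow, Polynomial.aeval_X]
  have hq1 : (1 : ℚ) < q := by exact_mod_cast (by omega : 1 < q)
  have h1 : (1 / (q : ℚ)) < 1 := by
    rw [div_lt_one (by linarith)]
    exact hq1
  have h2 : (1 / (q : ℚ)) ^ m i < 1 := pow_lt_one₀ (by positivity) h1 (hm i).ne'
  linarith

theorem aeval_factor (q : ℕ) (hq : 2 ≤ q) :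
    Polynomial.aeval (1 / (q : ℚ)) (1 - (q : Polynomial ℤ) * Polynomial.X : Polynomial ℤ) = 0 := by
  have hq0 : (q : ℚ) ≠ 0 := by
    have : (0 : ℚ) < q := by exact_mod_cast (by omega : 0 < q)
    exact this.ne'
  simp only [map_sub, map_one, map_mul, Polynomial.aeval_X, map_natCast]
  rw [mul_one_div_cancel hq0, sub_self]

theorem coe_factor (q : ℕ) :
    (((1 - Polynomial.X) * (1 - (q : Polynomial ℤ) * Polynomial.X) : Polynomial ℤ) :
      PowerSeries ℤ) = (1 - PowerSeries.X) * (1 - (q : PowerSeries ℤ) * PowerSeries.X) := by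
  have h8 : ((q : Polynomial ℤ) : PowerSeries ℤ) = (q : PowerSeries ℤ) :=
    map_natCast Polynomial.coeToPowerSeries.ringHom q
  push_cast
  rw [h8]

theorem coe_prod {ι : Type*} (I : Finset ι) (f : ι → Polynomial R) :
    ((∏ i ∈ I, f i : Polynomial R) : PowerSeries R) = ∏ i ∈ I, (f i : PowerSeries R) :=
  map_prod Polynomial.coeToPowerSeries.ringHom f I

theorem pSum_one_eq {Y : Type*} (dY : Y → ℕ) (fY : ∀ d, {x : Y | dY x ≤ d}.Finite) (k : ℕ)
    (hk : 1 ≤ k) : pSum dY (fun _ => (1 : ℤ)) k =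
      ∑ y ∈ (pSet_finite dY fY k hk).toFinset, (dY y : ℤ) := by
  rw [pSum, finsum_mem_eq_finite_toFinset_sum _ (pSet_finite dY fY k hk)]
  simp

/-- The zeta function with finitely many Euler factors removed. -/
theorem hasLog_remove {Y : Type*} [DecidableEq Y] (dY : Y → ℕ) (hY : ∀ y, 0 < dY y)
    (fY : ∀ d, {x : Y | dY x ≤ d}.Finite) (T : Finset Y) :
    HasLog (zetaSeries dY * ((∏ y ∈ T, (1 - Polynomial.X ^ dY y) : Polynomial ℤ) : PowerSeries ℤ))
      (fun k => if hk : 1 ≤ k then
        ∑ y ∈ (pSet_finite dY fY k hk).toFinset \ T, (dY y : ℤ) else 0) := by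
  have h1 : ((∏ y ∈ T, (1 - Polynomial.X ^ dY y) : Polynomial ℤ) : PowerSeries ℤ) =
      ∏ y ∈ T, (1 - PowerSeries.X ^ dY y) := by
    rw [coe_prod]
    refine Finset.prod_congr rfl fun y _ => ?_
    push_cast
    rfl
  rw [h1]
  refine ((hasLog_zeta dY hY fY).mul (HasLog.prod T (fun y _ =>
    hasLog_one_sub_X_pow (R := ℤ) (dY y) (hY y)))).congr ?_
  intro k hk
  rw [dif_pos hk, pSum_one_eq dY fY k hk, ← Finset.sum_filter]
  simp only [Finset.sum_neg_distrib]
  rw [← sub_eq_add_neg, sub_eq_iff_eq_add]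
  have h2 : T.filter (fun y => dY y ∣ k) = (pSet_finite dY fY k hk).toFinset ∩ T := by
    ext y
    simp only [Finset.mem_filter, Finset.mem_inter, Set.Finite.mem_toFinset, Set.mem_ofPred_eq]
    tauto
  rw [h2, add_comm, Finset.sum_inter_add_sum_sdiff]

/-- Module Z2 : if all but finitely many places have degree divisible by `r ≥ 2`, the zeta
function is not of the form `P / ((1 - s)(1 - q s))`. -/
theorem zeta_contradiction {Y : Type*} (dY : Y → ℕ) (hY : ∀ y, 0 < dY y)
    (fY : ∀ d, {x : Y | dY x ≤ d}.Finite) (r : ℕ) (hr : 2 ≤ r) (T : Set Y) (hT : T.Finite)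
    (hTr : ∀ y ∉ T, r ∣ dY y) (y₁ y₂ : Y) (hy : y₁ ≠ y₂) (q : ℕ) (hq : 2 ≤ q) (P : Polynomial ℤ)
    (hP : (P : PowerSeries ℤ) = (1 - PowerSeries.X) * (1 - (q : PowerSeries ℤ) * PowerSeries.X) *
      zetaSeries dY) : False := by
  classical
  set U : Polynomial ℤ := P * ∏ y ∈ hT.toFinset, (1 - Polynomial.X ^ dY y) with hU
  set G : PowerSeries ℤ := zetaSeries dY *
    ((∏ y ∈ hT.toFinset, (1 - Polynomial.X ^ dY y) : Polynomial ℤ) : PowerSeries ℤ) with hG
  have hlog := hasLog_remove dY hY fY hT.toFinset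
  rw [← hG, hasLog_iff] at hlog
  have hUG : (U : PowerSeries ℤ) = (1 - PowerSeries.X) *
      (1 - (q : PowerSeries ℤ) * PowerSeries.X) * G := by
    rw [hU, Polynomial.coe_mul, hP, hG]; ring
  -- support
  have hsupp : ∀ d, ¬ r ∣ d → PowerSeries.coeff d G = 0 := by
    intro d
    induction d using Nat.strong_induction_on with
    | _ d ih =>
      intro hd
      have hd0 : d ≠ 0 := fun h => hd (h ▸ dvd_zero r)
      have h1 := hlog.2 d
      have h2 : ∑ k ∈ Finset.Icc 1 d, (if hk : 1 ≤ k then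
          ∑ y ∈ (pSet_finite dY fY k hk).toFinset \ hT.toFinset, (dY y : ℤ) else 0) *
          PowerSeries.coeff (d - k) G = 0 := by
        refine Finset.sum_eq_zero fun k hk => ?_
        rw [Finset.mem_Icc] at hk
        by_cases hrk : r ∣ k
        · rw [ih (d - k) (by omega) (fun h => hd ?_), mul_zero]
          have := (Nat.dvd_add h hrk)
          rwa [Nat.sub_add_cancel hk.2] at this
        · rw [dif_pos hk.1, Finset.sum_eq_zero, zero_mul]
          intro y hy
          simp only [Finset.mem_sdiff, Set.Finite.mem_toFinset, Set.mem_ofPred_eq] at hy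
          exact absurd ((hTr y hy.2).trans hy.1) hrk
      rw [h2] at h1
      rcases mul_eq_zero.mp h1 with h | h
      · exact absurd (by exact_mod_cast h) hd0
      · exact h
  -- recurrence
  have hrec : ∀ n, U.natDegree ≤ n → PowerSeries.coeff (n + 2) G =
      ((q : ℤ) + 1) * PowerSeries.coeff (n + 1) G - q * PowerSeries.coeff n G := by
    intro n hn
    have h1 := congrArg (PowerSeries.coeff (n + 2)) hUG
    rw [Polynomial.coeff_coe, Polynomial.coeff_eq_zero_of_natDegree_lt (by omega)] at h1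
    have h2 : (1 - PowerSeries.X) * (1 - (q : PowerSeries ℤ) * PowerSeries.X) * G =
        G - PowerSeries.X * ((PowerSeries.C ((q : ℤ) + 1)) * G) +
          PowerSeries.X * (PowerSeries.X * (PowerSeries.C (q : ℤ) * G)) := by
      have h3 : (q : PowerSeries ℤ) = PowerSeries.C (q : ℤ) := by simp
      rw [h3, map_add, map_one]
      ring
    rw [h2, map_add, map_sub, PowerSeries.coeff_succ_X_mul, PowerSeries.coeff_succ_X_mul,
      PowerSeries.coeff_succ_X_mul, PowerSeries.coeff_C_mul, PowerSeries.coeff_C_mul] at h1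
    linarith
  have hvan : ∀ n, U.natDegree + 1 ≤ n → PowerSeries.coeff n G = 0 := by
    intro n hn
    by_cases hrn : r ∣ n
    · obtain ⟨m, rfl⟩ : ∃ m, n = m + 1 := ⟨n - 1, by omega⟩
      have h1 := hrec m (by omega)
      have hr1 : ¬ r ∣ 1 := fun h => by
        have := Nat.le_of_dvd one_pos h; omega
      rw [hsupp (m + 2) (fun h => hr1 ((Nat.dvd_add_right hrn).mp h)),
        hsupp m (fun h => hr1 ((Nat.dvd_add_right h).mp hrn)), mul_zero, sub_zero] at h1
      rcases mul_eq_zero.mp h1.symm with h | h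
      · exfalso
        have : (0 : ℤ) ≤ q := Int.natCast_nonneg q
        linarith
      · exact h
    · exact hsupp n hrn
  -- evaluate
  set G' : Polynomial ℤ := PowerSeries.trunc (U.natDegree + 1) G with hG'
  have hGG : (G' : PowerSeries ℤ) = G := coe_trunc_of_zero G _ hvan
  have hU2 : U = (1 - Polynomial.X) * (1 - (q : Polynomial ℤ) * Polynomial.X) * G' := by
    apply Polynomial.coe_injective
    rw [hUG, Polynomial.coe_mul, coe_factor, hGG]
  have h1 : Polynomial.aeval (1 / (q : ℚ)) U = 0 := by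
    rw [hU2, map_mul, map_mul, aeval_factor q hq, mul_zero, zero_mul]
  rw [hU, map_mul] at h1
  rcases mul_eq_zero.mp h1 with h | h
  · exact eval_ne_zero dY hY fY y₁ y₂ hy q hq P hP h
  · exact aeval_prod_ne_zero _ _ hY q hq h


/-- Module Z3 : almost all places cannot split completely in an extension of degree `p ≥ 2`. -/
theorem zeta_split_contradiction (p : ℕ) (hp : 2 ≤ p) {X Y : Type*} (dX : X → ℕ) (dY : Y → ℕ)
    (hX : ∀ x, 0 < dX x) (hY : ∀ y, 0 < dY y)
    (fX : ∀ d, {x : X | dX x ≤ d}.Finite) (fY : ∀ d, {x : Y | dY x ≤ d}.Finite)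
    (S : Set X) (hS : S.Finite) (π : Y → X) (hπ : ∀ x, (π ⁻¹' {x}).Finite)
    (hsplit : ∀ x ∉ S, (π ⁻¹' {x}).ncard = p ∧ ∀ y, π y = x → dY y = dX x)
    (x₁ x₂ : X) (hx : x₁ ≠ x₂) (q : ℕ) (hq : 2 ≤ q) (P P' : Polynomial ℤ)
    (hP : (P : PowerSeries ℤ) = (1 - PowerSeries.X) * (1 - (q : PowerSeries ℤ) * PowerSeries.X) *
      zetaSeries dX)
    (hP' : (P' : PowerSeries ℤ) = (1 - PowerSeries.X) *
      (1 - (q : PowerSeries ℤ) * PowerSeries.X) * zetaSeries dY) : False := by
  classical
  have hTY : (π ⁻¹' S).Finite := by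
    have : π ⁻¹' S = ⋃ x ∈ S, π ⁻¹' {x} := by
      ext y; simp
    rw [this]
    exact hS.biUnion fun x _ => hπ x
  set QY : Polynomial ℤ := ∏ y ∈ hTY.toFinset, (1 - Polynomial.X ^ dY y) with hQY
  set QX : Polynomial ℤ := ∏ x ∈ hS.toFinset, (1 - Polynomial.X ^ dX x) with hQX
  have hlogY := hasLog_remove dY hY fY hTY.toFinset
  have hlogX := hasLog_remove dX hX fX hS.toFinset
  rw [← hQY] at hlogY
  rw [← hQX] at hlogX
  have hlogXp := HasLog.prod (Finset.range p) (fun _ _ => hlogX)
  rw [Finset.prod_const, Finset.card_range] at hlogXp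
  have hAB : zetaSeries dY * (QY : PowerSeries ℤ) = (zetaSeries dX * (QX : PowerSeries ℤ)) ^ p := by
    refine hlogY.unique (hlogXp.congr ?_)
    intro k hk
    rw [dif_pos hk, dif_pos hk, Finset.sum_const, Finset.card_range, nsmul_eq_mul]
    rw [← Finset.sum_fiberwise_of_maps_to (s := (pSet_finite dY fY k hk).toFinset \ hTY.toFinset)
      (t := (pSet_finite dX fX k hk).toFinset \ hS.toFinset) (g := π), Finset.mul_sum]
    · refine Finset.sum_congr rfl fun x hx => ?_
      simp only [Finset.mem_sdiff, Set.Finite.mem_toFinset, Set.mem_ofPred_eq] at hx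
      obtain ⟨hn, hd⟩ := hsplit x hx.2
      have h1 : ((pSet_finite dY fY k hk).toFinset \ hTY.toFinset).filter (fun y => π y = x) =
          (hπ x).toFinset := by
        ext y
        simp only [Finset.mem_filter, Finset.mem_sdiff, Set.Finite.mem_toFinset,
          Set.mem_ofPred_eq, Set.mem_preimage, Set.mem_singleton_iff]
        constructor
        · rintro ⟨_, h⟩; exact h
        · intro h
          refine ⟨⟨?_, ?_⟩, h⟩
          · rw [hd y h]; exact hx.1
          · rw [h]; exact hx.2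
      rw [h1, Finset.sum_congr rfl (g := fun _ => (dX x : ℤ)), Finset.sum_const, nsmul_eq_mul]
      · rw [← Set.ncard_eq_toFinset_card _ (hπ x), hn]
      · intro y hy
        simp only [Set.Finite.mem_toFinset, Set.mem_preimage, Set.mem_singleton_iff] at hy
        rw [hd y hy]
    · intro y hy
      simp only [Finset.mem_sdiff, Set.Finite.mem_toFinset, Set.mem_ofPred_eq,
        Set.mem_preimage] at hy ⊢
      refine ⟨?_, hy.2⟩
      rw [← (hsplit (π y) hy.2).2 y rfl]; exact hy.1
  set Φ : Polynomial ℤ := (1 - Polynomial.X) * (1 - (q : Polynomial ℤ) * Polynomial.X) with hΦ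
  have hpoly : P' * QY * Φ ^ (p - 1) = (P * QX) ^ p := by
    apply Polynomial.coe_injective
    push_cast
    rw [hΦ, coe_factor, hP, hP']
    calc (1 - PowerSeries.X) * (1 - (q : PowerSeries ℤ) * PowerSeries.X) * zetaSeries dY *
          (QY : PowerSeries ℤ) * ((1 - PowerSeries.X) *
            (1 - (q : PowerSeries ℤ) * PowerSeries.X)) ^ (p - 1) =
          (zetaSeries dY * (QY : PowerSeries ℤ)) * ((1 - PowerSeries.X) *
            (1 - (q : PowerSeries ℤ) * PowerSeries.X)) ^ (p - 1 + 1) := by rw [pow_succ]; ring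
      _ = (zetaSeries dX * (QX : PowerSeries ℤ)) ^ p * ((1 - PowerSeries.X) *
            (1 - (q : PowerSeries ℤ) * PowerSeries.X)) ^ p := by
          rw [hAB, Nat.sub_add_cancel (by omega)]
      _ = _ := by rw [← mul_pow]; congr 1; ring
  have h1 := congrArg (Polynomial.aeval (1 / (q : ℚ))) hpoly
  have hΦ0 : Polynomial.aeval (1 / (q : ℚ)) Φ = 0 := by
    rw [hΦ, map_mul, aeval_factor q hq, mul_zero]
  rw [map_mul, map_pow, hΦ0, zero_pow (by omega), mul_zero, map_pow, map_mul] at h1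
  have h2 := pow_eq_zero_iff (n := p) (by omega) |>.mp h1.symm
  rcases mul_eq_zero.mp h2 with h | h
  · exact eval_ne_zero dX hX fX x₁ x₂ hx q hq P hP h
  · exact aeval_prod_ne_zero _ _ hX q hq h


/-- Ramanujan sum for a prime power. -/
theorem ramanujan (p : ℕ) [Fact p.Prime] (n : ℕ) (hn : 1 ≤ n) {E : Type*} [Field E]
    (ζ : E) (hζ : IsPrimitiveRoot ζ (p ^ n)) (m : ℕ) :
    ∑ a ∈ (Finset.range (p ^ n)).filter (fun a => a.Coprime p), ζ ^ (a * m) =
      (if p ^ n ∣ m then (p ^ n : E) else 0) -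
          (if p ^ (n - 1) ∣ m then (p ^ (n - 1) : E) else 0) := by
  have hp : p.Prime := Fact.out
  obtain ⟨k, rfl⟩ : ∃ k, n = k + 1 := ⟨n - 1, by omega⟩
  rw [Nat.add_sub_cancel]
  have hgeom : ∀ (z : E) (N : ℕ), z ^ N = 1 → z ≠ 1 → ∑ a ∈ Finset.range N, z ^ a = 0 := by
    intro z N hz hz1
    rw [geom_sum_eq hz1, hz, sub_self, zero_div]
  have h1 : ∑ a ∈ Finset.range (p ^ (k + 1)), ζ ^ (a * m) =
      if p ^ (k + 1) ∣ m then (p ^ (k + 1) : E) else 0 := by
    simp only [mul_comm _ m, pow_mul]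
    split_ifs with h
    · rw [(hζ.pow_eq_one_iff_dvd m).mpr h]
      simp
    · refine hgeom _ _ ?_ (fun h2 => h ((hζ.pow_eq_one_iff_dvd m).mp h2))
      rw [← pow_mul, mul_comm, pow_mul, hζ.pow_eq_one, one_pow]
  have h2 : ∑ a ∈ (Finset.range (p ^ (k + 1))).filter (fun a => ¬ a.Coprime p), ζ ^ (a * m) =
      if p ^ k ∣ m then (p ^ k : E) else 0 := by
    have himg : (Finset.range (p ^ (k + 1))).filter (fun a => ¬ a.Coprime p) =
        (Finset.range (p ^ k)).image (fun b => b * p) := by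
      ext a
      simp only [Finset.mem_filter, Finset.mem_range, Finset.mem_image]
      rw [Nat.coprime_comm, hp.coprime_iff_not_dvd, not_not]
      constructor
      · rintro ⟨h1, b, rfl⟩
        refine ⟨b, ?_, mul_comm _ _⟩
        rw [pow_succ, mul_comm] at h1
        exact lt_of_mul_lt_mul_right' h1
      · rintro ⟨b, hb, rfl⟩
        refine ⟨?_, Dvd.intro_left _ rfl⟩
        rw [pow_succ]
        exact Nat.mul_lt_mul_of_pos_right hb hp.pos
    rw [himg, Finset.sum_image (by
      intro a _ b _ h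
      exact Nat.eq_of_mul_eq_mul_right hp.pos h)]
    have h3 : ∀ b, ζ ^ (b * p * m) = (ζ ^ (p * m)) ^ b := by
      intro b
      rw [← pow_mul]
      congr 1
      ring
    simp only [h3]
    have h4 : p ^ (k + 1) ∣ p * m ↔ p ^ k ∣ m := by
      rw [pow_succ, mul_comm (p ^ k) p]
      exact Nat.mul_dvd_mul_iff_left hp.pos
    split_ifs with h
    · rw [(hζ.pow_eq_one_iff_dvd (p * m)).mpr (h4.mpr h)]
      simp
    · refine hgeom _ _ ?_ (fun h2 => h (h4.mp ((hζ.pow_eq_one_iff_dvd (p * m)).mp h2)))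
      rw [← pow_mul, show p * m * p ^ k = p ^ (k + 1) * m by ring, pow_mul, hζ.pow_eq_one, one_pow]
  have h3 := Finset.sum_filter_add_sum_filter_not (Finset.range (p ^ (k + 1)))
    (fun a => a.Coprime p) (fun a => ζ ^ (a * m))
  rw [h1, h2] at h3
  rw [← h3]
  ring

theorem HasLog.map {S : Type*} [CommRing S] (φ : R →+* S) {A : PowerSeries R} {s : ℕ → R}
    (hA : HasLog A s) : HasLog (PowerSeries.map φ A) (fun k => φ (s k)) := by
  rw [hasLog_iff] at hA ⊢
  refine ⟨?_, fun d => ?_⟩
  · rw [← PowerSeries.coeff_zero_eq_constantCoeff_apply, PowerSeries.coeff_map,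
      PowerSeries.coeff_zero_eq_constantCoeff_apply, hA.1, map_one]
  · simp only [PowerSeries.coeff_map]
    rw [← map_natCast φ d, ← map_mul, hA.2 d, map_sum]
    simp only [map_mul]

/-- If all roots of a polynomial with constant coefficient one lie in `F`, so do its
coefficients. -/
theorem coeff_mem_of_roots {E : Type*} [Field E] [IsAlgClosed E] (F : Subfield E)
    (L : Polynomial E) (h0 : L.coeff 0 = 1) (hF : ∀ r : E, L.eval r = 0 → r ∈ F) (i : ℕ) :
    L.coeff i ∈ F := by
  have hL0 : L ≠ 0 := by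
    rintro rfl
    simp at h0
  have hsplit := (IsAlgClosed.splits L).eq_prod_roots
  set M := (L.roots.map (fun r => Polynomial.X - Polynomial.C r)).prod with hM
  have hMF : ∀ j, M.coeff j ∈ F := by
    have h1 : M ∈ Polynomial.lifts F.subtype := by
      rw [hM]
      refine Subsemiring.multiset_prod_mem _ _ ?_
      intro x hx
      rw [Multiset.mem_map] at hx
      obtain ⟨r, hr, rfl⟩ := hx
      have hr' : r ∈ F := hF r (Polynomial.isRoot_of_mem_roots hr)
      rw [Polynomial.mem_lifts]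
      exact ⟨Polynomial.X - Polynomial.C ⟨r, hr'⟩, by simp⟩
    intro j
    have h2 := (Polynomial.lifts_iff_coeff_lifts M).mp h1 j
    obtain ⟨x, hx⟩ := h2
    rw [← hx]
    exact x.2
  have hlead : L.leadingCoeff ∈ F := by
    have h1 : L.leadingCoeff * M.coeff 0 = 1 := by
      rw [← h0]
      conv_rhs => rw [hsplit]
      rw [Polynomial.coeff_C_mul]
    have h2 : L.leadingCoeff = (M.coeff 0)⁻¹ := eq_inv_of_mul_eq_one_left h1
    rw [h2]
    exact F.inv_mem (hMF 0)
  rw [hsplit, Polynomial.coeff_C_mul]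
  exact F.mul_mem hlead (hMF i)

/-- Newton: if the coefficients of `A` lie in `F`, so do the power sums. -/
theorem HasLog.mem {E : Type*} [Field E] (F : Subfield E) {A : PowerSeries E} {s : ℕ → E}
    (hA : HasLog A s) (h : ∀ d, PowerSeries.coeff d A ∈ F) : ∀ k, 1 ≤ k → s k ∈ F := by
  rw [hasLog_iff] at hA
  intro k
  induction k using Nat.strong_induction_on with
  | _ k ih =>
    intro hk
    have h1 := hA.2 k
    obtain ⟨m, rfl⟩ : ∃ m, k = m + 1 := ⟨k - 1, by omega⟩
    rw [Finset.sum_Icc_succ_top hk, Nat.sub_self, PowerSeries.coeff_zero_eq_constantCoeff_apply,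
      hA.1, mul_one] at h1
    have h2 : s (m + 1) = ((m + 1 : ℕ) : E) * PowerSeries.coeff (m + 1) A -
        ∑ k ∈ Finset.Icc 1 m, s k * PowerSeries.coeff (m + 1 - k) A := by
      rw [h1]; ring
    rw [h2]
    refine F.sub_mem (F.mul_mem (natCast_mem F _) (h _)) (F.sum_mem fun j hj => ?_)
    rw [Finset.mem_Icc] at hj
    exact F.mul_mem (ih j (by omega) hj.1) (h _)

/-- Module Z1 : the power sums of the `L`-function of a primitive character lie in the field
generated by the roots of `P n`. -/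
theorem pSum_mem (p : ℕ) [Fact p.Prime] (n : ℕ) (hn : 1 ≤ n)
    {E : Type*} [Field E] [CharZero E] [IsAlgClosed E] (ζ : E) (hζ : IsPrimitiveRoot ζ (p ^ n))
    {X Y Y' : Type*} (dX : X → ℕ) (dY : Y → ℕ) (dY' : Y' → ℕ)
    (hX : ∀ x, 0 < dX x) (hY : ∀ y, 0 < dY y) (hY' : ∀ y, 0 < dY' y)
    (fX : ∀ d, {x : X | dX x ≤ d}.Finite) (fY : ∀ d, {x : Y | dY x ≤ d}.Finite)
    (fY' : ∀ d, {x : Y' | dY' x ≤ d}.Finite)
    (f : X → ℕ)
    (hN : ∀ k, 1 ≤ k → pSum dY (fun _ => (1 : ℤ)) k = pSum dY' (fun _ => (1 : ℤ)) k +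
      ∑ᶠ x ∈ {x : X | dX x ∣ k}, (dX x : ℤ) *
        ((if p ^ n ∣ f x * (k / dX x) then (p ^ n : ℤ) else 0) -
          (if p ^ (n - 1) ∣ f x * (k / dX x) then (p ^ (n - 1) : ℤ) else 0)))
    (hPL : ∃ d₀, ∀ a : ℕ, a.Coprime p → ∀ d ≥ d₀, divSum dX (fun x => ζ ^ (a * f x)) d = 0)
    (P P' : Polynomial ℤ) (q : ℕ)
    (hP : (P : PowerSeries ℤ) = (1 - PowerSeries.X) * (1 - (q : PowerSeries ℤ) * PowerSeries.X) *
      zetaSeries dY)
    (hP' : (P' : PowerSeries ℤ) = (1 - PowerSeries.X) *
      (1 - (q : PowerSeries ℤ) * PowerSeries.X) * zetaSeries dY')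
    (F : Subfield E) (hF : ∀ r : E, (P.map (Int.castRingHom E)).eval r = 0 → r ∈ F) :
    ∀ k, 1 ≤ k → pSum dX (fun x => ζ ^ (f x)) k ∈ F := by
  classical
  have hp : p.Prime := Fact.out
  obtain ⟨d₀, hd₀⟩ := hPL
  set I : Finset ℕ := (Finset.range (p ^ n)).filter (fun a => a.Coprime p) with hI
  set φ : ℤ →+* E := Int.castRingHom E with hφ
  set A : ℕ → PowerSeries E := fun a => PowerSeries.mk (divSum dX (fun x => ζ ^ (a * f x))) with hA
  have hAlog : ∀ a, HasLog (A a) (pSum dX (fun x => ζ ^ (a * f x))) := fun a =>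
    hasLog_series dX hX fX _
  have hkey : PowerSeries.map φ (zetaSeries dY) =
      PowerSeries.map φ (zetaSeries dY') * ∏ a ∈ I, A a := by
    refine ((hasLog_zeta dY hY fY).map φ).unique ((((hasLog_zeta dY' hY' fY').map φ).mul
      (HasLog.prod I (fun a _ => hAlog a))).congr ?_)
    intro k hk
    rw [hN k hk, map_add]
    congr 1
    rw [finsum_mem_eq_finite_toFinset_sum _ (pSet_finite dX fX k hk), map_sum]
    have h1 : ∀ a ∈ I, pSum dX (fun x => ζ ^ (a * f x)) k =
        ∑ x ∈ (pSet_finite dX fX k hk).toFinset, (dX x : E) * ζ ^ (a * (f x * (k / dX x))) := by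
      intro a _
      rw [pSum, finsum_mem_eq_finite_toFinset_sum _ (pSet_finite dX fX k hk)]
      refine Finset.sum_congr rfl fun x _ => ?_
      rw [← pow_mul, mul_assoc]
    rw [Finset.sum_congr rfl h1, Finset.sum_comm]
    refine Finset.sum_congr rfl fun x _ => ?_
    rw [← Finset.mul_sum, ramanujan p n hn ζ hζ, map_mul, map_sub]
    have h2 : φ (dX x : ℤ) = (dX x : E) := by simp [hφ]
    rw [h2]
    congr 2
    · split_ifs <;> simp [hφ]
    · split_ifs <;> simp [hφ]
  set L : ℕ → Polynomial E := fun a => PowerSeries.trunc d₀ (A a) with hL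
  have hLA : ∀ a ∈ I, (L a : PowerSeries E) = A a := by
    intro a ha
    refine coe_trunc_of_zero _ _ fun d hd => ?_
    rw [hA, PowerSeries.coeff_mk]
    exact hd₀ a (Finset.mem_filter.mp ha).2 d hd
  have hpoly : P.map φ = P'.map φ * ∏ a ∈ I, L a := by
    apply Polynomial.coe_injective
    rw [Polynomial.coe_mul, coe_prod, Finset.prod_congr rfl hLA, Polynomial.polynomial_map_coe,
      Polynomial.polynomial_map_coe, hP, hP']
    simp only [map_mul]
    rw [hkey]
    ring
  have h1I : 1 ∈ I := by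
    rw [hI, Finset.mem_filter, Finset.mem_range]
    exact ⟨Nat.one_lt_pow (by omega) hp.one_lt, Nat.coprime_one_left p⟩
  have hroots : ∀ r : E, (L 1).eval r = 0 → r ∈ F := by
    intro r hr
    apply hF
    rw [hpoly, Polynomial.eval_mul, Polynomial.eval_prod, Finset.prod_eq_zero h1I hr, mul_zero]
  have hconst : (L 1).coeff 0 = 1 := by
    have h1 : PowerSeries.coeff 0 (L 1 : PowerSeries E) = PowerSeries.coeff 0 (A 1) := by
      rw [hLA 1 h1I]
    rw [Polynomial.coeff_coe, PowerSeries.coeff_zero_eq_constantCoeff_apply, (hAlog 1).1] at h1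
    exact h1
  have hcoef : ∀ d, PowerSeries.coeff d (A 1) ∈ F := by
    intro d
    rw [← hLA 1 h1I, Polynomial.coeff_coe]
    exact coeff_mem_of_roots F (L 1) hconst hroots d
  intro k hk
  have h1 := (hAlog 1).mem F hcoef k hk
  simpa only [one_mul] using h1

end Pool.Agent.Helper18.Wan
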