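import Pool.Agent.Helper47.Wan.GalPlace
import Pool.Agent.Helper47.Wan.Unram
import Pool.Agent.Helper47.Wan.Poly
import Pool.Agent.Helper18.WanZ

open scoped WithZero
open WithZero IsLocalRing
open Pool.Agent.Helper18.Wan

namespace Pool.Agent.Helper47.Wan

/-- The degree of a place over the finite field `k` of constants. -/
noncomputable def kdeg (k : Type*) {F : Type*} [Field F] (v : Place F) : ℕ :=
  Nat.log (Nat.card k) (Nat.card v.Res)

section kdeg

variable (p : ℕ) [hp : Fact p.Prime] (k : Type*) [Field k] [Finite k]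
    {F : Type*} [Field F] [Algebra (ZMod p) F] [Algebra k F]

include p in
theorem card_res_eq_kdeg (hF : IsFunctionField (ZMod p) F) (v : Place F) :
    Nat.card v.Res = Nat.card k ^ kdeg k v ∧ 0 < kdeg k v := by
  have hfin := v.finite_res p hF
  let ψ : k →+* v.ring :=
    { toFun := fun c => ⟨algebraMap k F c, v.val_algebraMap_le c⟩
      map_one' := by ext; simp
      map_zero' := by ext; simp
      map_mul' := fun a b => by ext; simp
      map_add' := fun a b => by ext; simp }
  let _ : Algebra k v.Res := ((IsLocalRing.residue v.ring).comp ψ).toAlgebra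
  have : Module.Finite k v.Res := Module.Finite.of_finite
  have h1 := Module.natCard_eq_pow_finrank (K := k) (V := v.Res)
  have h2 : 1 < Nat.card k := Finite.one_lt_card
  have h3 : kdeg k v = Module.finrank k v.Res := by
    rw [kdeg, h1, Nat.log_pow h2]
  rw [h3]
  exact ⟨h1, Module.finrank_pos⟩

include p in
theorem exists_card_eq (F : Type*) [Field F] [Algebra (ZMod p) F] [Algebra k F] :
    ∃ r : ℕ, 0 < r ∧ Nat.card k = p ^ r := by
  have h1 : CharP F p := charP_of_injective_algebraMap (algebraMap (ZMod p) F).injective p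
  have h2 : CharP k p := (RingHom.charP_iff (algebraMap k F) (algebraMap k F).injective p).mpr h1
  have : Fintype k := Fintype.ofFinite k
  obtain ⟨n, _, hn⟩ := FiniteField.card k p
  exact ⟨n, n.pos, by rw [Nat.card_eq_fintype_card, hn]⟩

theorem deg_eq_kdeg (hF : IsFunctionField (ZMod p) F) {r : ℕ} (hr : Nat.card k = p ^ r)
    (v : Place F) : v.deg p = r * kdeg k v := by
  rw [Place.deg, (card_res_eq_kdeg p k hF v).1, hr, ← pow_mul, Nat.log_pow hp.out.one_lt]

end kdeg

section classes

variable (p : ℕ) [hp : Fact p.Prime] {F : Type*} [Field F] [Algebra (ZMod p) F]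

/-- The effective divisors linearly equivalent to a given one. -/
def linSys (hF : IsFunctionField (ZMod p) F) (D : Place F →₀ ℤ) : Set (Place F →₀ ℤ) :=
  {D' | (∀ v, 0 ≤ D' v) ∧ ∃ z : F, z ≠ 0 ∧ D' = D + divF p hF z}

theorem mem_LL_iff (hF : IsFunctionField (ZMod p) F) {z : F} (hz : z ≠ 0) (D : Place F →₀ ℤ) :
    z ∈ LL p D ↔ ∀ v, 0 ≤ (D + divF p hF z) v := by
  constructor
  · intro h v
    have h3 := h v (Set.mem_univ v)
    rw [v.val_le_exp_iff hz] at h3
    rw [Finsupp.add_apply, divF_apply]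
    linarith
  · intro h v _
    have h3 := h v
    rw [Finsupp.add_apply, divF_apply] at h3
    rw [v.val_le_exp_iff hz]
    linarith

theorem card_linSys (hF : IsFunctionField (ZMod p) F) (k : Type*) [Field k] [Finite k]
    [Algebra k F] (hk : ∀ x : F, IsAlgebraic k x → ∃ c : k, algebraMap k F c = x)
    (D : Place F →₀ ℤ) :
    Nat.card (linSys p hF D) * (Nat.card k - 1) + 1 = p ^ ell p D := by
  classical
  have hconst : ∀ z : F, z ≠ 0 → divF p hF z = 0 → ∃ c : k, c ≠ 0 ∧ algebraMap k F c = z := by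
    intro z hz hdiv
    have h1 : ∀ v : Place F, v.val z ≤ 1 := by
      intro v
      rw [v.val_le_one_iff hz]
      have := DFunLike.congr_fun hdiv v
      rw [divF_apply] at this
      rw [this]; rfl
    have h2 := isAlgebraic_of_forall p hF h1
    -- algebraic over the prime field implies root of unity
    have h3 : FiniteDimensional (ZMod p) (IntermediateField.adjoin (ZMod p) {z}) :=
      IntermediateField.adjoin.finiteDimensional h2.isIntegral
    have h4 : Finite (IntermediateField.adjoin (ZMod p) {z}) := Module.finite_of_finite (ZMod p)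
    have : Fintype (IntermediateField.adjoin (ZMod p) {z}) := Fintype.ofFinite _
    let z' : IntermediateField.adjoin (ZMod p) {z} :=
      ⟨z, IntermediateField.mem_adjoin_simple_self _ z⟩
    have h5 := FiniteField.pow_card z'
    have h6 : z ^ (Fintype.card (IntermediateField.adjoin (ZMod p) {z})) = z :=
      congrArg Subtype.val h5
    have h7 : IsAlgebraic k z := by
      refine ⟨Polynomial.X ^ (Fintype.card (IntermediateField.adjoin (ZMod p) {z})) -
        Polynomial.X, ?_, ?_⟩
      · exact FiniteField.X_pow_card_sub_X_ne_zero k Fintype.one_lt_card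
      · simp [h6]
    obtain ⟨c, hc⟩ := hk z h7
    refine ⟨c, ?_, hc⟩
    rintro rfl
    rw [map_zero] at hc
    exact hz hc.symm
  have hconst' : ∀ c : k, c ≠ 0 → divF p hF (algebraMap k F c) = 0 := by
    intro c hc
    ext v
    rw [divF_apply, Finsupp.coe_zero, Pi.zero_apply]
    exact (v.val_eq_one_iff (by rwa [Ne, map_eq_zero])).1 (v.val_algebraMap_eq hc)
  have hkne : ∀ c : kˣ, algebraMap k F (c : k) ≠ 0 := fun c => by
    rw [Ne, map_eq_zero]; exact c.ne_zero
  have hfinLL := finite_LL p hF D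
  -- choose functions
  have hch : ∀ D' : linSys p hF D, ∃ z : F, z ≠ 0 ∧ (D' : Place F →₀ ℤ) = D + divF p hF z :=
    fun D' => D'.2.2
  choose z hz0 hz using hch
  let A : Type _ := {x : LL p D // x ≠ 0}
  have hmul : ∀ (D' : linSys p hF D) (c : kˣ), divF p hF (algebraMap k F (c : k) * z D') =
      divF p hF (z D') := by
    intro D' c
    rw [divF_mul p hF (hkne c) (hz0 D'), hconst' _ c.ne_zero, zero_add]
  let Ψ : linSys p hF D × kˣ → A := fun x =>
    ⟨⟨algebraMap k F (x.2 : k) * z x.1, by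
      rw [mem_LL_iff p hF (mul_ne_zero (hkne _) (hz0 _)), hmul, ← hz]
      exact x.1.2.1⟩, by
      intro h0
      exact mul_ne_zero (hkne x.2) (hz0 x.1) (congrArg Subtype.val h0)⟩
  have hΨ : Function.Bijective Ψ := by
    constructor
    · rintro ⟨D', c⟩ ⟨D'', c'⟩ h
      have h1 : algebraMap k F (c : k) * z D' = algebraMap k F (c' : k) * z D'' :=
        congrArg (fun x : A => ((x : LL p D) : F)) h
      have h2 : D' = D'' := by
        apply Subtype.ext
        rw [hz D', hz D'', ← hmul D' c, ← hmul D'' c', h1]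
      subst h2
      have h3 := mul_right_cancel₀ (hz0 D') h1
      have h4 := (algebraMap k F).injective h3
      exact Prod.ext rfl (Units.ext h4)
    · rintro ⟨⟨x, hx⟩, hx0⟩
      have hx0' : x ≠ 0 := fun h => hx0 (Subtype.ext h)
      rw [mem_LL_iff p hF hx0'] at hx
      let D' : linSys p hF D := ⟨D + divF p hF x, hx, x, hx0', rfl⟩
      have h1 : divF p hF (x / z D') = 0 := by
        rw [div_eq_mul_inv, divF_mul p hF hx0' (inv_ne_zero (hz0 D')), divF_inv]
        have h2 := hz D'
        change D + divF p hF x = D + divF p hF (z D') at h2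
        rw [add_left_cancel h2, add_neg_cancel]
      obtain ⟨c, hc0, hc⟩ := hconst _ (div_ne_zero hx0' (hz0 D')) h1
      refine ⟨(D', Units.mk0 c hc0), ?_⟩
      apply Subtype.ext
      apply Subtype.ext
      change algebraMap k F ((Units.mk0 c hc0 : kˣ) : k) * z D' = x
      rw [Units.val_mk0, hc, div_mul_cancel₀ _ (hz0 D')]
  have h1 := Nat.card_congr (Equiv.ofBijective Ψ hΨ)
  rw [Nat.card_prod, Nat.card_units] at h1
  rw [h1, ← card_LL p hF D]
  have : Fintype (LL p D) := Fintype.ofFinite _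
  have : Fintype A := Fintype.ofFinite _
  rw [Nat.card_eq_fintype_card, Nat.card_eq_fintype_card]
  have h2 : Fintype.card A = Fintype.card (LL p D) - 1 := by
    have := Fintype.card_subtype_compl (fun x : LL p D => x = 0)
    rw [Fintype.card_subtype_eq] at this
    rw [← this]
  rw [h2]
  have h3 : 0 < Fintype.card (LL p D) := Fintype.card_pos
  omega


theorem linSys_subset (hF : IsFunctionField (ZMod p) F) (D : Place F →₀ ℤ) :
    linSys p hF D ⊆ {D' | (∀ v, 0 ≤ D' v) ∧ degD p D' = degD p D} := by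
  rintro D' ⟨h1, z, _, rfl⟩
  exact ⟨h1, degD_add_divF p hF z D⟩

omit [Algebra (ZMod p) F] hp in
theorem degD_eq_wt {r : ℕ} (e : Place F → ℕ) (he : ∀ v, v.deg p = r * e v)
    (D : Place F →₀ ℤ) : degD p D = r * wt (fun v => (e v : ℤ)) D := by
  rw [degD, wt, Finsupp.sum, Finsupp.sum, Finset.mul_sum]
  refine Finset.sum_congr rfl fun v _ => ?_
  rw [he v]
  push_cast
  ring

/-- Effective divisors of degree `n`, with natural number or integer coefficients. -/
theorem divCount_eq_card (e : Place F → ℕ) (n : ℕ) :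
    divCount e n = Nat.card {D : Place F →₀ ℤ // (∀ v, 0 ≤ D v) ∧
      wt (fun v => (e v : ℤ)) D = n} := by
  classical
  rw [divCount]
  have hwt : ∀ D : Place F →₀ ℕ, wt (fun v => (e v : ℤ)) (D.mapRange (fun m : ℕ => (m : ℤ)) (by simp)) =
      ((D.sum (fun x m => m * e x) : ℕ) : ℤ) := by
    intro D
    rw [wt, Finsupp.sum_mapRange_index (fun v => by simp), Finsupp.sum, Finsupp.sum]
    push_cast
    rfl
  refine Nat.card_congr (Equiv.ofBijective (fun D => ⟨D.1.mapRange (fun m : ℕ => (m : ℤ)) (by simp),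
    fun v => by simp, by rw [hwt, D.2]⟩) ⟨?_, ?_⟩)
  · intro D E h
    apply Subtype.ext
    ext v
    have h1 := congrArg (fun x : {D : Place F →₀ ℤ // (∀ v, 0 ≤ D v) ∧
      wt (fun v => (e v : ℤ)) D = n} => x.1 v) h
    simpa using h1
  · rintro ⟨D, hD0, hD⟩
    have h1 : (D.mapRange Int.toNat (by simp)).mapRange (fun m : ℕ => (m : ℤ)) (by simp) = D := by
      ext v
      simp [hD0 v]
    refine ⟨⟨D.mapRange Int.toNat (by simp), ?_⟩, ?_⟩
    · have h2 := hwt (D.mapRange Int.toNat (by simp))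
      rw [h1, hD] at h2
      exact_mod_cast h2.symm
    · apply Subtype.ext
      exact h1

/-- Rationality, with degrees normalised so that there is a divisor of degree one. -/
theorem exists_numerator_aux (hF : IsFunctionField (ZMod p) F) (k : Type*) [Field k] [Finite k]
    [Algebra k F] (hk : ∀ x : F, IsAlgebraic k x → ∃ c : k, algebraMap k F c = x)
    (δ : ℕ) (hδ : 0 < δ) (e : Place F → ℕ) (he : ∀ v, kdeg k v = δ * e v)
    (D₁ : Place F →₀ ℤ) (hD₁ : wt (fun v => (e v : ℤ)) D₁ = 1) :
    ∃ P : Polynomial ℤ, (P : PowerSeries ℤ) = (1 - PowerSeries.X) *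
      (1 - ((Nat.card k ^ δ : ℕ) : PowerSeries ℤ) * PowerSeries.X) * zetaSeries e := by
  classical
  obtain ⟨r, hr0, hr⟩ := exists_card_eq p k F
  obtain ⟨γ, c, hc⟩ := exists_riemann p hF
  have hq1 : 1 < Nat.card k := Finite.one_lt_card
  have hdeg : ∀ v : Place F, v.deg p = (r * δ) * e v := by
    intro v
    rw [deg_eq_kdeg p k hF hr, he]; ring
  set f : Place F → ℤ := fun v => (e v : ℤ) with hf
  have hdegD : ∀ D : Place F →₀ ℤ, degD p D = (r * δ : ℕ) * wt f D := degD_eq_wt p e hdeg
  have hrδ : 1 ≤ r * δ := Nat.mul_pos hr0 hδ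
  set Q : ℕ := Nat.card k ^ δ with hQ
  have hQp : Q = p ^ (r * δ) := by rw [hQ, hr, ← pow_mul]
  -- finiteness
  have hfinE : ∀ n : ℤ, {D : Place F →₀ ℤ | (∀ v, 0 ≤ D v) ∧ wt f D = n}.Finite := by
    intro n
    refine (finite_effective p hF ((r * δ : ℕ) * n)).subset ?_
    rintro D ⟨h1, h2⟩
    exact ⟨h1, by rw [hdegD, h2]⟩
  set E : ℤ → Finset (Place F →₀ ℤ) := fun n => (hfinE n).toFinset with hE
  have hEmem : ∀ n D, D ∈ E n ↔ (∀ v, 0 ≤ D v) ∧ wt f D = n := fun n D => by simp [hE]
  have ha : ∀ n : ℕ, divCount e n = (E n).card := by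
    intro n
    rw [divCount_eq_card e n, hE, ← Nat.card_eq_card_finite_toFinset]
    rfl
  have hwtdiv : ∀ z : F, wt f (divF p hF z) = 0 := by
    intro z
    have h1 := hdegD (divF p hF z)
    rw [degD_divF] at h1
    rcases mul_eq_zero.mp h1.symm with h | h
    · exfalso
      have : (r * δ : ℕ) = 0 := by exact_mod_cast h
      omega
    · exact h
  -- the size of a linear system
  set N₀ : ℕ := (|c| + |γ| + 1).toNat with hN₀
  have hN₀' : (N₀ : ℤ) = |c| + |γ| + 1 := Int.toNat_of_nonneg (by positivity)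
  have hlin : ∀ (n : ℕ), N₀ ≤ n → ∀ D : Place F →₀ ℤ, wt f D = n →
      (Nat.card (linSys p hF D) * (Nat.card k - 1) + 1 = p ^ ((r * δ : ℕ) * (n : ℤ) - γ).toNat) := by
    intro n hn D hD
    rw [card_linSys p hF k hk D]
    have h1 : c ≤ degD p D := by
      rw [hdegD, hD]
      have h2 : (N₀ : ℤ) ≤ n := by exact_mod_cast hn
      have h3 := le_abs_self c
      have h4 := abs_nonneg γ
      have h5 : (1 : ℤ) ≤ (r * δ : ℕ) := by exact_mod_cast hrδ
      nlinarith [abs_nonneg c]
    have h2 := hc D h1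
    rw [hdegD, hD] at h2
    rw [← h2]
    simp
  have hMpos : ∀ n : ℕ, N₀ ≤ n → 1 ≤ (r * δ : ℕ) * (n : ℤ) - γ := by
    intro n hn
    have h2 : (N₀ : ℤ) ≤ n := by exact_mod_cast hn
    have h3 := le_abs_self γ
    have h4 := abs_nonneg c
    have h5 : (1 : ℤ) ≤ (r * δ : ℕ) := by exact_mod_cast hrδ
    have h6 : (n : ℤ) ≤ (r * δ : ℕ) * (n : ℤ) := by nlinarith [Int.natCast_nonneg n]
    linarith
  set x : ℕ := r * δ with hx
  set t : ℕ → ℕ := fun n => ((x : ℤ) * (n : ℤ) - γ).toNat with ht
  have htn : ∀ n : ℕ, N₀ ≤ n → (t n : ℤ) = (x : ℤ) * n - γ := by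
    intro n hn
    have h1 := hMpos n hn
    exact Int.toNat_of_nonneg (by linarith)
  have htsucc : ∀ n : ℕ, N₀ ≤ n → t (n + 1) = x + t n := by
    intro n hn
    have h1 := htn n hn
    have h2 := htn (n + 1) (by omega)
    have h3 : (t (n + 1) : ℤ) = x + t n := by
      rw [h2, h1]; push_cast; ring
    exact_mod_cast h3
  set M : ℕ → ℤ := fun n => (p : ℤ) ^ t n with hM
  have hMsucc : ∀ n : ℕ, N₀ ≤ n → M (n + 1) = Q * M n := by
    intro n hn
    simp only [hM]
    rw [htsucc n hn, pow_add, hQp]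
    push_cast
    rfl
  have hM2 : ∀ n : ℕ, N₀ ≤ n → 2 ≤ M n := by
    intro n hn
    have h1 := hMpos n hn
    have h2 := htn n hn
    have h3 : 1 ≤ t n := by
      have : (1 : ℤ) ≤ t n := by linarith
      exact_mod_cast this
    have h4 : (2 : ℤ) ≤ p := by exact_mod_cast hp.out.two_le
    calc (2 : ℤ) ≤ p := h4
      _ = (p : ℤ) ^ 1 := (pow_one _).symm
      _ ≤ (p : ℤ) ^ t n := pow_le_pow_right₀ (by linarith) h3
  have hlin' : ∀ n : ℕ, N₀ ≤ n → ∀ D : Place F →₀ ℤ, wt f D = n →
      (Nat.card (linSys p hF D) : ℤ) * ((Nat.card k : ℤ) - 1) = M n - 1 := by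
    intro n hn D hD
    have h1 := hlin n hn D hD
    have h2 : (Nat.card (linSys p hF D) : ℤ) * ((Nat.card k - 1 : ℕ) : ℤ) + 1 = M n := by
      simp only [hM]
      exact_mod_cast h1
    rw [Nat.cast_sub hq1.le] at h2
    push_cast at h2
    linarith
  -- double counting
  have hdc : ∀ n : ℕ, N₀ ≤ n → ((E n).card : ℤ) * (M (n + 1) - 1) =
      ((E (n + 1 : ℕ)).card : ℤ) * (M n - 1) := by
    intro n hn
    let R : (Place F →₀ ℤ) → (Place F →₀ ℤ) → Prop := fun D D' =>
      ∃ z : F, z ≠ 0 ∧ D' = D + D₁ + divF p hF z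
    have h1 := Finset.sum_card_bipartiteAbove_eq_sum_card_bipartiteBelow (s := E n)
      (t := E (n + 1 : ℕ)) R
    have h2 : ∀ D ∈ E n, (((Finset.bipartiteAbove R (E (n + 1 : ℕ)) D).card : ℕ) : ℤ) *
        ((Nat.card k : ℤ) - 1) = M (n + 1) - 1 := by
      intro D hD
      rw [hEmem] at hD
      rw [← hlin' (n + 1) (by omega) (D + D₁) (by rw [wt_add, hD.2, hD₁]; push_cast; rfl)]
      congr 2
      rw [Nat.card_coe_set_eq, ← Set.ncard_coe_finset]
      congr 1
      ext D'
      rw [Finset.mem_coe, Finset.mem_bipartiteAbove, hEmem]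
      constructor
      · rintro ⟨⟨h3, h4⟩, z, hz, h5⟩
        exact ⟨h3, z, hz, h5⟩
      · rintro ⟨h3, z, hz, h5⟩
        refine ⟨⟨h3, ?_⟩, z, hz, h5⟩
        rw [h5, wt_add, wt_add, hwtdiv, hD.2, hD₁]; push_cast; ring
    have h3 : ∀ D' ∈ E (n + 1 : ℕ), (((Finset.bipartiteBelow R (E n) D').card : ℕ) : ℤ) *
        ((Nat.card k : ℤ) - 1) = M n - 1 := by
      intro D' hD'
      rw [hEmem] at hD'
      rw [← hlin' n hn (D' - D₁) (by rw [wt_sub, hD'.2, hD₁]; push_cast; ring)]
      congr 2
      rw [Nat.card_coe_set_eq, ← Set.ncard_coe_finset]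
      congr 1
      ext D
      rw [Finset.mem_coe, Finset.mem_bipartiteBelow, hEmem]
      constructor
      · rintro ⟨⟨h3, h4⟩, z, hz, h5⟩
        refine ⟨h3, z⁻¹, inv_ne_zero hz, ?_⟩
        rw [divF_inv, h5]; abel
      · rintro ⟨h3, z, hz, h5⟩
        refine ⟨⟨h3, ?_⟩, z⁻¹, inv_ne_zero hz, ?_⟩
        · rw [h5, wt_add, wt_sub, hwtdiv, hD'.2, hD₁]; push_cast; ring
        · rw [divF_inv, h5]; abel
    have h4 : (∑ D ∈ E n, (((Finset.bipartiteAbove R (E (n + 1 : ℕ)) D).card : ℕ) : ℤ)) *
        ((Nat.card k : ℤ) - 1) = (∑ D' ∈ E (n + 1 : ℕ),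
          (((Finset.bipartiteBelow R (E n) D').card : ℕ) : ℤ)) * ((Nat.card k : ℤ) - 1) := by
      congr 1
      exact_mod_cast h1
    rw [Finset.sum_mul, Finset.sum_mul, Finset.sum_congr rfl h2, Finset.sum_congr rfl h3,
      Finset.sum_const, Finset.sum_const, nsmul_eq_mul, nsmul_eq_mul] at h4
    exact h4
  -- the recurrence
  have hrec : ∀ n : ℕ, N₀ ≤ n → ((E (n + 2 : ℕ)).card : ℤ) =
      ((Q : ℤ) + 1) * (E (n + 1 : ℕ)).card - Q * (E n).card := by
    intro n hn
    have h1 := hdc n hn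
    have h2 := hdc (n + 1) (by omega)
    have h3 := hMsucc n hn
    have h4 := hMsucc (n + 1) (by omega)
    have h5 := hM2 (n + 1) (by omega)
    rw [h4, h3] at h2
    rw [h3] at h1
    rw [h3] at h5
    have h6 : (Q * M n - 1) * (((E (n + 2 : ℕ)).card : ℤ) -
      (((Q : ℤ) + 1) * (E (n + 1 : ℕ)).card - Q * (E n).card)) = 0 := by
      have h7 : ((E (n + 1 + 1 : ℕ)).card : ℤ) = ((E (n + 2 : ℕ)).card : ℤ) := rfl
      rw [h7] at h2
      linear_combination (Q : ℤ) * h1 - h2
    rcases mul_eq_zero.mp h6 with h | h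
    · exfalso; linarith
    · linarith
  set B : PowerSeries ℤ := (1 - PowerSeries.X) *
      (1 - ((Q : ℕ) : PowerSeries ℤ) * PowerSeries.X) * zetaSeries e with hB
  refine ⟨PowerSeries.trunc (N₀ + 2) B, coe_trunc_of_zero B _ ?_⟩
  intro m hm
  obtain ⟨n, rfl⟩ : ∃ n, m = n + 2 := ⟨m - 2, by omega⟩
  have h2 : B = zetaSeries e - PowerSeries.X * ((PowerSeries.C ((Q : ℤ) + 1)) * zetaSeries e) +
        PowerSeries.X * (PowerSeries.X * (PowerSeries.C (Q : ℤ) * zetaSeries e)) := by
    have h3 : (Q : PowerSeries ℤ) = PowerSeries.C (Q : ℤ) := by simp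
    rw [hB, h3, map_add, map_one]
    ring
  rw [h2, map_add, map_sub, PowerSeries.coeff_succ_X_mul, PowerSeries.coeff_succ_X_mul,
    PowerSeries.coeff_succ_X_mul, PowerSeries.coeff_C_mul, PowerSeries.coeff_C_mul]
  simp only [zetaSeries, PowerSeries.coeff_mk, ha]
  have h3 := hrec n (by omega)
  rw [h3]
  ring


end classes

section constExt

variable (p : ℕ) [hp : Fact p.Prime]

/-- The subfield of solutions of `x ^ (p ^ i) = x`. -/
noncomputable def fixFrob (L : Type*) [Field L] [CharP L p] (i : ℕ) : Subfield L :=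
  (iterateFrobenius L p i).eqLocusField (RingHom.id L)

theorem mem_fixFrob {L : Type*} [Field L] [CharP L p] {i : ℕ} {x : L} :
    x ∈ fixFrob p L i ↔ x ^ (p ^ i) = x := by
  have h : x ∈ fixFrob p L i ↔ iterateFrobenius L p i x = RingHom.id L x := Iff.rfl
  rw [h, iterateFrobenius_def, RingHom.id_apply]

theorem finite_fixFrob (L : Type*) [Field L] [CharP L p] {i : ℕ} (hi : 0 < i) :
    Finite (fixFrob p L i) := by
  classical
  have hne : (Polynomial.X ^ (p ^ i) - Polynomial.X : Polynomial L) ≠ 0 :=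
    FiniteField.X_pow_card_sub_X_ne_zero L (Nat.one_lt_pow hi.ne' hp.out.one_lt)
  refine Set.Finite.subset ((Polynomial.X ^ (p ^ i) - Polynomial.X :
    Polynomial L).roots.toFinset.finite_toSet) ?_
  intro x hx
  have hx' : x ^ (p ^ i) = x := (mem_fixFrob p).mp hx
  rw [Finset.mem_coe, Multiset.mem_toFinset, Polynomial.mem_roots hne, Polynomial.IsRoot]
  simp [hx']

variable {F L : Type*} [Field F] [Field L] [Algebra F L]

instance [CharP L p] (i : ℕ) : IsInvariantSubfield (L ≃ₐ[F] L) (fixFrob p L i) where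
  smul_mem := by
    intro σ x hx
    rw [mem_fixFrob] at hx ⊢
    rw [AlgEquiv.smul_def, ← map_pow, hx]

theorem card_fixedPoints [CharP L p] [FiniteDimensional F L] [IsGalois F L] (k : Type*) [Field k]
    [Finite k] [Algebra k F] (hk : ∀ x : F, IsAlgebraic k x → ∃ c : k, algebraMap k F c = x)
    {r : ℕ} (hr : Nat.card k = p ^ r) (hr0 : 0 < r) {j : ℕ} (hj : 0 < j) :
    Nat.card (FixedPoints.subfield (L ≃ₐ[F] L) (fixFrob p L (r * j))) = Nat.card k := by
  have : Fintype k := Fintype.ofFinite k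
  have hc : ∀ c : k, c ^ (p ^ (r * j)) = c := by
    intro c
    rw [pow_mul, ← hr, Nat.card_eq_fintype_card]
    exact FiniteField.pow_card_pow j c
  let ψ : k → FixedPoints.subfield (L ≃ₐ[F] L) (fixFrob p L (r * j)) := fun c =>
    ⟨⟨algebraMap F L (algebraMap k F c), by
      rw [mem_fixFrob, ← map_pow, ← map_pow, hc]⟩, by
      intro σ
      apply Subtype.ext
      exact σ.commutes _⟩
  symm
  refine Nat.card_congr (Equiv.ofBijective ψ ⟨?_, ?_⟩)
  · intro a b h
    have h1 : algebraMap F L (algebraMap k F a) = algebraMap F L (algebraMap k F b) :=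
      congrArg (fun x : FixedPoints.subfield (L ≃ₐ[F] L) (fixFrob p L (r * j)) =>
        ((x : fixFrob p L (r * j)) : L)) h
    exact (algebraMap k F).injective ((algebraMap F L).injective h1)
  · rintro ⟨⟨x, hx⟩, hfix⟩
    have h1 : x ∈ Set.range (algebraMap F L) := by
      rw [IsGalois.mem_range_algebraMap_iff_fixed]
      intro σ
      exact congrArg Subtype.val (hfix σ)
    obtain ⟨y, hy⟩ := h1
    have h2 : y ^ (p ^ (r * j)) = y := by
      apply (algebraMap F L).injective
      rw [map_pow, hy]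
      exact (mem_fixFrob p).mp hx
    have h3 : IsAlgebraic k y := by
      refine ⟨Polynomial.X ^ (p ^ (r * j)) - Polynomial.X, ?_, ?_⟩
      · exact FiniteField.X_pow_card_sub_X_ne_zero k
          (Nat.one_lt_pow (Nat.mul_pos hr0 hj).ne' hp.out.one_lt)
      · simp [h2]
    obtain ⟨c, hc⟩ := hk y h3
    refine ⟨c, ?_⟩
    apply Subtype.ext
    apply Subtype.ext
    change algebraMap F L (algebraMap k F c) = x
    rw [hc, hy]

theorem card_fixFrob_le [CharP L p] [FiniteDimensional F L] [IsGalois F L] (k : Type*) [Field k]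
    [Finite k] [Algebra k F] (hk : ∀ x : F, IsAlgebraic k x → ∃ c : k, algebraMap k F c = x)
    {r : ℕ} (hr : Nat.card k = p ^ r) (hr0 : 0 < r) {j : ℕ} (hj : 0 < j) :
    Nat.card (fixFrob p L (r * j)) ≤ Nat.card k ^ Module.finrank F L := by
  have := finite_fixFrob p L (Nat.mul_pos hr0 hj)
  have h1 := Module.natCard_eq_pow_finrank
    (K := FixedPoints.subfield (L ≃ₐ[F] L) (fixFrob p L (r * j))) (V := fixFrob p L (r * j))
  rw [h1, card_fixedPoints p k hk hr hr0 hj]
  apply Nat.pow_le_pow_right Nat.card_pos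
  rw [← IsGalois.card_aut_eq_finrank F L, Nat.card_eq_fintype_card]
  exact FixedPoints.finrank_le_card (L ≃ₐ[F] L) _

theorem card_fixFrob_eq [CharP L p] [FiniteDimensional F L] [IsGalois F L] (k : Type*) [Field k]
    [Finite k] [Algebra k F] (hk : ∀ x : F, IsAlgebraic k x → ∃ c : k, algebraMap k F c = x)
    {r : ℕ} (hr : Nat.card k = p ^ r) (hr0 : 0 < r) {j : ℕ} (hj : 0 < j)
    (hgen : Algebra.adjoin F (fixFrob p L (r * j) : Set L) = ⊤) :
    Nat.card (fixFrob p L (r * j)) = Nat.card k ^ Module.finrank F L := by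
  have := finite_fixFrob p L (Nat.mul_pos hr0 hj)
  have h1 := Module.natCard_eq_pow_finrank
    (K := FixedPoints.subfield (L ≃ₐ[F] L) (fixFrob p L (r * j))) (V := fixFrob p L (r * j))
  rw [h1, card_fixedPoints p k hk hr hr0 hj]
  have hfaith : FaithfulSMul (L ≃ₐ[F] L) (fixFrob p L (r * j)) := by
    constructor
    intro σ τ h
    have h2 : (σ : L →ₐ[F] L) = (τ : L →ₐ[F] L) := by
      apply AlgHom.ext_of_adjoin_eq_top hgen
      intro x hx
      exact congrArg Subtype.val (h ⟨x, hx⟩)
    ext x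
    exact DFunLike.congr_fun h2 x
  rw [← IsGalois.card_aut_eq_finrank F L, Nat.card_eq_fintype_card (α := L ≃ₐ[F] L),
    FixedPoints.finrank_eq_card]


theorem eq_one_of_fix [CharP L p] {i : ℕ} (hgen : Algebra.adjoin F (fixFrob p L i : Set L) = ⊤)
    {σ : L ≃ₐ[F] L} (h : ∀ c ∈ fixFrob p L i, σ c = c) : σ = 1 := by
  have h2 : (σ : L →ₐ[F] L) = ((1 : L ≃ₐ[F] L) : L →ₐ[F] L) := by
    apply AlgHom.ext_of_adjoin_eq_top hgen
    intro x hx
    exact h x hx
  ext x
  exact DFunLike.congr_fun h2 x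

theorem eq_zero_of_val_lt_one [CharP L p] {i : ℕ} (hi : 0 < i) (w : Place L) {c : L}
    (hc : c ∈ fixFrob p L i) (h : w.val c < 1) : c = 0 := by
  by_contra h0
  rw [mem_fixFrob] at hc
  have h1 : 1 < p ^ i := Nat.one_lt_pow hi.ne' hp.out.one_lt
  have h2 : c ^ (p ^ i - 1) = 1 := by
    apply mul_right_cancel₀ h0
    rw [← pow_succ, Nat.sub_add_cancel h1.le, hc, one_mul]
  have h3 := w.val_of_pow_eq_one (by omega) h2
  rw [h3] at h
  exact lt_irrefl _ h

theorem val_le_one_of_mem [CharP L p] {i : ℕ} (hi : 0 < i) (w : Place L) {c : L}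
    (hc : c ∈ fixFrob p L i) : w.val c ≤ 1 := by
  by_cases h0 : c = 0
  · subst h0; simp
  rw [mem_fixFrob] at hc
  have h1 : 1 < p ^ i := Nat.one_lt_pow hi.ne' hp.out.one_lt
  have h2 : c ^ (p ^ i - 1) = 1 := by
    apply mul_right_cancel₀ h0
    rw [← pow_succ, Nat.sub_add_cancel h1.le, hc, one_mul]
  exact (w.val_of_pow_eq_one (by omega) h2).le

theorem pow_pow_eq {M : Type*} [Monoid M] {c : M} {p i : ℕ} (hc : c ^ (p ^ i) = c) (e : ℕ) :
    c ^ (p ^ (i * e)) = c := by
  induction e with
  | zero => simp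
  | succ e ih => rw [Nat.mul_succ, pow_add, pow_mul, ih, hc]

theorem split_aux [CharP L p] [Algebra (ZMod p) F] [Algebra (ZMod p) L]
    [IsScalarTower (ZMod p) F L] [FiniteDimensional F L] [IsGalois F L]
    (hF : IsFunctionField (ZMod p) F) {i : ℕ} (hi : 0 < i)
    (hgen : Algebra.adjoin F (fixFrob p L i : Set L) = ⊤) {w : Place L} {v : Place F}
    (h : Over (algebraMap F L) w v) (e : ℕ) (he : v.deg p = i * e) :
    ramE (algebraMap F L) w v = 1 ∧ w.deg p = v.deg p := by
  have hL := hF.of_finite p (L := L)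
  constructor
  · by_contra hne
    have h1 := h.ramE_pos
    obtain ⟨τ, hτ1, hτ⟩ := exists_isInert p hF h (by omega)
    apply hτ1
    apply eq_one_of_fix p hgen
    intro c hc
    have h2 := hτ c (val_le_one_of_mem p hi w hc)
    have h3 : τ c - c ∈ fixFrob p L i :=
      sub_mem (IsInvariantSubfield.smul_mem τ hc) hc
    exact sub_eq_zero.mp (eq_zero_of_val_lt_one p hi w h3 h2)
  · obtain ⟨σ, hσ⟩ := exists_isFrob p hF h
    have hσ1 : σ = 1 := by
      apply eq_one_of_fix p hgen
      intro c hc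
      have h2 := hσ c (val_le_one_of_mem p hi w hc)
      rw [(v.card_res p hF).1, he, pow_pow_eq ((mem_fixFrob p).mp hc) e] at h2
      have h3 : σ c - c ∈ fixFrob p L i :=
        sub_mem (IsInvariantSubfield.smul_mem σ hc) hc
      exact sub_eq_zero.mp (eq_zero_of_val_lt_one p hi w h3 h2)
    have h1 := hσ.deg_le p hF hL (i := 1) one_pos (by
      rw [hσ1, pow_one]
      intro z _
      simp)
    have h2 := h.deg_dvd p hF hL
    have h3 := (w.card_res p hL).2
    have h4 := Nat.le_of_dvd h3 h2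
    omega

theorem card_fiber_split [CharP L p] [Algebra (ZMod p) F] [Algebra (ZMod p) L]
    [IsScalarTower (ZMod p) F L] [FiniteDimensional F L] [IsGalois F L]
    (hF : IsFunctionField (ZMod p) F) {i : ℕ} (hi : 0 < i)
    (hgen : Algebra.adjoin F (fixFrob p L i : Set L) = ⊤) (v : Place F)
    (e : ℕ) (he : v.deg p = i * e) :
    {w : Place L | Over (algebraMap F L) w v}.ncard = Module.finrank F L := by
  classical
  have h1 := sum_fiber (L := L) p hF v
  have h2 : ∀ w ∈ (finite_fiber (L := L) p hF v).toFinset,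
      ramE (algebraMap F L) w v * w.deg p = v.deg p := by
    intro w hw
    rw [Set.Finite.mem_toFinset] at hw
    obtain ⟨h3, h4⟩ := split_aux p hF hi hgen hw e he
    rw [h3, h4, one_mul]
  rw [Finset.sum_congr rfl h2, Finset.sum_const, smul_eq_mul] at h1
  have h3 := Nat.eq_of_mul_eq_mul_right (v.card_res p hF).2 h1
  rw [← h3, Set.ncard_eq_toFinset_card _ (finite_fiber (L := L) p hF v)]

end constExt

section two

variable (p : ℕ) [hp : Fact p.Prime] {F : Type*} [Field F] [Algebra (ZMod p) F]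

include p in
theorem exists_two_places (hF : IsFunctionField (ZMod p) F) : ∃ v w : Place F, v ≠ w := by
  obtain ⟨v⟩ := exists_place p hF
  obtain ⟨x, hx, hx1, hx2⟩ := exists_only_zero p hF v
  obtain ⟨w, hw⟩ := exists_zero p hF (transcendental_inv p hx)
  have hx0 : x ≠ 0 := by rintro rfl; exact hx isAlgebraic_zero
  rw [w.val_lt_one_iff (inv_ne_zero hx0), w.ord_inv] at hw
  refine ⟨v, w, ?_⟩
  rintro rfl
  omega

/-- The normalised degree. -/
theorem exists_normalised (e₀ : Place F → ℕ) (v₀ : Place F) (hv₀ : 0 < e₀ v₀) :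
    ∃ (δ : ℕ) (e : Place F → ℕ) (D₁ : Place F →₀ ℤ), 0 < δ ∧ (∀ v, e₀ v = δ * e v) ∧
      wt (fun v => (e v : ℤ)) D₁ = 1 := by
  classical
  let φ : (Place F →₀ ℤ) →+ ℤ := AddMonoidHom.mk' (wt (fun v => (e₀ v : ℤ)))
    (wt_add (fun v => (e₀ v : ℤ)))
  obtain ⟨a, ha⟩ := Int.subgroup_cyclic φ.range
  rw [← AddSubgroup.zmultiples_eq_closure] at ha
  have hmem : ∀ v, a ∣ (e₀ v : ℤ) := by
    intro v
    have h1 : (e₀ v : ℤ) ∈ φ.range := ⟨Finsupp.single v 1, by
      change wt _ (Finsupp.single v 1) = _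
      rw [wt_single, one_mul]⟩
    rw [ha, Int.mem_zmultiples_iff] at h1
    exact h1
  have ha0 : a ≠ 0 := by
    rintro rfl
    have h1 := hmem v₀
    rw [zero_dvd_iff] at h1
    have : e₀ v₀ = 0 := by exact_mod_cast h1
    omega
  have hδ : 0 < a.natAbs := Int.natAbs_pos.mpr ha0
  have hdvd : ∀ v, a.natAbs ∣ e₀ v := fun v => by
    have := hmem v
    rw [← Int.natAbs_dvd_natAbs, Int.natAbs_natCast] at this
    exact this
  obtain ⟨D₀, hD₀⟩ : ∃ D₀ : Place F →₀ ℤ, wt (fun v => (e₀ v : ℤ)) D₀ = (a.natAbs : ℤ) := by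
    have h1 : (a.natAbs : ℤ) ∈ φ.range := by
      rw [ha, Int.mem_zmultiples_iff]
      exact Int.dvd_natAbs_self
    obtain ⟨D₀, hD₀⟩ := h1
    exact ⟨D₀, hD₀⟩
  refine ⟨a.natAbs, fun v => e₀ v / a.natAbs, D₀, hδ,
    fun v => (Nat.mul_div_cancel' (hdvd v)).symm, ?_⟩
  have h2 : wt (fun v => (e₀ v : ℤ)) D₀ =
      (a.natAbs : ℤ) * wt (fun v => ((e₀ v / a.natAbs : ℕ) : ℤ)) D₀ := by
    rw [wt, wt, Finsupp.sum, Finsupp.sum, Finset.mul_sum]
    refine Finset.sum_congr rfl fun v _ => ?_
    have h3 : (e₀ v : ℤ) = (a.natAbs : ℤ) * ((e₀ v / a.natAbs : ℕ) : ℤ) := by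
      exact_mod_cast (Nat.mul_div_cancel' (hdvd v)).symm
    rw [h3]; ring
  rw [hD₀] at h2
  have h3 : (a.natAbs : ℤ) ≠ 0 := by exact_mod_cast hδ.ne'
  have h4 : (a.natAbs : ℤ) * 1 =
      (a.natAbs : ℤ) * wt (fun v => ((e₀ v / a.natAbs : ℕ) : ℤ)) D₀ := by rw [mul_one]; exact h2
  exact (mul_left_cancel₀ h3 h4).symm

end two

/-- Module P : rationality (F. K. Schmidt). -/
theorem exists_numerator (p : ℕ) [hp : Fact p.Prime] (k : Type*) [Field k] [Finite k]
    {F : Type*} [Field F] [Algebra (ZMod p) F] [Algebra k F] (hF : IsFunctionField (ZMod p) F)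
    (hk : ∀ x : F, IsAlgebraic k x → ∃ c : k, algebraMap k F c = x) :
    ∃ P : Polynomial ℤ, (P : PowerSeries ℤ) = (1 - PowerSeries.X) *
      (1 - ((Nat.card k : ℕ) : PowerSeries ℤ) * PowerSeries.X) *
        zetaSeries (fun v : Place F => kdeg k v) := by
  classical
  obtain ⟨v₀⟩ := exists_place p hF
  obtain ⟨δ, e, D₁, hδ, he, hD₁⟩ := exists_normalised (fun v : Place F => kdeg k v) v₀
    (card_res_eq_kdeg p k hF v₀).2
  obtain ⟨P, hP⟩ := exists_numerator_aux p hF k hk δ hδ e he D₁ hD₁
  have hδ1 : δ = 1 := by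
    by_contra hne
    have hδ2 : 2 ≤ δ := by omega
    obtain ⟨r, hr0, hr⟩ := exists_card_eq p k F
    have hrδ : 0 < r * δ := Nat.mul_pos hr0 hδ
    set g : Polynomial F := Polynomial.X ^ (p ^ (r * δ)) - Polynomial.X with hg
    have hcharF : CharP F p := charP_of_injective_algebraMap (algebraMap (ZMod p) F).injective p
    have hgsep : g.Separable := galois_poly_separable p _ (dvd_pow_self p hrδ.ne')
    let L := g.SplittingField
    have hcharL : CharP L p := charP_of_injective_algebraMap (algebraMap F L).injective p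
    have hgal : IsGalois F L := IsGalois.of_separable_splitting_field hgsep
    have hfd : FiniteDimensional F L := Polynomial.IsSplittingField.finiteDimensional L g
    have hL : IsFunctionField (ZMod p) L := hF.of_finite p (L := L)
    set k' := fixFrob p L (r * δ) with hk'
    have hk'fin : Finite k' := finite_fixFrob p L hrδ
    have hg0 : g ≠ 0 := FiniteField.X_pow_card_sub_X_ne_zero F
      (Nat.one_lt_pow hrδ.ne' hp.out.one_lt)
    have hroot : (g.rootSet L) = (k' : Set L) := by
      ext x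
      have h1 : Polynomial.aeval x g = x ^ (p ^ (r * δ)) - x := by simp [hg]
      rw [Polynomial.mem_rootSet, SetLike.mem_coe, hk', mem_fixFrob, and_iff_right hg0, h1,
        sub_eq_zero]
    have hgen : Algebra.adjoin F (k' : Set L) = ⊤ := by
      rw [← hroot]; exact Polynomial.SplittingField.adjoin_rootSet g
    have hcard : Nat.card k' = p ^ (r * δ) := by
      have h1 := Polynomial.card_rootSet_eq_natDegree (K := L) hgsep
        (Polynomial.SplittingField.splits g)
      have hnat : g.natDegree = p ^ (r * δ) := FiniteField.X_pow_card_sub_X_natDegree_eq F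
        (Nat.one_lt_pow hrδ.ne' hp.out.one_lt)
      rw [hnat] at h1
      rw [← h1, ← Nat.card_eq_fintype_card]
      exact Nat.card_congr (Equiv.setCongr hroot.symm)
    have hrank : Module.finrank F L = δ := by
      have h1 := card_fixFrob_eq (L := L) p k hk hr hr0 hδ hgen
      rw [← hk', hcard, hr, ← pow_mul] at h1
      have h2 := Nat.pow_right_injective hp.out.two_le h1
      exact (Nat.eq_of_mul_eq_mul_left hr0 h2).symm
    -- `k'` is algebraically closed in `L`
    have hkc : ∀ x : L, IsAlgebraic k' x → ∃ c : k', algebraMap k' L c = x := by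
      intro x hx
      have h3 : FiniteDimensional k' (IntermediateField.adjoin k' {x}) :=
        IntermediateField.adjoin.finiteDimensional hx.isIntegral
      have h4 : Finite (IntermediateField.adjoin k' {x}) := Module.finite_of_finite k'
      have : Fintype (IntermediateField.adjoin k' {x}) := Fintype.ofFinite _
      have h5 := Module.natCard_eq_pow_finrank (K := k') (V := IntermediateField.adjoin k' {x})
      set m := Module.finrank k' (IntermediateField.adjoin k' {x}) with hm
      have hm0 : 0 < m := Module.finrank_pos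
      rw [hcard, ← pow_mul] at h5
      let x' : IntermediateField.adjoin k' {x} :=
        ⟨x, IntermediateField.mem_adjoin_simple_self _ x⟩
      have h6 := FiniteField.pow_card x'
      rw [← Nat.card_eq_fintype_card, h5] at h6
      have h7 : x ∈ fixFrob p L (r * (δ * m)) := by
        rw [mem_fixFrob, ← mul_assoc]
        exact congrArg Subtype.val h6
      have h8 : k' ≤ fixFrob p L (r * (δ * m)) := by
        intro y hy
        rw [hk', mem_fixFrob] at hy
        rw [mem_fixFrob, ← mul_assoc]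
        exact pow_pow_eq hy m
      have h9 := card_fixFrob_le (L := L) p k hk hr hr0 (Nat.mul_pos hδ hm0)
      rw [hrank, hr, ← pow_mul, ← hcard] at h9
      have h10 := finite_fixFrob p L (Nat.mul_pos hr0 (Nat.mul_pos hδ hm0))
      have h11 : (k' : Set L) = (fixFrob p L (r * (δ * m)) : Set L) := by
        apply Set.eq_of_subset_of_ncard_le h8
        · rw [← Nat.card_coe_set_eq, ← Nat.card_coe_set_eq]
          exact h9
      have h12 : x ∈ (k' : Set L) := by rw [h11]; exact h7
      exact ⟨⟨x, h12⟩, rfl⟩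
    have hdegv : ∀ v : Place F, v.deg p = (r * δ) * e v := by
      intro v
      rw [deg_eq_kdeg p k hF hr, he]; ring
    -- degrees above
    have hdeg' : ∀ (w : Place L) (v : Place F), Over (algebraMap F L) w v → kdeg k' w = e v := by
      intro w v hwv
      have h1 := (split_aux p hF hrδ hgen hwv (e v) (hdegv v)).2
      rw [hdegv, deg_eq_kdeg p k' hL hcard] at h1
      exact Nat.eq_of_mul_eq_mul_left hrδ h1
    choose s hs using fun v : Place F => exists_over (L := L) p hF v
    choose π hπ using fun w : Place L => exists_under (K := F) p hF w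
    obtain ⟨P', hP'⟩ := exists_numerator_aux p hL k' hkc 1 one_pos (fun w => kdeg k' w)
      (fun w => (one_mul _).symm) (D₁.mapDomain s) (by
        rw [wt, Finsupp.sum_mapDomain_index (fun _ => by simp) (fun _ _ _ => by ring), ← hD₁, wt]
        refine Finset.sum_congr rfl fun v _ => ?_
        simp only
        rw [hdeg' (s v) v (hs v)])
    obtain ⟨x₁, x₂, hx⟩ := exists_two_places p hF
    have hpre : ∀ v : Place F, π ⁻¹' {v} = {w : Place L | Over (algebraMap F L) w v} := by
      intro v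
      ext w
      rw [Set.mem_preimage, Set.mem_singleton_iff, Set.mem_ofPred_eq]
      constructor
      · rintro rfl; exact hπ w
      · intro h; exact (hπ w).unique h
    have hq : Nat.card k ^ δ = Nat.card k' ^ 1 := by rw [pow_one, hcard, hr, pow_mul]
    have hq2 : 2 ≤ Nat.card k ^ δ := by
      have h1 : 1 < Nat.card k := Finite.one_lt_card
      exact Nat.one_lt_pow hδ.ne' h1
    rw [← hq] at hP'
    refine zeta_split_contradiction δ hδ2 e (fun w : Place L => kdeg k' w) ?_ ?_ ?_ ?_ ∅
      Set.finite_empty π ?_ ?_ x₁ x₂ hx (Nat.card k ^ δ) hq2 P P' hP hP'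
    · intro v
      have h1 := (card_res_eq_kdeg p k hF v).2
      rw [he] at h1
      exact Nat.pos_of_mul_pos_left h1
    · intro w
      exact (card_res_eq_kdeg p k' hL w).2
    · intro d
      refine (finite_places_le p hF (r * δ * d)).subset ?_
      intro v hv
      rw [Set.mem_ofPred_eq] at hv ⊢
      rw [hdegv]
      exact Nat.mul_le_mul_left _ hv
    · intro d
      refine (finite_places_le p hL (r * δ * d)).subset ?_
      intro w hw
      rw [Set.mem_ofPred_eq] at hw ⊢
      rw [deg_eq_kdeg p k' hL hcard]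
      exact Nat.mul_le_mul_left _ hw
    · intro v
      rw [hpre]
      exact finite_fiber (L := L) p hF v
    · intro v _
      refine ⟨?_, ?_⟩
      · rw [hpre, card_fiber_split p hF hrδ hgen v (e v) (hdegv v), hrank]
      · intro w hw
        exact hdeg' w v (by rw [← hw]; exact hπ w)
  subst hδ1
  refine ⟨P, ?_⟩
  rw [hP, pow_one]
  congr 2
  funext v
  rw [he v, one_mul]

end Pool.Agent.Helper47.Wan
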